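import Pool.Agent.Helper96.QC.Defs
import Pool.Agent.Helper7.GPC.Div

/-!
Project JC / QC (MP_a499ba_nt), block QC-3: the patterns.

`g` is completely multiplicative with values `±1`, `hL = g`, `hM = μ² g`.
Put `c_W(n) = ∑_{m ∣ n, m ≤ W} λ(m) μ²(n / m)` and `c'_W(n) = ∑_{m ∣ n, m ≤ W} λ(m)`; for `1 ≤ n ≤ W` they are `[n = 1]` and
`[n is a square]`, and `|c_W(n)|, |c'_W(n)| ≤ d(n) ≤ δ √n` for `n > W` if `W = W(δ)` is large.
Let `q = ∏_{p ∈ S} p` for a finite set `S` of primes with `∑_{p ∈ S} 1/p = β ≥ 1/ε` (`Nat.Primes.not_summable_one_div`).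
For a function `G` supported on the squares of `q` and `q / p` (`p ∈ S`) put
`K = ∑_c G(c²) ∑_{m ≤ W} λ(m) g(m) δ_{m c²}`. Then `(K * hM)(a) = ∑_{c² ∣ a} G(c²) g(a/c²) c_W(a/c²)` and
`(K * hL)(a) = ∑_{c² ∣ a} G(c²) g(a/c²) c'_W(a/c²)`.
* Kind M: `G(q²) = q`, `G((q/p)²) = -(1/β) q/p`. Main part of `(K * hM)(a) / √a`: `1` at `a = q²`, `-1/β` at `(q/p)²`,
  `0` elsewhere. Main part of `(K * hL)(a) / √a`: `0` unless `a = b²`; for `q ∣ b` it is `(q/b) (1 - (1/β) ∑ 1/p) = 0`;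
  otherwise at most one `p` has `(q/p) ∣ b` and it is `-(1/β) (q/p)/b ∈ [-1/β, 0]`.
* Kind L: `G((q/p)²) = (1/β) q/p`, `G(q²) = 0`. Main part for `hM`: `1/β` at `(q/p)²`. Main part for `hL`: at `a = b²`,
  `q ∣ b`: `q/b ∈ [0, 1]`, `1` at `b = q`; otherwise in `[0, 1/β]`.
The errors are at most `∑_c (|G(c²)| / c) δ ≤ (1 + |S|) δ`: choose `δ` after `S`. `Q = q²`.
-/

set_option autoImplicit false

namespace Pool.Agent.Helper96.QC

open Finset

/-- the Liouville function, real valued -/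
private noncomputable def lam56 (n : ℕ) : ℝ := ((ArithmeticFunction.liouville n : ℤ) : ℝ)

private theorem lam_abs56 (n : ℕ) : |lam56 n| ≤ 1 := by
  unfold lam56
  by_cases h : n = 0
  · subst h
    simp
  · rw [ArithmeticFunction.liouville_apply h]
    push_cast
    rw [abs_pow, abs_neg, abs_one, one_pow]

private theorem liou_pp56 {p i : ℕ} (hp : p.Prime) :
    ArithmeticFunction.liouville (p ^ i) = (-1) ^ i := by
  rw [ArithmeticFunction.liouville_apply (pow_ne_zero _ hp.ne_zero),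
    ArithmeticFunction.cardFactors_apply_prime_pow hp]

open ArithmeticFunction in
private theorem sum_lam56 {n : ℕ} (hn : n ≠ 0) :
    ∑ m ∈ n.divisors, lam56 m = if IsSquare n then 1 else 0 := by
  have hmul : (ArithmeticFunction.liouville * (ArithmeticFunction.zeta : ArithmeticFunction ℤ)).IsMultiplicative :=
    ArithmeticFunction.isMultiplicative_liouville.mul ArithmeticFunction.isMultiplicative_zeta.natCast
  have hpp : ∀ p k : ℕ, p.Prime →
      (ArithmeticFunction.liouville * (ArithmeticFunction.zeta : ArithmeticFunction ℤ)) (p ^ k) =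
        if Even k then 1 else 0 := by
    intro p k hp
    rw [ArithmeticFunction.coe_mul_zeta_apply, Nat.divisors_prime_pow hp, Finset.sum_map]
    simp only [Function.Embedding.coeFn_mk]
    rw [Finset.sum_congr rfl (fun i _ => liou_pp56 hp), neg_one_geom_sum]
    by_cases h : Even k
    · rw [if_pos h, if_neg]
      rw [Nat.even_add_one]
      exact fun h' => h' h
    · rw [if_neg h, if_pos]
      rw [Nat.even_add_one]
      exact h
  have h1 : (ArithmeticFunction.liouville * (ArithmeticFunction.zeta : ArithmeticFunction ℤ)) n =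
      if IsSquare n then 1 else 0 := by
    rw [ArithmeticFunction.IsMultiplicative.multiplicative_factorization _ hmul hn]
    by_cases hs : IsSquare n
    · rw [if_pos hs]
      obtain ⟨b, rfl⟩ := hs
      have hb : b ≠ 0 := fun h => hn (by rw [h])
      refine Finset.prod_eq_one fun p hp => ?_
      have hp' : p.Prime := Nat.prime_of_mem_primeFactors (Nat.support_factorization _ ▸ hp)
      refine (hpp p _ hp').trans (if_pos ?_)
      rw [Nat.factorization_mul hb hb]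
      exact ⟨b.factorization p, rfl⟩
    · rw [if_neg hs]
      obtain ⟨a, b, hab, ha⟩ := Nat.sq_mul_squarefree n
      have ha1 : a ≠ 1 := by
        rintro rfl
        exact hs ⟨b, by rw [← hab]; ring⟩
      obtain ⟨p, hp, hpa⟩ := Nat.exists_prime_and_dvd ha1
      have ha0 : a ≠ 0 := ha.ne_zero
      have hb0 : b ≠ 0 := by
        rintro rfl
        apply hn
        rw [← hab]
        simp
      have h2 : n.factorization p = 2 * b.factorization p + 1 := by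
        rw [← hab, Nat.factorization_mul (pow_ne_zero _ hb0) ha0, Nat.factorization_pow]
        have h3 : a.factorization p = 1 :=
          le_antisymm (Squarefree.natFactorization_le_one p ha)
            (hp.factorization_pos_of_dvd ha0 hpa)
        simp [h3]
      refine Finset.prod_eq_zero (i := p) ?_ ?_
      · rw [Finsupp.mem_support_iff, h2]
        omega
      · refine (hpp p _ hp).trans (if_neg ?_)
        rw [h2, Nat.not_even_iff_odd]
        exact ⟨_, rfl⟩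
  have h2 : (ArithmeticFunction.liouville * (ArithmeticFunction.zeta : ArithmeticFunction ℤ)) n =
      ∑ m ∈ n.divisors, ArithmeticFunction.liouville m := ArithmeticFunction.coe_mul_zeta_apply
  rw [h1] at h2
  unfold lam56
  rw [← Int.cast_sum, ← h2]
  split_ifs <;> simp

open ArithmeticFunction in
private theorem sum_lam_sqf56 {n : ℕ} (hn : n ≠ 0) :
    ∑ m ∈ n.divisors, lam56 m * (if Squarefree (n / m) then 1 else 0) = if n = 1 then 1 else 0 := by
  set f : ArithmeticFunction ℤ := ArithmeticFunction.pmul ArithmeticFunction.moebius ArithmeticFunction.moebius with hf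
  have hfv : ∀ k, f k = if Squarefree k then 1 else 0 := by
    intro k
    rw [hf, ArithmeticFunction.pmul_apply, ← pow_two, ArithmeticFunction.moebius_sq]
  have hfm : f.IsMultiplicative :=
    ArithmeticFunction.isMultiplicative_moebius.pmul ArithmeticFunction.isMultiplicative_moebius
  have hmul : (ArithmeticFunction.liouville * f).IsMultiplicative :=
    ArithmeticFunction.isMultiplicative_liouville.mul hfm
  have hval : ∀ k, (ArithmeticFunction.liouville * f) k =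
      ∑ m ∈ k.divisors, ArithmeticFunction.liouville m * f (k / m) := by
    intro k
    rw [ArithmeticFunction.mul_apply]
    exact Nat.sum_divisorsAntidiagonal (fun i j => ArithmeticFunction.liouville i * f j)
  have hpp : ∀ p k : ℕ, p.Prime → k ≠ 0 → (ArithmeticFunction.liouville * f) (p ^ k) = 0 := by
    intro p k hp hk
    obtain ⟨j, rfl⟩ := Nat.exists_eq_succ_of_ne_zero hk
    rw [hval, Nat.divisors_prime_pow hp, Finset.sum_map]
    simp only [Function.Embedding.coeFn_mk]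
    have h1 : ∀ i ∈ Finset.range (j.succ + 1), ArithmeticFunction.liouville (p ^ i) * f (p ^ j.succ / p ^ i) =
        (-1) ^ i * (if j.succ - i ≤ 1 then 1 else 0) := by
      intro i hi
      rw [Finset.mem_range] at hi
      rw [liou_pp56 hp, Nat.pow_div (by omega) hp.pos, hfv]
      congr 1
      have h2 : Squarefree (p ^ (j.succ - i)) ↔ j.succ - i ≤ 1 := by
        constructor
        · intro h3
          by_contra h4
          push Not at h4
          have h5 : p * p ∣ p ^ (j.succ - i) := by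
            rw [← pow_two]
            exact pow_dvd_pow p h4
          exact hp.one_lt.ne' (Nat.isUnit_iff.1 (h3 p h5))
        · intro h3
          interval_cases hh : (j.succ - i)
          · simp
          · rw [pow_one]
            exact hp.prime.squarefree
      simp only [h2]
    rw [Finset.sum_congr rfl h1, Finset.sum_range_succ, Finset.sum_range_succ, Finset.sum_eq_zero]
    · have e1 : j.succ - j ≤ 1 := by omega
      have e2 : j.succ - j.succ ≤ 1 := by omega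
      rw [if_pos e1, if_pos e2, pow_succ]
      ring
    · intro i hi
      rw [Finset.mem_range] at hi
      rw [if_neg (by omega), mul_zero]
  have h1 : (ArithmeticFunction.liouville * f) n = if n = 1 then 1 else 0 := by
    by_cases h : n = 1
    · rw [if_pos h, h]
      exact hmul.map_one
    · rw [if_neg h, ArithmeticFunction.IsMultiplicative.multiplicative_factorization _ hmul hn]
      obtain ⟨p, hp, hpn⟩ := Nat.exists_prime_and_dvd h
      have h2 : n.factorization p ≠ 0 := (hp.factorization_pos_of_dvd hn hpn).ne'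
      exact Finset.prod_eq_zero (i := p) (Finsupp.mem_support_iff.2 h2) (hpp p _ hp h2)
  have h2 := hval n
  rw [h1] at h2
  have h3 : ∑ m ∈ n.divisors, lam56 m * (if Squarefree (n / m) then 1 else 0) =
      ((∑ m ∈ n.divisors, ArithmeticFunction.liouville m * f (n / m) : ℤ) : ℝ) := by
    rw [Int.cast_sum]
    refine Finset.sum_congr rfl fun m _ => ?_
    rw [hfv]
    unfold lam56
    push_cast
    rfl
  rw [h3, ← h2]
  split_ifs <;> simp

/-- the divisor bound -/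
theorem exists_W56 {δ : ℝ} (hδ : 0 < δ) : ∃ W : ℕ, 1 ≤ W ∧ ∀ n : ℕ, W < n →
    2 * (n.divisors.card : ℝ) ≤ δ * Real.sqrt n := by
  obtain ⟨C, hC, hb⟩ := Pool.Agent.Helper7.GPC.card_divisors_le (ε := 1 / 4) (by norm_num)
  refine ⟨max 1 ⌈(2 * C / δ) ^ 4⌉₊, le_max_left _ _, fun n hn => ?_⟩
  have hn0 : n ≠ 0 := by omega
  have hnr : (0 : ℝ) < n := by positivity
  have h1 := hb n hn0
  set t : ℝ := (n : ℝ) ^ (1 / 4 : ℝ) with ht
  have ht0 : 0 ≤ t := by positivity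
  have ht2 : Real.sqrt n = t * t := by
    rw [Real.sqrt_eq_rpow, ht, ← Real.rpow_add hnr]
    norm_num
  have h2 : (2 * C / δ) ^ 4 ≤ n := by
    have h3 : (⌈(2 * C / δ) ^ 4⌉₊ : ℝ) ≤ n := by
      have : ⌈(2 * C / δ) ^ 4⌉₊ ≤ n := le_trans (le_max_right _ _) hn.le
      exact_mod_cast this
    exact (Nat.le_ceil _).trans h3
  have h3 : 2 * C / δ ≤ t := by
    have h4 : ((2 * C / δ) ^ 4 : ℝ) ^ (1 / 4 : ℝ) ≤ t := Real.rpow_le_rpow (by positivity) h2 (by norm_num)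
    have h5 : ((2 * C / δ) ^ 4 : ℝ) ^ (1 / 4 : ℝ) = 2 * C / δ := by
      rw [← Real.rpow_natCast, ← Real.rpow_mul (by positivity)]
      norm_num
    rwa [h5] at h4
  have h4 : 2 * C ≤ δ * t := by
    rw [div_le_iff₀ hδ] at h3
    linarith
  calc 2 * (n.divisors.card : ℝ) ≤ 2 * (C * t) := by linarith
    _ = (2 * C) * t := by ring
    _ ≤ (δ * t) * t := mul_le_mul_of_nonneg_right h4 ht0
    _ = δ * Real.sqrt n := by rw [ht2]; ring


/-- the kernel -/
private noncomputable def KK56 (g : ℕ → ℝ) (I : Finset ℕ) (c : ℕ → ℕ) (G : ℕ → ℝ) (W k : ℕ) : ℝ :=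
  ∑ i ∈ I, ∑ m ∈ Icc 1 W, if k = m * c i ^ 2 then G i * (lam56 m * g m) else 0

private theorem KK_supp56 (g : ℕ → ℝ) (I : Finset ℕ) (c : ℕ → ℕ) (G : ℕ → ℝ) (W : ℕ) {q : ℕ}
    (hc : ∀ i ∈ I, 1 ≤ c i ∧ c i ≤ q) (k : ℕ) (h : KK56 g I c G W k ≠ 0) : 1 ≤ k ∧ k ≤ W * q ^ 2 := by
  unfold KK56 at h
  obtain ⟨i, hi, h1⟩ := Finset.exists_ne_zero_of_sum_ne_zero h
  obtain ⟨m, hm, h2⟩ := Finset.exists_ne_zero_of_sum_ne_zero h1
  have h3 : k = m * c i ^ 2 := by
    by_contra h3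
    exact h2 (if_neg h3)
  rw [Finset.mem_Icc] at hm
  obtain ⟨h4, h5⟩ := hc i hi
  subst h3
  refine ⟨?_, Nat.mul_le_mul hm.2 (Nat.pow_le_pow_left h5 2)⟩
  exact Nat.mul_pos hm.1 (pow_pos h4 2)

private theorem cv_KK56 (g h : ℕ → ℝ) (I : Finset ℕ) (c : ℕ → ℕ) (G : ℕ → ℝ) (W : ℕ) (hc : ∀ i ∈ I, 1 ≤ c i)
    {a : ℕ} (ha : 1 ≤ a) :
    cv (KK56 g I c G W) h a = ∑ i ∈ I, if c i ^ 2 ∣ a then
      G i * ∑ m ∈ (a / c i ^ 2).divisors.filter (· ≤ W), lam56 m * g m * h (a / c i ^ 2 / m) else 0 := by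
  unfold cv KK56
  simp only [Finset.sum_mul]
  rw [Finset.sum_comm]
  refine Finset.sum_congr rfl fun i hi => ?_
  rw [Finset.sum_comm]
  have h1 : ∀ m ∈ Icc 1 W, ∑ k ∈ a.divisors, (if k = m * c i ^ 2 then G i * (lam56 m * g m) else 0) * h (a / k) =
      if m * c i ^ 2 ∣ a then G i * (lam56 m * g m) * h (a / (m * c i ^ 2)) else 0 := by
    intro m hm
    by_cases h2 : m * c i ^ 2 ∣ a
    · rw [if_pos h2, Finset.sum_eq_single (m * c i ^ 2), if_pos rfl]
      · intro k _ hk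
        rw [if_neg hk, zero_mul]
      · intro h3
        exact absurd (Nat.mem_divisors.2 ⟨h2, by omega⟩) h3
    · rw [if_neg h2]
      refine Finset.sum_eq_zero fun k hk => ?_
      rw [if_neg, zero_mul]
      rintro rfl
      exact h2 (Nat.dvd_of_mem_divisors hk)
  rw [Finset.sum_congr rfl h1]
  by_cases h2 : c i ^ 2 ∣ a
  · rw [if_pos h2, Finset.mul_sum, ← Finset.sum_filter]
    have h3 : (Icc 1 W).filter (fun m => m * c i ^ 2 ∣ a) = (a / c i ^ 2).divisors.filter (· ≤ W) := by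
      ext m
      simp only [Finset.mem_filter, Finset.mem_Icc, Nat.mem_divisors]
      obtain ⟨n, rfl⟩ := h2
      have h4 : 0 < c i ^ 2 := pow_pos (hc i hi) 2
      have hn : n ≠ 0 := by
        rintro rfl
        simp at ha
      rw [Nat.mul_div_cancel_left _ h4, mul_comm m, Nat.mul_dvd_mul_iff_left h4]
      constructor
      · rintro ⟨⟨h5, h6⟩, h7⟩
        exact ⟨⟨h7, hn⟩, h6⟩
      · rintro ⟨⟨h5, _⟩, h6⟩
        exact ⟨⟨Nat.pos_of_dvd_of_pos h5 (Nat.pos_of_ne_zero hn), h6⟩, h5⟩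
    rw [h3]
    refine Finset.sum_congr rfl fun m hm => ?_
    rw [mul_comm m, ← Nat.div_div_eq_div_mul]
    ring
  · rw [if_neg h2]
    refine Finset.sum_eq_zero fun m _ => if_neg fun h3 => h2 (dvd_trans (Dvd.intro_left m rfl) h3)

private theorem pat56 (g h M : ℕ → ℝ) (I : Finset ℕ) (c : ℕ → ℕ) (G : ℕ → ℝ) (W : ℕ) {δ : ℝ} (hδ : 0 ≤ δ)
    (hc : ∀ i ∈ I, 1 ≤ c i)
    (H : ∀ n : ℕ, 1 ≤ n → |∑ m ∈ n.divisors.filter (· ≤ W), lam56 m * g m * h (n / m) - M n| ≤ δ * Real.sqrt n)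
    {a : ℕ} (ha : 1 ≤ a) :
    |cv (KK56 g I c G W) h a - ∑ i ∈ I, if c i ^ 2 ∣ a then G i * M (a / c i ^ 2) else 0| ≤
      (∑ i ∈ I, |G i|) * δ * Real.sqrt a := by
  rw [cv_KK56 g h I c G W hc ha, ← Finset.sum_sub_distrib]
  refine (Finset.abs_sum_le_sum_abs _ _).trans ?_
  rw [mul_assoc, Finset.sum_mul]
  refine Finset.sum_le_sum fun i hi => ?_
  by_cases h2 : c i ^ 2 ∣ a
  · rw [if_pos h2, if_pos h2, ← mul_sub, abs_mul]
    refine mul_le_mul_of_nonneg_left ?_ (abs_nonneg _)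
    refine (H _ ?_).trans (mul_le_mul_of_nonneg_left (Real.sqrt_le_sqrt ?_) hδ)
    · exact Nat.div_pos (Nat.le_of_dvd ha h2) (pow_pos (hc i hi) 2)
    · exact_mod_cast Nat.div_le_self _ _
  · rw [if_neg h2, if_neg h2, sub_zero, abs_zero]
    positivity

private theorem Hgen56 (g χ M : ℕ → ℝ) (hg : ∀ m n : ℕ, 1 ≤ m → 1 ≤ n → g (m * n) = g m * g n)
    (hs : ∀ n : ℕ, 1 ≤ n → g n = 1 ∨ g n = -1) {W : ℕ} {δ : ℝ} (hδ : 0 ≤ δ)
    (hW : ∀ n : ℕ, W < n → 2 * (n.divisors.card : ℝ) ≤ δ * Real.sqrt n)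
    (hχ : ∀ n, |χ n| ≤ 1) (hM : ∀ n : ℕ, 1 ≤ n → ∑ m ∈ n.divisors, lam56 m * χ (n / m) = M n)
    (hM1 : ∀ n, |M n| ≤ 1) (hgM : ∀ n : ℕ, 1 ≤ n → g n * M n = M n) (n : ℕ) (hn : 1 ≤ n) :
    |∑ m ∈ n.divisors.filter (· ≤ W), lam56 m * g m * (χ (n / m) * g (n / m)) - M n| ≤ δ * Real.sqrt n := by
  have h1 : ∑ m ∈ n.divisors.filter (· ≤ W), lam56 m * g m * (χ (n / m) * g (n / m)) =
      g n * ∑ m ∈ n.divisors.filter (· ≤ W), lam56 m * χ (n / m) := by
    rw [Finset.mul_sum]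
    refine Finset.sum_congr rfl fun m hm => ?_
    have hm' := Nat.mem_divisors.1 (Finset.mem_filter.1 hm).1
    have h2 : g n = g m * g (n / m) := by
      rw [← hg m (n / m) (Nat.pos_of_dvd_of_pos hm'.1 hn)
        (Nat.div_pos (Nat.le_of_dvd hn hm'.1) (Nat.pos_of_dvd_of_pos hm'.1 hn)), Nat.mul_div_cancel' hm'.1]
    rw [h2]
    ring
  rw [h1]
  have hgn : |g n| = 1 := by
    rcases hs n hn with h | h <;> rw [h] <;> simp
  by_cases h : n ≤ W
  · rw [Finset.filter_true_of_mem, hM n hn, hgM n hn, sub_self, abs_zero]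
    · positivity
    · intro m hm
      exact (Nat.le_of_dvd hn (Nat.dvd_of_mem_divisors hm)).trans h
  · push Not at h
    refine le_trans ?_ (hW n h)
    have h2 : |g n * ∑ m ∈ n.divisors.filter (· ≤ W), lam56 m * χ (n / m)| ≤ n.divisors.card := by
      rw [abs_mul, hgn, one_mul]
      refine (Finset.abs_sum_le_sum_abs _ _).trans ?_
      calc ∑ m ∈ n.divisors.filter (· ≤ W), |lam56 m * χ (n / m)|
          ≤ ∑ m ∈ n.divisors.filter (· ≤ W), (1 : ℝ) := Finset.sum_le_sum fun m _ => by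
            rw [abs_mul]
            exact mul_le_one₀ (lam_abs56 m) (abs_nonneg _) (hχ _)
        _ = ((n.divisors.filter (· ≤ W)).card : ℝ) := by simp
        _ ≤ _ := by exact_mod_cast Finset.card_filter_le _ _
    have h3 : (1 : ℝ) ≤ n.divisors.card := by
      exact_mod_cast Finset.card_pos.2 ⟨1, Nat.one_mem_divisors.2 (by omega)⟩
    have h4 := hM1 n
    refine (abs_sub _ _).trans ?_
    linarith

private theorem exists_S56 (B : ℝ) : ∃ S : Finset ℕ, (∀ p ∈ S, p.Prime) ∧ B ≤ ∑ p ∈ S, 1 / (p : ℝ) := by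
  by_contra hcon
  push Not at hcon
  apply Nat.Primes.not_summable_one_div
  refine summable_of_sum_le (c := B) (fun n => by positivity) fun u => ?_
  have h1 : ∑ p ∈ u, 1 / ((p : ℕ) : ℝ) = ∑ p ∈ u.map ⟨fun p : Nat.Primes => (p : ℕ), Subtype.val_injective⟩, 1 / (p : ℝ) := by
    rw [Finset.sum_map]
    rfl
  rw [h1]
  refine (hcon _ fun p hp => ?_).le
  rw [Finset.mem_map] at hp
  obtain ⟨r, _, rfl⟩ := hp
  exact r.2

private theorem one56 {S : Finset ℕ} {P : ℕ → Prop} [DecidablePred P] {v : ℕ → ℝ} {B : ℝ} (hB : 0 ≤ B)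
    (h1 : ∀ p ∈ S, ∀ r ∈ S, P p → P r → p = r) (h2 : ∀ p ∈ S, P p → v p ≤ B) :
    ∑ p ∈ S, (if P p then v p else 0) ≤ B := by
  by_cases h : ∃ p ∈ S, P p
  · obtain ⟨p, hp, hPp⟩ := h
    rw [Finset.sum_eq_single_of_mem p hp, if_pos hPp]
    · exact h2 p hp hPp
    · intro r hr hrp
      rw [if_neg]
      intro hPr
      exact hrp (h1 r hr p hp hPr hPp)
  · push Not at h
    rw [Finset.sum_eq_zero fun p hp => if_neg (h p hp)]
    exact hB

open Classical in
theorem main56 (g : ℕ → ℝ) (hg : ∀ m n : ℕ, 1 ≤ m → 1 ≤ n → g (m * n) = g m * g n)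
    (hg1 : g 1 = 1)
    (hs : ∀ n : ℕ, 1 ≤ n → g n = 1 ∨ g n = -1) (I : Finset ℕ) (c : ℕ → ℕ) (G : ℕ → ℝ) {q : ℕ} (_hq : 1 ≤ q)
    (hc : ∀ i ∈ I, 1 ≤ c i ∧ c i ≤ q) {η : ℝ} (hη : 0 < η) :
    ∃ (K : ℕ → ℝ) (N : ℕ), q ^ 2 ≤ N ∧ (∀ k, K k ≠ 0 → 1 ≤ k ∧ k ≤ N) ∧
      (∀ a : ℕ, 1 ≤ a → |cv K (fun n => if Squarefree n then g n else 0) a -
        ∑ i ∈ I, if a = c i ^ 2 then G i else 0| ≤ η * Real.sqrt a) ∧
      (∀ a : ℕ, 1 ≤ a → |cv K g a - ∑ i ∈ I, if ∃ b, a = b ^ 2 ∧ c i ∣ b then G i else 0| ≤ η * Real.sqrt a) := by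
  set A : ℝ := ∑ i ∈ I, |G i| with hA
  have hA0 : 0 ≤ A := Finset.sum_nonneg fun i _ => abs_nonneg _
  set δ : ℝ := η / (A + 1) with hδ
  have hδ0 : 0 < δ := by positivity
  have hAδ : A * δ ≤ η := by
    rw [hδ, mul_div_assoc', div_le_iff₀ (by positivity)]
    nlinarith
  obtain ⟨W, hW1, hW⟩ := exists_W56 hδ0
  have hc1 : ∀ i ∈ I, 1 ≤ c i := fun i hi => (hc i hi).1
  refine ⟨KK56 g I c G W, W * q ^ 2, Nat.le_mul_of_pos_left _ hW1, fun k hk => KK_supp56 g I c G W hc k hk, ?_, ?_⟩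
  · intro a ha
    have H := Hgen56 g (fun n => if Squarefree n then 1 else 0) (fun n => if n = 1 then 1 else 0) hg hs hδ0.le hW
      (fun n => by split_ifs <;> simp)
      (fun n hn => sum_lam_sqf56 (by omega)) (fun n => by split_ifs <;> simp)
      (fun n hn => by
        split_ifs with h
        · rw [h, hg1, one_mul]
        · rw [mul_zero])
    have h1 := pat56 g (fun n => (if Squarefree n then 1 else 0) * g n) (fun n => if n = 1 then 1 else 0) I c G W
      hδ0.le hc1 H ha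
    have h2 : (fun n => (if Squarefree n then 1 else 0) * g n) = fun n => if Squarefree n then g n else 0 := by
      funext n
      split_ifs <;> simp
    rw [h2] at h1
    have h3 : ∑ i ∈ I, (if c i ^ 2 ∣ a then G i * (if a / c i ^ 2 = 1 then 1 else 0) else 0) =
        ∑ i ∈ I, if a = c i ^ 2 then G i else 0 := by
      refine Finset.sum_congr rfl fun i hi => ?_
      have hci : 0 < c i ^ 2 := pow_pos (hc1 i hi) 2
      by_cases h4 : a = c i ^ 2
      · rw [if_pos h4, h4, if_pos dvd_rfl, Nat.div_self hci, if_pos rfl, mul_one]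
      · rw [if_neg h4]
        split_ifs with h5 h6
        · exact absurd (by rw [← Nat.div_mul_cancel h5, h6, one_mul]) h4
        · rw [mul_zero]
        · rfl
    rw [h3] at h1
    refine h1.trans ?_
    exact mul_le_mul_of_nonneg_right hAδ (Real.sqrt_nonneg _)
  · intro a ha
    have H := Hgen56 g (fun n => 1) (fun n => if IsSquare n then 1 else 0) hg hs hδ0.le hW
      (fun n => by simp)
      (fun n hn => by
        simp only [mul_one]
        rw [sum_lam56 (by omega)])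
      (fun n => by split_ifs <;> simp)
      (fun n hn => by
        split_ifs with h
        · obtain ⟨b, rfl⟩ := h
          have hb : 1 ≤ b := by
            rcases Nat.eq_zero_or_pos b with h0 | h0
            · subst h0
              simp at hn
            · exact h0
          rw [hg b b hb hb, mul_one]
          rcases hs b hb with h | h <;> rw [h] <;> norm_num
        · rw [mul_zero])
    have h1 := pat56 g (fun n => 1 * g n) (fun n => if IsSquare n then 1 else 0) I c G W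
      hδ0.le hc1 H ha
    have h2 : (fun n => 1 * g n) = g := by
      funext n
      rw [one_mul]
    rw [h2] at h1
    have h3 : ∑ i ∈ I, (if c i ^ 2 ∣ a then G i * (if IsSquare (a / c i ^ 2) then 1 else 0) else 0) =
        ∑ i ∈ I, if ∃ b, a = b ^ 2 ∧ c i ∣ b then G i else 0 := by
      refine Finset.sum_congr rfl fun i hi => ?_
      have hci : 0 < c i ^ 2 := pow_pos (hc1 i hi) 2
      by_cases h4 : ∃ b, a = b ^ 2 ∧ c i ∣ b
      · rw [if_pos h4]
        obtain ⟨b, hab, d, hd⟩ := h4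
        have h5 : a = c i ^ 2 * (d * d) := by
          rw [hab, hd]
          ring
        have h6 : c i ^ 2 ∣ a := ⟨_, h5⟩
        have h7 : IsSquare (a / c i ^ 2) := by
          rw [h5, Nat.mul_div_cancel_left _ hci]
          exact ⟨d, rfl⟩
        rw [if_pos h6, if_pos h7, mul_one]
      · rw [if_neg h4]
        split_ifs with h5 h6
        · exfalso
          apply h4
          obtain ⟨d, hd⟩ := h6
          refine ⟨c i * d, ?_, dvd_mul_right _ _⟩
          rw [← Nat.div_mul_cancel h5, hd]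
          ring
        · rw [mul_zero]
        · rfl
    rw [h3] at h1
    refine h1.trans ?_
    exact mul_le_mul_of_nonneg_right hAδ (Real.sqrt_nonneg _)


/-- `∏ (S.erase p)` -/
def e56 (S : Finset ℕ) (p : ℕ) : ℕ := ∏ r ∈ S.erase p, r

theorem e_mul56 {S : Finset ℕ} {p : ℕ} (hp : p ∈ S) : p * e56 S p = ∏ r ∈ S, r :=
  Finset.mul_prod_erase S (fun r => r) hp

theorem e_pos56 {S : Finset ℕ} (hS : ∀ p ∈ S, p.Prime) (p : ℕ) : 1 ≤ e56 S p :=
  Finset.prod_pos fun r hr => (hS r (Finset.mem_of_mem_erase hr)).pos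

theorem e_le56 {S : Finset ℕ} (hS : ∀ p ∈ S, p.Prime) {p : ℕ} (hp : p ∈ S) : e56 S p ≤ ∏ r ∈ S, r := by
  rw [← e_mul56 hp]
  exact Nat.le_mul_of_pos_left _ (hS p hp).pos

theorem e_inj56 {S : Finset ℕ} (hS : ∀ p ∈ S, p.Prime) {p r : ℕ} (hp : p ∈ S) (hr : r ∈ S)
    (h : e56 S p = e56 S r) : p = r := by
  have h1 := e_mul56 hp
  have h2 := e_mul56 hr
  rw [← h2, h] at h1
  exact Nat.eq_of_mul_eq_mul_right (e_pos56 hS r) h1

theorem e_two56 {S : Finset ℕ} (hS : ∀ p ∈ S, p.Prime) {p r b : ℕ} (hp : p ∈ S) (hpr : p ≠ r)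
    (h1 : e56 S p ∣ b) (h2 : e56 S r ∣ b) : (∏ r ∈ S, r) ∣ b := by
  rw [← e_mul56 hp]
  refine Nat.Coprime.mul_dvd_of_dvd_of_dvd ?_ ?_ h1
  · exact Nat.Coprime.prod_right fun i hi =>
      (Nat.coprime_primes (hS p hp) (hS i (Finset.mem_of_mem_erase hi))).2 (Finset.ne_of_mem_erase hi).symm
  · exact (Finset.dvd_prod_of_mem (fun r => r) (Finset.mem_erase.2 ⟨hpr, hp⟩)).trans h2

theorem sqrt_sq56 (b : ℕ) : Real.sqrt ((b ^ 2 : ℕ) : ℝ) = b := by
  rw [Nat.cast_pow, Real.sqrt_sq (Nat.cast_nonneg b)]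

open Classical in
theorem P_le56 {S : Finset ℕ} (hS : ∀ p ∈ S, p.Prime) {γ : ℝ} (hγ : 0 ≤ γ) (a : ℕ) :
    ∑ p ∈ S, (if a = e56 S p ^ 2 then γ * e56 S p else 0) ≤ γ * Real.sqrt a := by
  refine one56 (v := fun p => γ * e56 S p) (by positivity) (fun p hp r hr h1 h2 => e_inj56 hS hp hr ?_)
    (fun p hp h => ?_)
  · exact Nat.pow_left_injective (by norm_num : (2 : ℕ) ≠ 0) (h1.symm.trans h2)
  · rw [h, sqrt_sq56]

open Classical in
theorem P_nonneg56 {S : Finset ℕ} {γ : ℝ} (hγ : 0 ≤ γ) (a : ℕ) :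
    0 ≤ ∑ p ∈ S, (if a = e56 S p ^ 2 then γ * e56 S p else 0) :=
  Finset.sum_nonneg fun p _ => by split_ifs <;> positivity

open Classical in
theorem R_nonneg56 {S : Finset ℕ} {γ : ℝ} (hγ : 0 ≤ γ) (a : ℕ) :
    0 ≤ ∑ p ∈ S, (if ∃ b, a = b ^ 2 ∧ e56 S p ∣ b then γ * e56 S p else 0) :=
  Finset.sum_nonneg fun p _ => by split_ifs <;> positivity

open Classical in
theorem R_le56 {S : Finset ℕ} (hS : ∀ p ∈ S, p.Prime) {γ : ℝ} (hγ : 0 ≤ γ) {a : ℕ} (ha : 1 ≤ a)
    (hq : ¬ ∃ b, a = b ^ 2 ∧ (∏ r ∈ S, r) ∣ b) :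
    ∑ p ∈ S, (if ∃ b, a = b ^ 2 ∧ e56 S p ∣ b then γ * e56 S p else 0) ≤ γ * Real.sqrt a := by
  refine one56 (v := fun p => γ * e56 S p) (by positivity) (fun p hp r hr h1 h2 => ?_) (fun p hp h => ?_)
  · obtain ⟨b, hb, h1⟩ := h1
    obtain ⟨b', hb', h2⟩ := h2
    have h3 : b = b' := Nat.pow_left_injective (by norm_num : (2 : ℕ) ≠ 0) (hb.symm.trans hb')
    subst h3
    by_contra hpr
    exact hq ⟨b, hb, e_two56 hS hp hpr h1 h2⟩
  · obtain ⟨b, hb, h1⟩ := h
    have hb0 : 0 < b := by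
      rcases Nat.eq_zero_or_pos b with h0 | h0
      · subst h0
        simp at hb
        omega
      · exact h0
    rw [hb, sqrt_sq56]
    refine mul_le_mul_of_nonneg_left ?_ hγ
    exact_mod_cast Nat.le_of_dvd hb0 h1

open Classical in
theorem R_eq56 {S : Finset ℕ} (hS : ∀ p ∈ S, p.Prime) {γ : ℝ} {a : ℕ}
    (hq : ∃ b, a = b ^ 2 ∧ (∏ r ∈ S, r) ∣ b) :
    ∑ p ∈ S, (if ∃ b, a = b ^ 2 ∧ e56 S p ∣ b then γ * e56 S p else 0) =
      γ * (∑ p ∈ S, 1 / (p : ℝ)) * (∏ r ∈ S, r : ℕ) := by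
  rw [Finset.mul_sum, Finset.sum_mul]
  refine Finset.sum_congr rfl fun p hp => ?_
  obtain ⟨b, hb, h1⟩ := hq
  rw [if_pos ⟨b, hb, (Dvd.intro_left p (e_mul56 hp)).trans h1⟩, ← e_mul56 hp]
  have hp0 : (p : ℝ) ≠ 0 := by exact_mod_cast (hS p hp).ne_zero
  push_cast
  field_simp

theorem setup56 {ε : ℝ} (hε : 0 < ε) : ∃ (S : Finset ℕ) (γ : ℝ), (∀ p ∈ S, p.Prime) ∧ 0 ≤ γ ∧ γ ≤ ε / 2 ∧
    γ * (∑ p ∈ S, 1 / (p : ℝ)) = 1 := by
  obtain ⟨S, hS, hB⟩ := exists_S56 (2 / ε)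
  have h1 : 0 < ∑ p ∈ S, 1 / (p : ℝ) := lt_of_lt_of_le (by positivity) hB
  refine ⟨S, 1 / ∑ p ∈ S, 1 / (p : ℝ), hS, by positivity, ?_, ?_⟩
  · rw [div_le_iff₀ h1]
    rw [div_le_iff₀ hε] at hB
    linarith
  · field_simp

theorem alg_M (g : ℕ → ℝ) (hg1 : g 1 = 1) (hg : ∀ m n : ℕ, 1 ≤ m → 1 ≤ n → g (m * n) = g m * g n)
    (hs : ∀ n : ℕ, 1 ≤ n → g n = 1 ∨ g n = -1) {ε : ℝ} (hε : 0 < ε) :
    ∃ (K : ℕ → ℝ) (N Q : ℕ), 1 ≤ Q ∧ Q ≤ N ∧ (∀ k, K k ≠ 0 → 1 ≤ k ∧ k ≤ N) ∧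
      (1 - ε) * Real.sqrt Q ≤ cv K (fun n => if Squarefree n then g n else 0) Q ∧
      (∀ a : ℕ, 1 ≤ a → -(ε * Real.sqrt a) ≤ cv K (fun n => if Squarefree n then g n else 0) a) ∧
      (∀ a : ℕ, 1 ≤ a → |cv K g a| ≤ ε * Real.sqrt a) := by
  classical
  obtain ⟨S, γ, hS, hγ, hγε, hγβ⟩ := setup56 hε
  set q : ℕ := ∏ r ∈ S, r with hq
  have hq1 : 1 ≤ q := Finset.prod_pos fun r hr => (hS r hr).pos
  have h0S : (0 : ℕ) ∉ S := fun h => (hS 0 h).ne_zero rfl
  have hne : ∀ p ∈ S, p ≠ 0 := fun p hp => (hS p hp).ne_zero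
  obtain ⟨K, N, hN, hK, h1, h2⟩ := main56 g hg hg1 hs (insert 0 S) (fun i => if i = 0 then q else e56 S i)
    (fun i => if i = 0 then (q : ℝ) else -(γ * e56 S i)) hq1 (fun i hi => by
      rcases Finset.mem_insert.1 hi with h | h
      · rw [if_pos h]
        exact ⟨hq1, le_rfl⟩
      · rw [if_neg (hne i h)]
        exact ⟨e_pos56 hS i, e_le56 hS h⟩) (half_pos hε)
  have e1 : ∀ a : ℕ, ∑ i ∈ insert 0 S, (if a = (if i = 0 then q else e56 S i) ^ 2 then
      (if i = 0 then (q : ℝ) else -(γ * e56 S i)) else 0) =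
      (if a = q ^ 2 then (q : ℝ) else 0) - ∑ p ∈ S, (if a = e56 S p ^ 2 then γ * e56 S p else 0) := by
    intro a
    rw [Finset.sum_insert h0S, if_pos rfl, if_pos rfl, sub_eq_add_neg, ← Finset.sum_neg_distrib]
    congr 1
    refine Finset.sum_congr rfl fun p hp => ?_
    rw [if_neg (hne p hp), if_neg (hne p hp)]
    split_ifs <;> simp
  have e2 : ∀ a : ℕ, ∑ i ∈ insert 0 S, (if ∃ b, a = b ^ 2 ∧ (if i = 0 then q else e56 S i) ∣ b then
      (if i = 0 then (q : ℝ) else -(γ * e56 S i)) else 0) =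
      (if ∃ b, a = b ^ 2 ∧ q ∣ b then (q : ℝ) else 0) -
        ∑ p ∈ S, (if ∃ b, a = b ^ 2 ∧ e56 S p ∣ b then γ * e56 S p else 0) := by
    intro a
    rw [Finset.sum_insert h0S, if_pos rfl, if_pos rfl, sub_eq_add_neg, ← Finset.sum_neg_distrib]
    congr 1
    refine Finset.sum_congr rfl fun p hp => ?_
    rw [if_neg (hne p hp), if_neg (hne p hp)]
    split_ifs <;> simp
  refine ⟨K, N, q ^ 2, Nat.one_le_pow _ _ hq1, hN, hK, ?_, fun a ha => ?_, fun a ha => ?_⟩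
  · have h3 := abs_le.1 (h1 (q ^ 2) (Nat.one_le_pow _ _ hq1))
    rw [e1, if_pos rfl] at h3
    have h4 := P_le56 hS hγ (q ^ 2)
    rw [sqrt_sq56] at h3 h4 ⊢
    have h5 : γ * (q : ℝ) ≤ ε / 2 * q := mul_le_mul_of_nonneg_right hγε (Nat.cast_nonneg q)
    nlinarith [h3.1]
  · have h3 := abs_le.1 (h1 a ha)
    rw [e1] at h3
    have h4 := P_le56 hS hγ a
    have h5 : γ * Real.sqrt a ≤ ε / 2 * Real.sqrt a := mul_le_mul_of_nonneg_right hγε (Real.sqrt_nonneg _)
    have h6 : (0 : ℝ) ≤ if a = q ^ 2 then (q : ℝ) else 0 := by split_ifs <;> positivity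
    nlinarith [h3.1]
  · have h3 := abs_le.1 (h2 a ha)
    rw [e2] at h3
    have h5 : γ * Real.sqrt a ≤ ε / 2 * Real.sqrt a := mul_le_mul_of_nonneg_right hγε (Real.sqrt_nonneg _)
    by_cases h6 : ∃ b, a = b ^ 2 ∧ q ∣ b
    · rw [if_pos h6, R_eq56 hS h6, hγβ, one_mul, sub_self] at h3
      have h7 : 0 ≤ ε / 2 * Real.sqrt a := by positivity
      rw [abs_le]
      constructor <;> nlinarith [h3.1, h3.2]
    · rw [if_neg h6] at h3
      have h7 := R_le56 hS hγ ha h6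
      have h8 := R_nonneg56 (S := S) hγ a
      rw [abs_le]
      constructor <;> nlinarith [h3.1, h3.2]

theorem alg_L (g : ℕ → ℝ) (hg1 : g 1 = 1) (hg : ∀ m n : ℕ, 1 ≤ m → 1 ≤ n → g (m * n) = g m * g n)
    (hs : ∀ n : ℕ, 1 ≤ n → g n = 1 ∨ g n = -1) {ε : ℝ} (hε : 0 < ε) :
    ∃ (K : ℕ → ℝ) (N Q : ℕ), 1 ≤ Q ∧ Q ≤ N ∧ (∀ k, K k ≠ 0 → 1 ≤ k ∧ k ≤ N) ∧
      (1 - ε) * Real.sqrt Q ≤ cv K g Q ∧
      (∀ a : ℕ, 1 ≤ a → -(ε * Real.sqrt a) ≤ cv K g a) ∧
      (∀ a : ℕ, 1 ≤ a → |cv K (fun n => if Squarefree n then g n else 0) a| ≤ ε * Real.sqrt a) := by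
  classical
  obtain ⟨S, γ, hS, hγ, hγε, hγβ⟩ := setup56 hε
  set q : ℕ := ∏ r ∈ S, r with hq
  have hq1 : 1 ≤ q := Finset.prod_pos fun r hr => (hS r hr).pos
  obtain ⟨K, N, hN, hK, h1, h2⟩ := main56 g hg hg1 hs S (e56 S) (fun i => γ * e56 S i) hq1
    (fun i hi => ⟨e_pos56 hS i, e_le56 hS hi⟩) (half_pos hε)
  refine ⟨K, N, q ^ 2, Nat.one_le_pow _ _ hq1, hN, hK, ?_, fun a ha => ?_, fun a ha => ?_⟩
  · have h3 := abs_le.1 (h2 (q ^ 2) (Nat.one_le_pow _ _ hq1))
    rw [R_eq56 hS ⟨q, rfl, dvd_rfl⟩, hγβ, one_mul] at h3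
    rw [sqrt_sq56] at h3 ⊢
    have h5 : (0 : ℝ) ≤ q := Nat.cast_nonneg q
    nlinarith [h3.1]
  · have h3 := abs_le.1 (h2 a ha)
    have h4 := R_nonneg56 (S := S) hγ a
    have h7 : 0 ≤ ε / 2 * Real.sqrt a := by positivity
    linarith [h3.1]
  · have h3 := abs_le.1 (h1 a ha)
    have h4 := P_le56 hS hγ a
    have h8 := P_nonneg56 (S := S) hγ a
    have h5 : γ * Real.sqrt a ≤ ε / 2 * Real.sqrt a := mul_le_mul_of_nonneg_right hγε (Real.sqrt_nonneg _)
    have h7 : 0 ≤ ε / 2 * Real.sqrt a := by positivity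
    rw [abs_le]
    constructor <;> linarith [h3.1, h3.2]

end Pool.Agent.Helper96.QC
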