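import Pool.Agent.Helper96.QC.Core
import Pool.Agent.Helper96.QC.Alg
import Pool.Agent.Helper66.JC.SumOp
import Pool.Agent.Helper66.JC.FlipG

/-!
Project JC / QC (MP_a499ba_nt), block QC-8: the preliminary stage.
-/

set_option autoImplicit false

namespace Pool.Agent.Helper96.QC

open Finset Filter Pool.Agent.Helper66.MB Pool.Agent.Helper66.JC

/-- From windows with many primes to all windows. -/
theorem Dn_of_Ric (f : ℕ → ℤ) (hR : Ric f) : Dn f := by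
  intro θ hθ e he
  obtain ⟨Y₀, hY₀⟩ := hR (θ / 2) (by positivity) e he
  refine ⟨max (max Y₀ 2) (Real.exp ((2 + θ) / θ)), fun Y hY => ?_⟩
  have h1 : Y₀ ≤ Y := (le_max_left _ _).trans ((le_max_left _ _).trans hY)
  have h2 : 2 ≤ Y := (le_max_right _ _).trans ((le_max_left _ _).trans hY)
  have h3 : Real.exp ((2 + θ) / θ) ≤ Y := (le_max_right _ _).trans hY
  obtain ⟨Z, z1, z2, z3⟩ := hY₀ Y h1
  have hZ0 : (0 : ℝ) < Z := by linarith
  refine ⟨_, (Real.rpow_le_rpow (by linarith) z1 (by norm_num)).trans z3, fun p hp => ?_⟩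
  rw [mem_filter, mem_Ioc] at hp
  obtain ⟨⟨p1, p2⟩, p3, p4⟩ := hp
  have hL : (2 + θ) / θ ≤ Real.log Z := by
    rw [Real.le_log_iff_exp_le hZ0]
    exact h3.trans z1
  have hL0 : 0 < (2 + θ) / θ := by positivity
  have hLp : 0 < Real.log Z := hL0.trans_le hL
  refine ⟨p3, p4, z1.trans (by exact_mod_cast p1.le), ?_⟩
  have p5 : (p : ℝ) ≤ Z + Z / Real.log Z := by
    have h4 : ((⌊(Z : ℝ) / Real.log Z⌋₊ : ℕ) : ℝ) ≤ Z / Real.log Z := Nat.floor_le (by positivity)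
    have h5 : (p : ℝ) ≤ ((Z + ⌊(Z : ℝ) / Real.log Z⌋₊ : ℕ) : ℝ) := by exact_mod_cast p2
    push_cast at h5
    linarith
  have h6 : (Z : ℝ) / Real.log Z ≤ Z * (θ / (2 + θ)) := by
    rw [div_le_iff₀ hLp]
    have h7 : 1 ≤ θ / (2 + θ) * Real.log Z := by
      have := mul_le_mul_of_nonneg_left hL (by positivity : 0 ≤ θ / (2 + θ))
      rwa [div_mul_div_comm, mul_comm θ, div_self (by positivity)] at this
    nlinarith
  have h8 : (Z : ℝ) + Z * (θ / (2 + θ)) = Z * ((2 + 2 * θ) / (2 + θ)) := by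
    field_simp
    ring
  calc (p : ℝ) ≤ Z * ((2 + 2 * θ) / (2 + θ)) := by linarith
    _ ≤ (1 + θ / 2) * Y * ((2 + 2 * θ) / (2 + θ)) := mul_le_mul_of_nonneg_right z2 (by positivity)
    _ = Y * (1 + θ) := by
      field_simp

theorem ext_eq (f : ℕ → ℤ) (n : ℕ) :
    ((Helper92.GB.ext f n : ℤ) : ℝ) = if Squarefree n then ((Helper66.GL.cm f n : ℤ) : ℝ) else 0 := by
  by_cases h : Squarefree n
  · rw [if_pos h, Helper66.GL.cm_squarefree f h]
  · rw [if_neg h]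
    unfold Helper92.GB.ext
    rw [if_neg h]
    simp

theorem clg {F : ℕ → ℝ} (h0 : F 0 = 0) (h : ClG F) : ∃ C : ℝ, 0 ≤ C ∧ (∀ x : ℕ, |F x| ≤ C * Real.sqrt x) ∧
    ∀ τ : ℝ, 0 < τ → ∃ m₀ : ℕ, ∀ m : ℕ, m₀ ≤ m → |F m| ≤ τ * Real.sqrt m := by
  obtain ⟨C, hC⟩ := h
  have hC' : ∀ x : ℕ, 1 ≤ x → |F x| ≤ |C| * Real.sqrt x * rho x := by
    intro x hx
    have h1 : 0 < rho x := rho_pos (by exact_mod_cast hx)
    refine (hC x hx).trans ?_
    exact mul_le_mul_of_nonneg_right (mul_le_mul_of_nonneg_right (le_abs_self C) (Real.sqrt_nonneg _)) h1.le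
  refine ⟨|C|, abs_nonneg C, fun x => ?_, fun τ hτ => ?_⟩
  · rcases Nat.eq_zero_or_pos x with hx | hx
    · subst hx
      rw [h0]
      simp
    · have h1 : rho x ≤ 1 := rho_le_one (by exact_mod_cast hx)
      refine (hC' x hx).trans ?_
      have h2 : 0 ≤ |C| * Real.sqrt x := by positivity
      nlinarith
  · have h1 : Tendsto (fun x : ℝ => |C| * rho x) atTop (nhds (|C| * 0)) := rho_tendsto.const_mul |C|
    rw [mul_zero] at h1
    have h2 := h1.comp tendsto_natCast_atTop_atTop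
    obtain ⟨m₁, hm₁⟩ := eventually_atTop.1 (h2.eventually (gt_mem_nhds hτ))
    refine ⟨max m₁ 1, fun m hm => ?_⟩
    have h3 := hm₁ m ((le_max_left _ _).trans hm)
    simp only [Function.comp_apply] at h3
    calc |F m| ≤ |C| * Real.sqrt m * rho m := hC' m ((le_max_right _ _).trans hm)
      _ = |C| * rho m * Real.sqrt m := by ring
      _ ≤ τ * Real.sqrt m := mul_le_mul_of_nonneg_right h3.le (Real.sqrt_nonneg _)

theorem fam_of (f : ℕ → ℤ) (hf : ∀ n, f n = 1 ∨ f n = -1) (hM : ClG (Mf f)) (hL : ClG (Helper66.GL.Lf f)) :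
    ∃ (μ : ℝ) (T : ℝ → ℕ), 0 ≤ μ ∧ Fam μ T (Mf f) (fun n => ((Helper92.GB.ext f n : ℤ) : ℝ)) ∧
      Fam μ T (Helper66.GL.Lf f) (fun n => ((Helper66.GL.cm f n : ℤ) : ℝ)) := by
  obtain ⟨C₁, c1, c2, c3⟩ := clg (sumOp_M.zero f) hM
  obtain ⟨C₂, d1, d2, d3⟩ := clg (sumOp_L.zero f) hL
  choose! T₁ hT₁ using c3
  choose! T₂ hT₂ using d3
  refine ⟨max C₁ C₂, fun τ => max (T₁ τ) (T₂ τ), c1.trans (le_max_left _ _), ?_, ?_⟩
  · refine ⟨fun x => rfl, ext_one_le f hf, fun x => (c2 x).trans ?_, fun τ hτ m hm => ?_⟩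
    · exact mul_le_mul_of_nonneg_right (le_max_left _ _) (Real.sqrt_nonneg _)
    · exact hT₁ τ hτ m ((le_max_left _ _).trans hm)
  · refine ⟨fun x => rfl, fun n => ?_, fun x => (d2 x).trans ?_, fun τ hτ m hm => ?_⟩
    · rcases Helper66.GL.cm_sign f hf n with h | h <;> simp [h]
    · exact mul_le_mul_of_nonneg_right (le_max_right _ _) (Real.sqrt_nonneg _)
    · exact hT₂ τ hτ m ((le_max_right _ _).trans hm)

/-- The maximum is attained. -/
theorem max_att {F : ℕ → ℝ} (h0 : F 0 = 0) (h : ClG F) (s : ℝ) (hs : s = 1 ∨ s = -1) {μ₁ : ℝ} (hμ : 0 < μ₁)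
    {x₀ : ℕ} (hx₀ : 1 ≤ x₀) (hx : μ₁ * Real.sqrt x₀ ≤ s * F x₀) :
    ∃ (n : ℕ) (μ : ℝ), 1 ≤ n ∧ μ₁ ≤ μ ∧ s * F n = μ * Real.sqrt n ∧ ∀ x : ℕ, s * F x ≤ μ * Real.sqrt x := by
  classical
  obtain ⟨C, -, -, hC⟩ := clg h0 h
  obtain ⟨m₀, hm₀⟩ := hC μ₁ hμ
  have hsa : ∀ x, s * F x ≤ |F x| := by
    intro x
    rcases hs with h | h
    · rw [h, one_mul]
      exact le_abs_self _
    · rw [h, neg_one_mul]
      exact neg_le_abs _
  set S := Icc 1 (max m₀ x₀) with hS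
  have hx₀S : x₀ ∈ S := mem_Icc.2 ⟨hx₀, le_max_right _ _⟩
  obtain ⟨n, hn, hmax⟩ := exists_max_image S (fun x => s * F x / Real.sqrt x) ⟨x₀, hx₀S⟩
  have hn1 := (mem_Icc.1 hn).1
  have hpos : ∀ x : ℕ, 1 ≤ x → 0 < Real.sqrt x := fun x hx => Real.sqrt_pos.2 (by exact_mod_cast hx)
  have h1 : μ₁ ≤ s * F n / Real.sqrt n := by
    refine le_trans ?_ (hmax x₀ hx₀S)
    rw [le_div_iff₀ (hpos x₀ hx₀)]
    exact hx
  refine ⟨n, s * F n / Real.sqrt n, hn1, h1, ?_, fun x => ?_⟩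
  · rw [div_mul_cancel₀ _ (hpos n hn1).ne']
  · rcases Nat.eq_zero_or_pos x with hx0 | hx0
    · subst hx0
      rw [h0]
      simp
    · by_cases hxS : x ∈ S
      · have h2 := hmax x hxS
        rwa [div_le_iff₀ (hpos x hx0)] at h2
      · have h3 : m₀ ≤ x := by
          have h4 : ¬ x ≤ max m₀ x₀ := fun h => hxS (mem_Icc.2 ⟨hx0, h⟩)
          have := le_max_left m₀ x₀
          omega
        refine (hsa x).trans ((hm₀ x h3).trans ?_)
        exact mul_le_mul_of_nonneg_right h1 (Real.sqrt_nonneg _)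

/-- The patterns for the four kinds. -/
theorem pattern (f : ℕ → ℤ) (hf : ∀ n, f n = 1 ∨ f n = -1) (k : Fin 4) {ε : ℝ} (hε : 0 < ε) :
    ∃ (K : ℕ → ℝ) (N Q : ℕ) (hA hP : ℕ → ℝ), 1 ≤ Q ∧ Q ≤ N ∧ (∀ k, K k ≠ 0 → 1 ≤ k ∧ k ≤ N) ∧
      ((hA = (fun n => ((Helper92.GB.ext f n : ℤ) : ℝ)) ∧ hP = (fun n => ((Helper66.GL.cm f n : ℤ) : ℝ)) ∧
        act k = Mf ∧ pas k = Helper66.GL.Lf) ∨
       (hP = (fun n => ((Helper92.GB.ext f n : ℤ) : ℝ)) ∧ hA = (fun n => ((Helper66.GL.cm f n : ℤ) : ℝ)) ∧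
        pas k = Mf ∧ act k = Helper66.GL.Lf)) ∧
      (1 - ε) * Real.sqrt Q ≤ Helper66.JC.sg k * cv K hA Q ∧
      (∀ a : ℕ, 1 ≤ a → -(ε * Real.sqrt a) ≤ Helper66.JC.sg k * cv K hA a) ∧
      (∀ a : ℕ, 1 ≤ a → |cv K hP a| ≤ ε * Real.sqrt a) := by
  have hg1 : (fun n => ((Helper66.GL.cm f n : ℤ) : ℝ)) 1 = 1 := by simp [Helper66.GL.cm_one]
  have hgm : ∀ m n : ℕ, 1 ≤ m → 1 ≤ n → (fun n => ((Helper66.GL.cm f n : ℤ) : ℝ)) (m * n) =
      (fun n => ((Helper66.GL.cm f n : ℤ) : ℝ)) m * (fun n => ((Helper66.GL.cm f n : ℤ) : ℝ)) n := by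
    intro m n hm hn
    simp only
    rw [Helper66.GL.cm_mul f (by omega) (by omega)]
    push_cast
    rfl
  have hgs : ∀ n : ℕ, 1 ≤ n → (fun n => ((Helper66.GL.cm f n : ℤ) : ℝ)) n = 1 ∨
      (fun n => ((Helper66.GL.cm f n : ℤ) : ℝ)) n = -1 := by
    intro n _
    rcases Helper66.GL.cm_sign f hf n with h | h
    · left
      simp [h]
    · right
      simp [h]
  have hext : (fun n => if Squarefree n then (fun n => ((Helper66.GL.cm f n : ℤ) : ℝ)) n else 0) =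
      (fun n => ((Helper92.GB.ext f n : ℤ) : ℝ)) := by
    funext n
    exact (ext_eq f n).symm
  have hsg : Helper66.JC.sg k = 1 ∨ Helper66.JC.sg k = -1 := by
    unfold Helper66.JC.sg
    split_ifs
    · exact Or.inl rfl
    · exact Or.inr rfl
  have hsK : ∀ (K hh : ℕ → ℝ) (a : ℕ), Helper66.JC.sg k * cv (fun i => Helper66.JC.sg k * K i) hh a = cv K hh a := by
    intro K hh a
    unfold cv
    rw [Finset.mul_sum]
    refine Finset.sum_congr rfl fun i _ => ?_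
    rcases hsg with h | h <;> rw [h] <;> ring
  have hsK' : ∀ (K hh : ℕ → ℝ) (a : ℕ), |cv (fun i => Helper66.JC.sg k * K i) hh a| = |cv K hh a| := by
    intro K hh a
    rw [← hsK K hh a, abs_mul]
    rcases hsg with h | h <;> rw [h] <;> simp
  have hsK0 : ∀ (K : ℕ → ℝ) (i : ℕ), Helper66.JC.sg k * K i ≠ 0 → K i ≠ 0 := by
    intro K i h h'
    exact h (by rw [h', mul_zero])
  by_cases hk : (k : ℕ) < 2
  · obtain ⟨K, N, Q, a1, a2, a3, a4, a5, a6⟩ := alg_M (fun n => ((Helper66.GL.cm f n : ℤ) : ℝ)) hg1 hgm hgs hε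
    rw [hext] at a4 a5
    refine ⟨fun i => Helper66.JC.sg k * K i, N, Q, _, _, a1, a2, fun i hi => a3 i (hsK0 K i hi),
      Or.inl ⟨rfl, rfl, ?_, ?_⟩, ?_, fun a ha => ?_, fun a ha => ?_⟩
    · unfold act
      rw [if_pos hk]
    · unfold pas
      rw [if_pos hk]
    · rw [hsK]
      exact a4
    · rw [hsK]
      exact a5 a ha
    · rw [hsK']
      exact a6 a ha
  · obtain ⟨K, N, Q, a1, a2, a3, a4, a5, a6⟩ := alg_L (fun n => ((Helper66.GL.cm f n : ℤ) : ℝ)) hg1 hgm hgs hε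
    rw [hext] at a6
    refine ⟨fun i => Helper66.JC.sg k * K i, N, Q, _, _, a1, a2, fun i hi => a3 i (hsK0 K i hi),
      Or.inr ⟨rfl, rfl, ?_, ?_⟩, ?_, fun a ha => ?_, fun a ha => ?_⟩
    · unfold pas
      rw [if_neg hk]
    · unfold act
      rw [if_neg hk]
    · rw [hsK]
      exact a4
    · rw [hsK]
      exact a5 a ha
    · rw [hsK']
      exact a6 a ha

private theorem sg_cases (k : Fin 4) : Helper66.JC.sg k = 1 ∨ Helper66.JC.sg k = -1 := by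
  unfold Helper66.JC.sg
  split_ifs
  · exact Or.inl rfl
  · exact Or.inr rfl

private theorem abs_le_add {a b c d : ℝ} (h : |a - (b + c)| ≤ d) : a ≤ b + c + d ∧ b + c - d ≤ a := by
  rw [abs_le] at h
  constructor <;> linarith [h.1, h.2]

private theorem sqrt_Z {Z : ℕ} (hZ : 32 ≤ Z) : Real.sqrt Z ≤ 2 * Real.sqrt ((Z / 2 : ℕ) : ℝ) := by
  have e2 : 2 * Real.sqrt ((Z / 2 : ℕ) : ℝ) = Real.sqrt (2 ^ 2 * ((Z / 2 : ℕ) : ℝ)) := by
    rw [Real.sqrt_mul (by norm_num : (0 : ℝ) ≤ 2 ^ 2), Real.sqrt_sq (by norm_num)]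
  rw [e2]
  refine Real.sqrt_le_sqrt ?_
  have : Z ≤ 4 * (Z / 2) := by omega
  have h' : (Z : ℝ) ≤ 4 * ((Z / 2 : ℕ) : ℝ) := by exact_mod_cast this
  linarith

theorem pre_small (f : ℕ → ℤ) (hf : ∀ n, f n = 1 ∨ f n = -1) (hM : ClG (Mf f)) (hL : ClG (Helper66.GL.Lf f))
    (hR : Ric f) (k : Fin 4) (ε : ℝ) (hε : 0 < ε) (hε1 : ε ≤ 1) : ∃ T₀ : ℝ, ∀ X₀ : ℕ,
      ∃ (X : ℕ) (R : Finset ℕ) (μ : ℝ) (n : ℕ), X₀ ≤ X ∧ (∀ p ∈ R, p.Prime ∧ X < p) ∧
      (∀ y : ℕ, ((R.filter (fun p => p ≤ y)).card : ℝ) ≤ Real.sqrt y * Real.log y) ∧ μ ≤ T₀ ∧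
      Peak (act k (flipS f R)) (pas k (flipS f R)) (Helper66.JC.sg k) ε μ n := by
  classical
  obtain ⟨μ, T, hμ, FM, FL⟩ := fam_of f hf hM hL
  obtain ⟨K, N, Q, hA, hP, hQ, hQN, hK, hcase, hlow, hge, hle⟩ := pattern f hf k (show 0 < ε / 8 by positivity)
  obtain ⟨S1, S2, F1, F2, C1, C2⟩ : SumOp (act k) ∧ SumOp (pas k) ∧ Fam μ T (act k f) hA ∧ Fam μ T (pas k f) hP ∧
      ClG (act k f) ∧ ClG (pas k f) := by
    rcases hcase with ⟨h1, h2, h3, h4⟩ | ⟨h1, h2, h3, h4⟩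
    · rw [h1, h2, h3, h4]
      exact ⟨sumOp_M, sumOp_L, FM, FL, hM, hL⟩
    · rw [h1, h2, h3, h4]
      exact ⟨sumOp_L, sumOp_M, FL, FM, hL, hM⟩
  set t : ℝ := 8 * (μ + 1) / ε with ht
  have ht0 : 0 ≤ t := by positivity
  have hN : 1 ≤ N := hQ.trans hQN
  obtain ⟨h, θ, J, A₀, Z₁, h0, h18, hθ, hJ, hQA, hA8, hcore⟩ := core K N hN hK ht0 μ hμ T (show (0 : ℝ) < 1 / 3 by norm_num) Q
  obtain ⟨Z₂, hZ₂⟩ := clus f (Dn_of_Ric f hR) K N ht0 h0 h18 hθ hJ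
  have hν := nrm_nonneg K N
  set a : ℝ := t * nrm K N with ha
  have ha0 : 0 ≤ a := mul_nonneg ht0 hν
  obtain ⟨Z₃, hZ₃⟩ := exists_nat_ge ((36 * μ * a * Real.exp (10 * a)) ^ 2)
  obtain ⟨Z₄, hZ₄⟩ := exists_nat_ge (Real.exp (2 * a))
  refine ⟨μ * Real.exp (6 * a), fun X₀ => ?_⟩
  set Z : ℕ := Z₁ + Z₂ + Z₃ + 3 * Z₄ + 2 * X₀ + 32 with hZ
  obtain ⟨hnum, hcore⟩ := hcore Z (by omega)
  obtain ⟨A, B, hCL, hprime⟩ := hZ₂ Z (by omega)
  set R := RR N J A B with hRd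
  set u : ℕ → ℝ := fun p => -2 * (f p : ℝ) with hu
  have hZ0 : (0 : ℝ) < Z := hnum.Zp
  have hX16 : 16 ≤ Z / 2 := by omega
  have hZ32 : 32 ≤ Z := by omega
  have hsZ := sqrt_Z hZ32
  have hsX0 : 0 < Real.sqrt ((Z / 2 : ℕ) : ℝ) := Real.sqrt_pos.2 (by exact_mod_cast (by omega : 0 < Z / 2))
  have hsZ0 : 0 < Real.sqrt Z := Real.sqrt_pos.2 hZ0
  have hcard : (R.card : ℝ) ≤ a * Real.sqrt Z := card_RR hCL ht0 hJ
  have hRX : ∀ p ∈ R, p.Prime ∧ Z / 2 < p := by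
    intro p hp
    refine ⟨hprime p hp, ?_⟩
    have h1 := hnum.low hCL hp
    have h2 : ((Z / 2 : ℕ) : ℝ) ≤ Z / 2 := Nat.cast_div_le
    have h3 : ((Z / 2 : ℕ) : ℝ) < p := by linarith
    exact_mod_cast h3
  have hratio : (R.card : ℝ) / Real.sqrt ((Z / 2 : ℕ) : ℝ) ≤ 2 * a := by
    rw [div_le_iff₀ hsX0]
    calc (R.card : ℝ) ≤ a * Real.sqrt Z := hcard
      _ ≤ a * (2 * Real.sqrt ((Z / 2 : ℕ) : ℝ)) := mul_le_mul_of_nonneg_left hsZ ha0
      _ = _ := by ring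
  -- the error of the first step
  have herr : μ * (2 * R.card / ((Z / 2 : ℕ) : ℝ)) * Real.exp (5 * R.card / Real.sqrt ((Z / 2 : ℕ) : ℝ)) ≤ 1 / 3 := by
    have h1 : Real.exp (5 * R.card / Real.sqrt ((Z / 2 : ℕ) : ℝ)) ≤ Real.exp (10 * a) := by
      refine Real.exp_le_exp.2 ?_
      rw [mul_div_assoc]
      linarith
    have h2 : 36 * μ * a * Real.exp (10 * a) ≤ Real.sqrt Z := by
      refine Real.le_sqrt_of_sq_le (hZ₃.trans ?_)
      exact_mod_cast (by omega : Z₃ ≤ Z)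
    have h3 : 2 * (R.card : ℝ) / ((Z / 2 : ℕ) : ℝ) ≤ 8 * a / Real.sqrt Z := by
      have h4 : (0 : ℝ) < ((Z / 2 : ℕ) : ℝ) := by exact_mod_cast (by omega : 0 < Z / 2)
      have h5 : (Z : ℝ) ≤ 4 * ((Z / 2 : ℕ) : ℝ) := by exact_mod_cast (by omega : Z ≤ 4 * (Z / 2))
      rw [div_le_div_iff₀ h4 hsZ0]
      have h6 : Real.sqrt Z * Real.sqrt Z = Z := Real.mul_self_sqrt hZ0.le
      calc 2 * (R.card : ℝ) * Real.sqrt Z ≤ 2 * (a * Real.sqrt Z) * Real.sqrt Z :=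
            mul_le_mul_of_nonneg_right (by linarith) hsZ0.le
        _ = 2 * a * (Real.sqrt Z * Real.sqrt Z) := by ring
        _ = 2 * a * Z := by rw [h6]
        _ ≤ 2 * a * (4 * ((Z / 2 : ℕ) : ℝ)) := mul_le_mul_of_nonneg_left h5 (by positivity)
        _ = _ := by ring
    have h7 : μ * (2 * R.card / ((Z / 2 : ℕ) : ℝ)) ≤ μ * (8 * a / Real.sqrt Z) := mul_le_mul_of_nonneg_left h3 hμ
    refine (mul_le_mul h7 h1 (Real.exp_pos _).le (by positivity)).trans ?_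
    rw [show μ * (8 * a / Real.sqrt Z) * Real.exp (10 * a) = 8 * (μ * a * Real.exp (10 * a)) / Real.sqrt Z by ring,
      div_le_iff₀ hsZ0]
    have h8 : 0 ≤ μ * a * Real.exp (10 * a) := by positivity
    nlinarith
  -- the approximation of both functions
  have happ : ∀ (Φ : (ℕ → ℤ) → ℕ → ℝ) (hφ : ℕ → ℝ), SumOp Φ → Fam μ T (Φ f) hφ → ∀ x : ℕ,
      |Φ (flipS f R) x - (Φ f x + mE K hφ t h J Z A₀ x)| ≤ 1 * Real.sqrt x := by
    intro Φ hφ hS hF x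
    have g1 := flip_mainG hS f hf R (Z / 2) hX16 hRX μ hF.nm x
    have g2 := (hcore u A B hCL (Φ f) hφ hF).1 x (Nat.cast_nonneg x)
    have g3 := (hcore u A B hCL (Φ f) hφ hF).2 x
    have g4 : mainG (Φ f) (fun p => -2 * (f p : ℝ)) R x = mn u (Φ f) R x := rfl
    rw [g4] at g1
    have g5 := g1.trans (mul_le_mul_of_nonneg_right herr (Real.sqrt_nonneg _))
    have e1 : Φ (flipS f R) x - (Φ f x + mE K hφ t h J Z A₀ x) = (Φ (flipS f R) x - mn u (Φ f) R x) +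
        (mn u (Φ f) R x - Φ f x - E1 u (Φ f) R x) + (E1 u (Φ f) R x - mE K hφ t h J Z A₀ x) := by ring
    rw [e1]
    refine (abs_add_le _ _).trans ((add_le_add (abs_add_le _ _) le_rfl).trans ?_)
    linarith
  have hap1 := happ (act k) hA S1 F1
  have hap2 := happ (pas k) hP S2 F2
  set s : ℝ := Helper66.JC.sg k with hs
  have hsc : s = 1 ∨ s = -1 := sg_cases k
  have hε8 : 0 ≤ ε / 8 := by positivity
  have htε : 2 * t * (ε / 8) = 2 * (μ + 1) := by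
    rw [ht]
    field_simp
  -- lower bound for the active function
  have hmin : ∀ x : ℕ, -(3 * (μ + 1) * Real.sqrt x) ≤ s * act k (flipS f R) x := by
    intro x
    have g1 := abs_le.1 (F1.nm x)
    have g2 := abs_le_add (hap1 x)
    have g3 := Real.sqrt_nonneg (x : ℝ)
    rcases hsc with h1 | h1
    · have g4 := mE_ge (K := K) (hφ := hA) (J := J) ht0 h0.le h18 hA8 hnum.Z0 hε8 (fun a ha => by
        have := hge a ha
        rwa [h1, one_mul] at this) (x : ℝ)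
      rw [htε] at g4
      rw [h1, one_mul]
      nlinarith
    · have g4 := mE_le (K := K) (hφ := hA) (J := J) ht0 h0.le h18 hA8 hnum.Z0 hε8 (fun a ha => by
        have := hge a ha
        rw [h1, neg_one_mul] at this
        linarith) (x : ℝ)
      rw [htε] at g4
      rw [h1, neg_one_mul]
      nlinarith
  -- the passive function
  have hpas : ∀ x : ℕ, |pas k (flipS f R) x| ≤ 3 * (μ + 1) * Real.sqrt x := by
    intro x
    have g1 := abs_le.1 (F2.nm x)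
    have g2 := abs_le_add (hap2 x)
    have g3 := Real.sqrt_nonneg (x : ℝ)
    have g4 := mE_ge (K := K) (hφ := hP) (J := J) ht0 h0.le h18 hA8 hnum.Z0 hε8
      (fun a ha => (abs_le.1 (hle a ha)).1) (x : ℝ)
    have g5 := mE_le (K := K) (hφ := hP) (J := J) ht0 h0.le h18 hA8 hnum.Z0 hε8 (fun a ha => (abs_le.1 (hle a ha)).2) (x : ℝ)
    rw [htε] at g4 g5
    rw [abs_le]
    constructor <;> nlinarith
  -- the peak
  have hpeak : 6 * (μ + 1) / ε * Real.sqrt ((Q * Z : ℕ) : ℝ) ≤ s * act k (flipS f R) (Q * Z) := by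
    have g1 := abs_le.1 (F1.nm (Q * Z))
    have g2 := abs_le_add (hap1 (Q * Z))
    have g3 := mE_at (K := K) (hφ := hA) (t := t) h0 hA8 hJ hnum.Z0 hQ hQA
    have g4 : Real.sqrt ((Q * Z : ℕ) : ℝ) = Real.sqrt Z * Real.sqrt Q := by
      push_cast
      rw [mul_comm, Real.sqrt_mul hZ0.le]
    have g5 : 0 ≤ Real.sqrt ((Q * Z : ℕ) : ℝ) := Real.sqrt_nonneg _
    have g6 : t * (1 - ε / 8) * Real.sqrt ((Q * Z : ℕ) : ℝ) ≤ s * mE K hA t h J Z A₀ ((Q * Z : ℕ) : ℝ) := by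
      rw [g3, g4]
      have := mul_le_mul_of_nonneg_left hlow (by positivity : 0 ≤ t * Real.sqrt Z)
      calc t * (1 - ε / 8) * (Real.sqrt Z * Real.sqrt Q) = t * Real.sqrt Z * ((1 - ε / 8) * Real.sqrt Q) := by ring
        _ ≤ t * Real.sqrt Z * (s * cv K hA Q) := this
        _ = _ := by ring
    have g7 : 6 * (μ + 1) / ε + (μ + 1) ≤ t * (1 - ε / 8) := by
      have e1 : t * (1 - ε / 8) = 8 * (μ + 1) / ε - (μ + 1) := by
        rw [ht]
        field_simp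
      have e2 : 8 * (μ + 1) / ε = 6 * (μ + 1) / ε + 2 * ((μ + 1) / ε) := by ring
      have e3 : μ + 1 ≤ (μ + 1) / ε := by
        rw [le_div_iff₀ hε]
        nlinarith
      rw [e1, e2]
      linarith
    have g8 := mul_le_mul_of_nonneg_right g7 g5
    have g9 : s * mE K hA t h J Z A₀ ((Q * Z : ℕ) : ℝ) - (μ + 1) * Real.sqrt ((Q * Z : ℕ) : ℝ) ≤
        s * act k (flipS f R) (Q * Z) := by
      rcases hsc with h1 | h1
      · rw [h1, one_mul, one_mul]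
        linarith [g1.1, g2.2]
      · rw [h1, neg_one_mul, neg_one_mul]
        linarith [g1.2, g2.1]
    linarith
  have hQZ : 1 ≤ Q * Z := Nat.mul_pos hQ hnum.Z0
  have hcl : ClG (act k (flipS f R)) := S1.cl f hf C1 R
  obtain ⟨n, μ', hn, hμ', hatt, hmax⟩ := max_att (S1.zero _) hcl s hsc
    (by positivity : 0 < 6 * (μ + 1) / ε) hQZ hpeak
  have hμ6 : 6 * (μ + 1) ≤ ε * μ' := by
    rw [div_le_iff₀ hε] at hμ'
    linarith
  have hμ1 : 1 ≤ μ' := by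
    have : (1 : ℝ) ≤ 6 * (μ + 1) / ε := by
      rw [le_div_iff₀ hε]
      linarith
    linarith
  refine ⟨Z / 2, R, μ', n, by omega, hRX, fun y => ?_, ?_, hn, hμ1, hatt, hmax, fun x => ?_, fun x => ?_⟩
  · rcases lt_or_ge y (Z / 2) with h1 | h1
    · have h2 : R.filter (fun p => p ≤ y) = ∅ := by
        rw [Finset.filter_eq_empty_iff]
        intro p hp h3
        have := (hRX p hp).2
        omega
      rw [h2, Finset.card_empty, Nat.cast_zero]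
      rcases Nat.eq_zero_or_pos y with h3 | h3
      · subst h3
        simp
      · have : 0 ≤ Real.log y := Real.log_nonneg (by exact_mod_cast h3)
        positivity
    · have h2 : ((R.filter (fun p => p ≤ y)).card : ℝ) ≤ R.card := by
        exact_mod_cast Finset.card_filter_le _ _
      have h3 : Real.sqrt ((Z / 2 : ℕ) : ℝ) ≤ Real.sqrt y := Real.sqrt_le_sqrt (by exact_mod_cast h1)
      have h4 : 2 * a ≤ Real.log y := by
        have h5 : Real.exp (2 * a) ≤ y := by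
          refine hZ₄.trans ?_
          exact_mod_cast (by omega : Z₄ ≤ y)
        rwa [Real.le_log_iff_exp_le ((Real.exp_pos _).trans_le h5)]
      refine h2.trans (hcard.trans ?_)
      calc a * Real.sqrt Z ≤ a * (2 * Real.sqrt ((Z / 2 : ℕ) : ℝ)) := mul_le_mul_of_nonneg_left hsZ ha0
        _ = Real.sqrt ((Z / 2 : ℕ) : ℝ) * (2 * a) := by ring
        _ ≤ Real.sqrt y * (2 * a) := mul_le_mul_of_nonneg_right h3 (by positivity)
        _ ≤ Real.sqrt y * Real.log y := mul_le_mul_of_nonneg_left h4 (Real.sqrt_nonneg _)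
  · have g1 := flip_normG S1 f hf R (Z / 2) hX16 hRX μ F1.nm n
    have hn0 : 0 < Real.sqrt n := Real.sqrt_pos.2 (by exact_mod_cast hn)
    have g2 : μ' * Real.sqrt n ≤ |act k (flipS f R) n| := by
      rw [← hatt]
      rcases hsc with h1 | h1
      · rw [h1, one_mul]
        exact le_abs_self _
      · rw [h1, neg_one_mul]
        exact neg_le_abs _
    have g3 : Real.exp (3 * R.card / Real.sqrt ((Z / 2 : ℕ) : ℝ)) ≤ Real.exp (6 * a) := by
      refine Real.exp_le_exp.2 ?_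
      rw [mul_div_assoc]
      linarith
    have g4 : μ' * Real.sqrt n ≤ μ * Real.exp (6 * a) * Real.sqrt n := by
      refine g2.trans (g1.trans ?_)
      exact mul_le_mul_of_nonneg_right (mul_le_mul_of_nonneg_left g3 hμ) hn0.le
    exact le_of_mul_le_mul_right g4 hn0
  · have g1 := hmin x
    have g2 := Real.sqrt_nonneg (x : ℝ)
    have g3 : 3 * (μ + 1) * Real.sqrt x ≤ ε * μ' * Real.sqrt x := mul_le_mul_of_nonneg_right (by linarith) g2
    linarith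
  · have g2 := Real.sqrt_nonneg (x : ℝ)
    exact (hpas x).trans (mul_le_mul_of_nonneg_right (by linarith) g2)

/-- The preliminary stage. -/
theorem pre (f : ℕ → ℤ) (hf : ∀ n, f n = 1 ∨ f n = -1) (hM : ClG (Mf f)) (hL : ClG (Helper66.GL.Lf f)) (hR : Ric f)
    (k : Fin 4) (ε : ℝ) (hε : 0 < ε) : ∃ T₀ : ℝ, ∀ X₀ : ℕ, ∃ (X : ℕ) (R : Finset ℕ) (μ : ℝ) (n : ℕ),
      X₀ ≤ X ∧ (∀ p ∈ R, p.Prime ∧ X < p) ∧
      (∀ y : ℕ, ((R.filter (fun p => p ≤ y)).card : ℝ) ≤ Real.sqrt y * Real.log y) ∧ μ ≤ T₀ ∧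
      Peak (act k (flipS f R)) (pas k (flipS f R)) (Helper66.JC.sg k) ε μ n := by
  obtain ⟨T₀, hT₀⟩ := pre_small f hf hM hL hR k (min ε 1) (lt_min hε one_pos) (min_le_right _ _)
  refine ⟨T₀, fun X₀ => ?_⟩
  obtain ⟨X, R, μ, n, h1, h2, h3, h4, h5, h6, h7, h8, h9, h10⟩ := hT₀ X₀
  refine ⟨X, R, μ, n, h1, h2, h3, h4, h5, h6, h7, h8, fun x => ?_, fun x => ?_⟩
  · have g1 := h9 x
    have g2 : min ε 1 * μ * Real.sqrt x ≤ ε * μ * Real.sqrt x :=
      mul_le_mul_of_nonneg_right (mul_le_mul_of_nonneg_right (min_le_left _ _) (zero_le_one.trans h6))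
        (Real.sqrt_nonneg _)
    linarith
  · exact (h10 x).trans (mul_le_mul_of_nonneg_right (mul_le_mul_of_nonneg_right (min_le_left _ _)
      (zero_le_one.trans h6)) (Real.sqrt_nonneg _))

end Pool.Agent.Helper96.QC
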