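import Pool.Agent.Helper96.QC.Alg

/-!
Project JC / QC (MP_a499ba_nt), block QC-9: the two-dimensional pattern.

Proof in words.  In the notation of `Alg.lean` let `A = K * hM`, `B = K * hL`; `main56` gives `K` with
`A (c²) = ∑_{c_i = c} G_i`, `A = 0` outside of the squares, `B (b²) = ∑_{c_i ∣ b} G_i`, `B = 0` outside of the squares, up to
`η √a`.
* Kind M (`c_0 = q`, `G_0 = q`; `c_p = q / p`, `G_p = - γ q / p`, `γ ∑ 1/p = 1`): `A (q²) = q`, `|A| ≤ γ √a` otherwise,
  `|B (a)| ≤ γ √a` (`B (b²) = 0` for `q ∣ b`).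
* Kind L (`c_p = q / p`, `G_p = γ q / p`): `|A (a)| ≤ γ √a`, `B (b²) = q` for `q ∣ b`, `|B (a)| ≤ γ √a` otherwise.
* Dilation: for `K' k = √m K (k / m)` (`m ∣ k`, else `0`), `(K' * h) (a) = √m (K * h) (a / m)` (`m ∣ a`, else `0`).
* `K_L' = ∑_{j ≤ M} μ (j) K_L (· / j²)`: `B' (q² n²) = q ∑_{j ∣ n, j ≤ M} μ (j)`, which is `q` for `n = 1`, `0` for `1 < n ≤ M` and at most
  `q d (n) ≤ ε q n` for `n > M`.  The errors add up to `ε' ∑_{j ≤ M} 1 / j`; `M` is chosen before `ε'`.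
* Bring both to the same `Q = (q_M q_L)²` by dilations by `q_L²` and `q_M²` and take `u K_M + v K_L'`.
(With the same `S` for both kinds one has the same `q`, and no dilation is needed: one call of `main56` with
`G (q²) = u q`, `G ((q/p)²) = - u γ q / p`, plus `G ((j q / p)²) = v μ (j) γ q / p` for `j ≤ M`.)
-/

set_option autoImplicit false

namespace Pool.Agent.Helper96.QC

open Finset

/-- Dilation. -/
noncomputable def dil (m : ℕ) (F : ℕ → ℝ) (a : ℕ) : ℝ := if m ∣ a then F (a / m) else 0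

theorem cv_dil (K h : ℕ → ℝ) {m : ℕ} (hm : 1 ≤ m) {a : ℕ} (ha : 1 ≤ a) : cv (dil m K) h a = dil m (cv K h) a := by
  classical
  have e1 : cv (dil m K) h a = ∑ k ∈ a.divisors.filter (fun k => m ∣ k), K (k / m) * h (a / k) := by
    unfold cv dil
    rw [Finset.sum_filter]
    refine Finset.sum_congr rfl fun k _ => ?_
    split_ifs <;> simp
  rw [e1]
  unfold dil
  by_cases hma : m ∣ a
  · rw [if_pos hma]
    obtain ⟨b, rfl⟩ := hma
    have hb : 1 ≤ b := by
      rcases Nat.eq_zero_or_pos b with h0 | h0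
      · subst h0
        simp at ha
      · exact h0
    rw [Nat.mul_div_cancel_left b (by omega)]
    unfold cv
    symm
    refine Finset.sum_nbij (fun k => m * k) ?_ ?_ ?_ ?_
    · intro k hk
      rw [Nat.mem_divisors] at hk
      rw [Finset.mem_filter, Nat.mem_divisors]
      exact ⟨⟨Nat.mul_dvd_mul_left m hk.1, by positivity⟩, dvd_mul_right _ _⟩
    · intro k _ k' _ hkk
      exact Nat.eq_of_mul_eq_mul_left (by omega) hkk
    · intro k hk
      rw [Finset.mem_coe, Finset.mem_filter, Nat.mem_divisors] at hk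
      obtain ⟨⟨h1, -⟩, k', rfl⟩ := hk
      refine ⟨k', ?_, rfl⟩
      rw [Finset.mem_coe, Nat.mem_divisors]
      exact ⟨Nat.dvd_of_mul_dvd_mul_left (by omega) h1, by omega⟩
    · intro k hk
      rw [Nat.mem_divisors] at hk
      have hk0 : 0 < k := Nat.pos_of_dvd_of_pos hk.1 hb
      rw [Nat.mul_div_cancel_left k (by omega), Nat.mul_div_mul_left _ _ (by omega)]
  · rw [if_neg hma]
    refine Finset.sum_eq_zero fun k hk => ?_
    rw [Finset.mem_filter, Nat.mem_divisors] at hk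
    exact absurd (hk.2.trans hk.1.1) hma

/-- The sum of the dilations by `j ^ 2` with weight `μ j`. -/
noncomputable def Mo (M : ℕ) (F : ℕ → ℝ) (a : ℕ) : ℝ :=
  ∑ j ∈ Icc 1 M, ((ArithmeticFunction.moebius j : ℤ) : ℝ) * dil (j ^ 2) F a

theorem Mo_bound (M : ℕ) {F : ℕ → ℝ} {γ : ℝ} (hγ : 0 ≤ γ) (hF : ∀ a : ℕ, 1 ≤ a → |F a| ≤ γ * Real.sqrt a) {a : ℕ}
    (ha : 1 ≤ a) : |Mo M F a| ≤ M * (γ * Real.sqrt a) := by
  unfold Mo
  refine (Finset.abs_sum_le_sum_abs _ _).trans ((Finset.sum_le_card_nsmul _ _ (γ * Real.sqrt a) fun j hj => ?_).trans ?_)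
  · have hj := mem_Icc.1 hj
    have h1 : |((ArithmeticFunction.moebius j : ℤ) : ℝ)| ≤ 1 := by
      exact_mod_cast ArithmeticFunction.abs_moebius_le_one
    have h2 : |dil (j ^ 2) F a| ≤ γ * Real.sqrt a := by
      unfold dil
      split_ifs with h
      · have hj2 : 0 < j ^ 2 := pow_pos hj.1 2
        refine (hF _ (Nat.div_pos (Nat.le_of_dvd ha h) hj2)).trans ?_
        refine mul_le_mul_of_nonneg_left (Real.sqrt_le_sqrt ?_) hγ
        exact_mod_cast Nat.div_le_self _ _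
      · rw [abs_zero]
        positivity
    rw [abs_mul]
    calc _ ≤ 1 * (γ * Real.sqrt a) := mul_le_mul h1 h2 (abs_nonneg _) zero_le_one
      _ = _ := one_mul _
  · rw [Nat.card_Icc, nsmul_eq_mul, Nat.add_sub_cancel]

theorem Mo_sub (M : ℕ) (F G : ℕ → ℝ) (a : ℕ) : Mo M (fun a => F a - G a) a = Mo M F a - Mo M G a := by
  unfold Mo
  rw [← Finset.sum_sub_distrib]
  refine Finset.sum_congr rfl fun j _ => ?_
  unfold dil
  split_ifs <;> ring

theorem Mo_add (M : ℕ) (F G : ℕ → ℝ) (a : ℕ) : Mo M (fun a => F a + G a) a = Mo M F a + Mo M G a := by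
  unfold Mo
  rw [← Finset.sum_add_distrib]
  refine Finset.sum_congr rfl fun j _ => ?_
  unfold dil
  split_ifs <;> ring

theorem cv_comb (u v : ℝ) (M : ℕ) (K₁ K₂ h : ℕ → ℝ) {a : ℕ} (ha : 1 ≤ a) :
    cv (fun k => u * K₁ k + v * Mo M K₂ k) h a = u * cv K₁ h a + v * Mo M (cv K₂ h) a := by
  have e1 : Mo M (cv K₂ h) a = cv (fun k => Mo M K₂ k) h a := by
    unfold Mo
    have e2 : ∀ j ∈ Icc 1 M, ((ArithmeticFunction.moebius j : ℤ) : ℝ) * dil (j ^ 2) (cv K₂ h) a =
        ∑ k ∈ a.divisors, ((ArithmeticFunction.moebius j : ℤ) : ℝ) * (dil (j ^ 2) K₂ k * h (a / k)) := by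
      intro j hj
      rw [← cv_dil K₂ h (Nat.one_le_pow 2 j (mem_Icc.1 hj).1) ha, ← Finset.mul_sum]
      rfl
    rw [Finset.sum_congr rfl e2, Finset.sum_comm]
    unfold cv
    refine Finset.sum_congr rfl fun k _ => ?_
    rw [Finset.sum_mul]
    refine Finset.sum_congr rfl fun j _ => ?_
    ring
  rw [e1]
  unfold cv
  rw [Finset.mul_sum, Finset.mul_sum, ← Finset.sum_add_distrib]
  refine Finset.sum_congr rfl fun k _ => ?_
  ring

/-- Errors of a combination. -/
theorem comb_bound (u v : ℝ) (M : ℕ) {F G : ℕ → ℝ} {γ : ℝ} (hγ : 0 ≤ γ) (hF : ∀ a : ℕ, 1 ≤ a → |F a| ≤ γ * Real.sqrt a)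
    (hG : ∀ a : ℕ, 1 ≤ a → |G a| ≤ γ * Real.sqrt a) {a : ℕ} (ha : 1 ≤ a) :
    |u * F a + v * Mo M G a| ≤ (|u| + |v| * M) * γ * Real.sqrt a := by
  refine (abs_add_le _ _).trans ?_
  rw [abs_mul, abs_mul]
  have h1 := mul_le_mul_of_nonneg_left (hF a ha) (abs_nonneg u)
  have h2 := mul_le_mul_of_nonneg_left (Mo_bound M hγ hG ha) (abs_nonneg v)
  calc _ ≤ |u| * (γ * Real.sqrt a) + |v| * (M * (γ * Real.sqrt a)) := add_le_add h1 h2
    _ = _ := by ring

open Classical in
/-- The tail of the pattern of kind L. -/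
noncomputable def Ta (q : ℕ) (a : ℕ) : ℝ := if ∃ b, a = b ^ 2 ∧ q ∣ b then (q : ℝ) else 0

/-- The tail is removed by the Moebius function. -/
theorem Mo_Ta {q : ℕ} (hq : 1 ≤ q) {δ : ℝ} (hδ : 0 ≤ δ) {M : ℕ} (hM1 : 1 ≤ M)
    (hM : ∀ n : ℕ, M < n → 2 * (n.divisors.card : ℝ) ≤ δ * Real.sqrt n) {a : ℕ} (ha : 1 ≤ a) :
    |Mo M (Ta q) a - (if a = q ^ 2 then (q : ℝ) else 0)| ≤ δ / 2 * Real.sqrt a := by
  classical
  by_cases hex : ∃ n, a = (q * n) ^ 2
  · obtain ⟨n, rfl⟩ := hex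
    have hn : 1 ≤ n := by
      rcases Nat.eq_zero_or_pos n with h0 | h0
      · subst h0
        simp at ha
      · exact h0
    have e1 : ∀ j ∈ Icc 1 M, ((ArithmeticFunction.moebius j : ℤ) : ℝ) * dil (j ^ 2) (Ta q) ((q * n) ^ 2) =
        if j ∣ n then (q : ℝ) * ((ArithmeticFunction.moebius j : ℤ) : ℝ) else 0 := by
      intro j hj
      have hj1 := (mem_Icc.1 hj).1
      have hj2 : 0 < j ^ 2 := pow_pos hj1 2
      unfold dil Ta
      by_cases h1 : j ∣ n
      · obtain ⟨m, rfl⟩ := h1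
        rw [if_pos (dvd_mul_right j m), if_pos, if_pos, mul_comm]
        · refine ⟨q * m, ?_, dvd_mul_right _ _⟩
          rw [show (q * (j * m)) ^ 2 = j ^ 2 * (q * m) ^ 2 by ring, Nat.mul_div_cancel_left _ hj2]
        · exact ⟨(q * m) ^ 2, by ring⟩
      · rw [if_neg h1]
        split_ifs with h2 h3
        · exfalso
          obtain ⟨b, hb, c, rfl⟩ := h3
          have h4 : (q * n) ^ 2 = (j * (q * c)) ^ 2 := by
            rw [← Nat.div_mul_cancel h2, hb]
            ring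
          have h5 := Nat.pow_left_injective (by norm_num : (2 : ℕ) ≠ 0) h4
          have h6 : q * n = q * (j * c) := by
            rw [h5]
            ring
          exact h1 ⟨c, Nat.eq_of_mul_eq_mul_left hq h6⟩
        · rw [mul_zero]
        · rw [mul_zero]
    have e2 : Mo M (Ta q) ((q * n) ^ 2) =
        q * ∑ j ∈ (Icc 1 M).filter (fun j => j ∣ n), ((ArithmeticFunction.moebius j : ℤ) : ℝ) := by
      unfold Mo
      rw [Finset.sum_congr rfl e1, ← Finset.sum_filter, Finset.mul_sum]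
    rw [e2]
    rcases Nat.lt_or_ge M n with h1 | h1
    · have hn2 : ¬ (q * n) ^ 2 = q ^ 2 := by
        intro h
        have := Nat.pow_left_injective (by norm_num : (2 : ℕ) ≠ 0) h
        have h3 : n = 1 := Nat.eq_of_mul_eq_mul_left hq (by rw [this, mul_one])
        omega
      rw [if_neg hn2, sub_zero, abs_mul, sqrt_sq56, abs_of_nonneg (Nat.cast_nonneg q)]
      have h2 : |∑ j ∈ (Icc 1 M).filter (fun j => j ∣ n), ((ArithmeticFunction.moebius j : ℤ) : ℝ)| ≤
          n.divisors.card := by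
        refine (Finset.abs_sum_le_sum_abs _ _).trans
          ((Finset.sum_le_card_nsmul _ _ 1 fun j _ => ?_).trans ?_)
        · exact_mod_cast ArithmeticFunction.abs_moebius_le_one
        · rw [nsmul_eq_mul, mul_one]
          exact_mod_cast Finset.card_le_card fun j hj => by
            rw [Finset.mem_filter] at hj
            exact Nat.mem_divisors.2 ⟨hj.2, by omega⟩
      have h3 := hM n h1
      have h4 : Real.sqrt n ≤ n := by
        rw [Real.sqrt_le_left (Nat.cast_nonneg n)]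
        have : (1 : ℝ) ≤ n := by exact_mod_cast hn
        nlinarith
      have h5 : δ * Real.sqrt n ≤ δ * n := mul_le_mul_of_nonneg_left h4 hδ
      push_cast
      have h6 : (0 : ℝ) ≤ q := Nat.cast_nonneg q
      calc (q : ℝ) * |∑ j ∈ (Icc 1 M).filter (fun j => j ∣ n), ((ArithmeticFunction.moebius j : ℤ) : ℝ)| ≤
            q * (δ / 2 * n) := mul_le_mul_of_nonneg_left (by linarith) h6
        _ = δ / 2 * (q * n) := by ring
    · have e3 : (Icc 1 M).filter (fun j => j ∣ n) = n.divisors := by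
        ext j
        rw [Finset.mem_filter, Nat.mem_divisors, mem_Icc]
        constructor
        · rintro ⟨-, h2⟩
          exact ⟨h2, by omega⟩
        · rintro ⟨h2, -⟩
          exact ⟨⟨Nat.pos_of_dvd_of_pos h2 hn, (Nat.le_of_dvd hn h2).trans h1⟩, h2⟩
      have e4 : ∑ j ∈ n.divisors, ((ArithmeticFunction.moebius j : ℤ) : ℝ) = if n = 1 then 1 else 0 := by
        have h2 : ∑ j ∈ n.divisors, ArithmeticFunction.moebius j = if n = 1 then 1 else 0 := by
          rw [← ArithmeticFunction.coe_mul_zeta_apply, ArithmeticFunction.moebius_mul_coe_zeta,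
            ArithmeticFunction.one_apply]
        have h3 := congrArg (fun z : ℤ => (z : ℝ)) h2
        push_cast at h3
        rw [h3]
      rw [e3, e4]
      have h6 : 0 ≤ δ / 2 * Real.sqrt (((q * n) ^ 2 : ℕ) : ℝ) := by positivity
      by_cases h2 : n = 1
      · subst h2
        rw [if_pos rfl, mul_one, mul_one, if_pos rfl, sub_self, abs_zero]
        rw [mul_one] at h6
        exact h6
      · rw [if_neg h2, mul_zero, if_neg, sub_zero, abs_zero]
        · exact h6
        · intro h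
          have := Nat.pow_left_injective (by norm_num : (2 : ℕ) ≠ 0) h
          exact h2 (Nat.eq_of_mul_eq_mul_left hq (by rw [this, mul_one]))
  · have e1 : Mo M (Ta q) a = 0 := by
      unfold Mo
      refine Finset.sum_eq_zero fun j hj => ?_
      unfold dil Ta
      split_ifs with h2 h3
      · exfalso
        obtain ⟨b, hb, c, rfl⟩ := h3
        refine hex ⟨j * c, ?_⟩
        rw [← Nat.div_mul_cancel h2, hb]
        ring
      · rw [mul_zero]
      · rw [mul_zero]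
    have e2 : ¬ a = q ^ 2 := fun h => hex ⟨1, by rw [mul_one]; exact h⟩
    rw [e1, if_neg e2, sub_zero, abs_zero]
    positivity

theorem alg2 (g : ℕ → ℝ) (hg1 : g 1 = 1) (hg : ∀ m n : ℕ, 1 ≤ m → 1 ≤ n → g (m * n) = g m * g n)
    (hs : ∀ n : ℕ, 1 ≤ n → g n = 1 ∨ g n = -1) (u v : ℝ) {ε : ℝ} (hε : 0 < ε) :
    ∃ (K : ℕ → ℝ) (N Q : ℕ), 1 ≤ Q ∧ Q ≤ N ∧ (∀ k, K k ≠ 0 → 1 ≤ k ∧ k ≤ N) ∧
      (∀ a : ℕ, 1 ≤ a → |cv K (fun n => if Squarefree n then g n else 0) a -
        (if a = Q then u * Real.sqrt Q else 0)| ≤ ε * Real.sqrt a) ∧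
      (∀ a : ℕ, 1 ≤ a → |cv K g a - (if a = Q then v * Real.sqrt Q else 0)| ≤ ε * Real.sqrt a) := by
  classical
  set δ : ℝ := ε / (2 * (|v| + 1)) with hδ
  have hv := abs_nonneg v
  have hu := abs_nonneg u
  have hδ0 : 0 < δ := by positivity
  have hδv : |v| * (δ / 2) ≤ ε / 4 := by
    rw [hδ, show |v| * (ε / (2 * (|v| + 1)) / 2) = ε / 4 * (|v| / (|v| + 1)) by field_simp; ring]
    refine mul_le_of_le_one_right (by positivity) ?_
    rw [div_le_one (by positivity)]
    linarith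
  obtain ⟨M, hM1, hM⟩ := exists_W56 hδ0
  set C : ℝ := |u| + |v| * M with hC
  have hC0 : 0 ≤ C := by positivity
  set ε₂ : ℝ := ε / (4 * (C + 1)) with hε₂
  have hε₂0 : 0 < ε₂ := by positivity
  have hCε : C * ε₂ ≤ ε / 4 := by
    rw [hε₂, show C * (ε / (4 * (C + 1))) = ε / 4 * (C / (C + 1)) by field_simp]
    refine mul_le_of_le_one_right (by positivity) ?_
    rw [div_le_one (by positivity)]
    linarith
  obtain ⟨S, γ, hS, hγ, hγε, hγβ⟩ := setup56 hε₂0
  have hCγ : C * γ ≤ ε / 4 := (mul_le_mul_of_nonneg_left (by linarith) hC0).trans hCε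
  set q : ℕ := ∏ r ∈ S, r with hq
  have hq1 : 1 ≤ q := Finset.prod_pos fun r hr => (hS r hr).pos
  have h0S : (0 : ℕ) ∉ S := fun h => (hS 0 h).ne_zero rfl
  have hne : ∀ p ∈ S, p ≠ 0 := fun p hp => (hS p hp).ne_zero
  obtain ⟨K₁, N₁, hN₁, hK₁, h1, h2⟩ := main56 g hg hg1 hs (insert 0 S) (fun i => if i = 0 then q else e56 S i)
    (fun i => if i = 0 then (q : ℝ) else -(γ * e56 S i)) hq1 (fun i hi => by
      rcases Finset.mem_insert.1 hi with h | h
      · rw [if_pos h]
        exact ⟨hq1, le_rfl⟩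
      · rw [if_neg (hne i h)]
        exact ⟨e_pos56 hS i, e_le56 hS h⟩) hε₂0
  obtain ⟨K₂, N₂, hN₂, hK₂, h3, h4⟩ := main56 g hg hg1 hs S (e56 S) (fun i => γ * e56 S i) hq1
    (fun i hi => ⟨e_pos56 hS i, e_le56 hS hi⟩) hε₂0
  set P : ℕ → ℝ := fun a => ∑ p ∈ S, (if a = e56 S p ^ 2 then γ * e56 S p else 0) with hP
  set R : ℕ → ℝ := fun a => ∑ p ∈ S, (if ∃ b, a = b ^ 2 ∧ e56 S p ∣ b then γ * e56 S p else 0) with hR
  have e1 : ∀ a : ℕ, ∑ i ∈ insert 0 S, (if a = (if i = 0 then q else e56 S i) ^ 2 then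
      (if i = 0 then (q : ℝ) else -(γ * e56 S i)) else 0) = (if a = q ^ 2 then (q : ℝ) else 0) - P a := by
    intro a
    rw [Finset.sum_insert h0S, if_pos rfl, if_pos rfl, sub_eq_add_neg, hP, ← Finset.sum_neg_distrib]
    congr 1
    refine Finset.sum_congr rfl fun p hp => ?_
    rw [if_neg (hne p hp), if_neg (hne p hp)]
    split_ifs <;> simp
  have e2 : ∀ a : ℕ, ∑ i ∈ insert 0 S, (if ∃ b, a = b ^ 2 ∧ (if i = 0 then q else e56 S i) ∣ b then
      (if i = 0 then (q : ℝ) else -(γ * e56 S i)) else 0) = Ta q a - R a := by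
    intro a
    rw [Finset.sum_insert h0S, if_pos rfl, if_pos rfl, sub_eq_add_neg, hR, ← Finset.sum_neg_distrib]
    congr 1
    refine Finset.sum_congr rfl fun p hp => ?_
    rw [if_neg (hne p hp), if_neg (hne p hp)]
    split_ifs <;> simp
  have hPb : ∀ a : ℕ, 1 ≤ a → |P a| ≤ γ * Real.sqrt a := fun a _ => by
    rw [abs_of_nonneg (P_nonneg56 hγ a)]
    exact P_le56 hS hγ a
  have hRb : ∀ a : ℕ, 1 ≤ a → |R a - Ta q a| ≤ γ * Real.sqrt a := by
    intro a ha
    by_cases h6 : ∃ b, a = b ^ 2 ∧ q ∣ b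
    · have h7 : R a = q := by
        rw [hR]
        simp only
        rw [R_eq56 hS h6, hγβ, one_mul]
      rw [h7]
      unfold Ta
      rw [if_pos h6, sub_self, abs_zero]
      positivity
    · unfold Ta
      rw [if_neg h6, sub_zero, abs_of_nonneg (R_nonneg56 hγ a)]
      exact R_le56 hS hγ ha h6
  -- the error of the approximations
  have herr : ∀ (h T₁ T₂ : ℕ → ℝ), (∀ a : ℕ, 1 ≤ a → |cv K₁ h a - T₁ a| ≤ ε₂ * Real.sqrt a) →
      (∀ a : ℕ, 1 ≤ a → |cv K₂ h a - T₂ a| ≤ ε₂ * Real.sqrt a) → ∀ a : ℕ, 1 ≤ a →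
      |cv (fun k => u * K₁ k + v * Mo M K₂ k) h a - (u * T₁ a + v * Mo M T₂ a)| ≤ ε / 4 * Real.sqrt a := by
    intro h T₁ T₂ g1 g2 a ha
    have g3 := comb_bound u v M hε₂0.le g1 g2 ha
    rw [Mo_sub] at g3
    rw [cv_comb u v M K₁ K₂ h ha]
    have e3 : u * cv K₁ h a + v * Mo M (cv K₂ h) a - (u * T₁ a + v * Mo M T₂ a) =
        u * (cv K₁ h a - T₁ a) + v * (Mo M (cv K₂ h) a - Mo M T₂ a) := by ring
    rw [e3]
    exact g3.trans (mul_le_mul_of_nonneg_right hCε (Real.sqrt_nonneg _))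
  refine ⟨fun k => u * K₁ k + v * Mo M K₂ k, max (max N₁ (M ^ 2 * N₂)) (q ^ 2), q ^ 2, Nat.one_le_pow _ _ hq1,
    le_max_right _ _, fun k hk => ?_, fun a ha => ?_, fun a ha => ?_⟩
  · by_cases hk1 : K₁ k = 0
    · have hk2 : Mo M K₂ k ≠ 0 := by
        intro h
        apply hk
        simp only
        rw [hk1, h]
        ring
      unfold Mo at hk2
      obtain ⟨j, hj, h5⟩ := Finset.exists_ne_zero_of_sum_ne_zero hk2
      have hj' := mem_Icc.1 hj
      unfold dil at h5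
      have h6 : j ^ 2 ∣ k := by
        by_contra h6
        exact h5 (by rw [if_neg h6, mul_zero])
      rw [if_pos h6] at h5
      have h7 := hK₂ _ (right_ne_zero_of_mul h5)
      have h8 : k = j ^ 2 * (k / j ^ 2) := (Nat.mul_div_cancel' h6).symm
      have h9 : 0 < j ^ 2 := pow_pos hj'.1 2
      constructor
      · rw [h8]
        exact Nat.mul_pos h9 h7.1
      · refine le_trans ?_ ((le_max_right _ _).trans (le_max_left _ _))
        rw [h8]
        exact Nat.mul_le_mul (Nat.pow_le_pow_left hj'.2 2) h7.2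
    · have h5 := hK₁ k hk1
      exact ⟨h5.1, h5.2.trans ((le_max_left _ _).trans (le_max_left _ _))⟩
  · have g1 := herr _ (fun a => (if a = q ^ 2 then (q : ℝ) else 0) - P a) P
      (fun a ha => by
        have := h1 a ha
        rwa [e1 a] at this) (fun a ha => h3 a ha) a ha
    have g2 := comb_bound u v M (F := fun a => -P a) (G := P) hγ (fun a ha => by rw [abs_neg]; exact hPb a ha) hPb ha
    have g3 : (|u| + |v| * M) * γ * Real.sqrt a ≤ ε / 4 * Real.sqrt a :=
      mul_le_mul_of_nonneg_right hCγ (Real.sqrt_nonneg _)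
    have e3 : (if a = q ^ 2 then u * Real.sqrt ((q ^ 2 : ℕ) : ℝ) else 0) = u * (if a = q ^ 2 then (q : ℝ) else 0) := by
      rw [sqrt_sq56]
      split_ifs <;> simp
    rw [e3]
    have e4 : ∀ x : ℝ, x - u * (if a = q ^ 2 then (q : ℝ) else 0) =
        (x - (u * ((if a = q ^ 2 then (q : ℝ) else 0) - P a) + v * Mo M P a)) + (u * -P a + v * Mo M P a) := by
      intro x
      ring
    rw [e4]
    refine (abs_add_le _ _).trans ((add_le_add g1 (g2.trans g3)).trans ?_)
    have g4 := Real.sqrt_nonneg (a : ℝ)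
    nlinarith
  · have g1 := herr _ (fun a => Ta q a - R a) R
      (fun a ha => by
        have := h2 a ha
        rwa [e2 a] at this) (fun a ha => h4 a ha) a ha
    have g2 := comb_bound u v M (F := fun a => Ta q a - R a) (G := fun a => R a - Ta q a) hγ
      (fun a ha => by rw [abs_sub_comm]; exact hRb a ha) hRb ha
    have g3 : (|u| + |v| * M) * γ * Real.sqrt a ≤ ε / 4 * Real.sqrt a :=
      mul_le_mul_of_nonneg_right hCγ (Real.sqrt_nonneg _)
    have g4 := Real.sqrt_nonneg (a : ℝ)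
    have g5 := Mo_Ta hq1 hδ0.le hM1 hM ha
    have g6 : |v * (Mo M (Ta q) a - (if a = q ^ 2 then (q : ℝ) else 0))| ≤ ε / 4 * Real.sqrt a := by
      rw [abs_mul]
      calc _ ≤ |v| * (δ / 2 * Real.sqrt a) := mul_le_mul_of_nonneg_left g5 hv
        _ = |v| * (δ / 2) * Real.sqrt a := by ring
        _ ≤ _ := mul_le_mul_of_nonneg_right hδv g4
    have e3 : (if a = q ^ 2 then v * Real.sqrt ((q ^ 2 : ℕ) : ℝ) else 0) = v * (if a = q ^ 2 then (q : ℝ) else 0) := by
      rw [sqrt_sq56]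
      split_ifs <;> simp
    rw [Mo_sub] at g2
    rw [e3]
    have e4 : ∀ x : ℝ, x - v * (if a = q ^ 2 then (q : ℝ) else 0) =
        (x - (u * (Ta q a - R a) + v * Mo M R a)) + (u * (Ta q a - R a) + v * (Mo M R a - Mo M (Ta q) a)) +
          v * (Mo M (Ta q) a - (if a = q ^ 2 then (q : ℝ) else 0)) := by
      intro x
      ring
    rw [e4]
    refine (abs_add_le _ _).trans ((add_le_add (abs_add_le _ _) g6).trans ?_)
    refine (add_le_add (add_le_add g1 (g2.trans g3)) le_rfl).trans ?_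
    nlinarith

end Pool.Agent.Helper96.QC
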