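import Pool.Agent.Helper96.QC.Pre
import Pool.Agent.Helper96.QC.Alg2

/-!
Project JC / QC (MP_a499ba_nt), block QC-10: the preliminary stage in an arbitrary direction.

With the pattern of `Alg2.lean` (peak at `Q` in the direction `(u, v)`, error `ε / 8`) the main part of the first order effect at `x` is
`u P x`, resp. `v P x`, with the same spike `P x = t √Z √Q Sp (x / (Q Z))`, `0 ≤ P x ≤ 2 t √x`, up to `2 t (ε / 8) √x = 2 (μ + 1) √x`
(`t = 8 (μ + 1) / ε`).  `μ' = P n / √n` is the maximum of `P x / √x`, and `θ = P x / (μ' √x)`.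
-/

set_option autoImplicit false

namespace Pool.Agent.Helper96.QC

open Finset Filter Pool.Agent.Helper66.MB Pool.Agent.Helper66.JC

/-- A pattern with one peak gives one spike. -/
theorem mE_near {K hφ : ℕ → ℝ} {t h : ℝ} {J Z A₀ : ℕ} (ht : 0 ≤ t) (h0 : 0 ≤ h) (h18 : h ≤ 1 / 8)
    (hA : 8 * A₀ * h ≤ 1) (hZ : 0 < Z) {c : ℝ} (hc : 0 ≤ c) {Q : ℕ} (hQ : 1 ≤ Q) (hQA : Q ≤ A₀) {w : ℝ}
    (h2 : ∀ a : ℕ, 1 ≤ a → |cv K hφ a - (if a = Q then w * Real.sqrt Q else 0)| ≤ c * Real.sqrt a) (y : ℝ) :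
    |mE K hφ t h J Z A₀ y - w * (t * Real.sqrt Z * Real.sqrt Q * Sp h J (y / (Q * Z)))| ≤ 2 * t * c * Real.sqrt y := by
  set K' : ℕ → ℝ := fun a => cv K hφ a - (if a = Q then w * Real.sqrt Q else 0) with hK'
  set d : ℕ → ℝ := fun n => if n = 1 then 1 else 0 with hd
  have hcv : ∀ a : ℕ, 1 ≤ a → cv K' d a = K' a := by
    intro a ha
    unfold cv
    rw [Finset.sum_eq_single_of_mem a (Nat.mem_divisors_self a (by omega))]
    · rw [hd]
      simp only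
      rw [Nat.div_self (by omega), if_pos rfl, mul_one]
    · intro k hk hne
      have hk' := Nat.mem_divisors.1 hk
      rw [hd]
      simp only
      rw [if_neg, mul_zero]
      intro h
      have h3 := Nat.div_mul_cancel hk'.1
      rw [h, one_mul] at h3
      exact hne h3
  have e1 : mE K' d t h J Z A₀ y = mE K hφ t h J Z A₀ y -
      w * (t * Real.sqrt Z * Real.sqrt Q * Sp h J (y / (Q * Z))) := by
    have e2 : mE K' d t h J Z A₀ y = t * Real.sqrt Z * ∑ a ∈ Icc 1 A₀, (cv K hφ a * Sp h J (y / (a * Z)) -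
        (if a = Q then w * Real.sqrt Q else 0) * Sp h J (y / (a * Z))) := by
      unfold mE
      congr 1
      refine Finset.sum_congr rfl fun a ha => ?_
      rw [hcv a (mem_Icc.1 ha).1, hK']
      ring
    have e3 : ∑ a ∈ Icc 1 A₀, (if a = Q then w * Real.sqrt Q else 0) * Sp h J (y / (a * Z)) =
        w * Real.sqrt Q * Sp h J (y / (Q * Z)) := by
      rw [Finset.sum_eq_single_of_mem Q (mem_Icc.2 ⟨hQ, hQA⟩)]
      · rw [if_pos rfl]
      · intro b _ hb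
        rw [if_neg hb, zero_mul]
    rw [e2, Finset.sum_sub_distrib, e3]
    unfold mE
    ring
  rw [← e1, abs_le]
  constructor
  · exact mE_ge ht h0 h18 hA hZ hc (fun a ha => by
      rw [hcv a ha]
      exact (abs_le.1 (h2 a ha)).1) y
  · exact mE_le ht h0 h18 hA hZ hc (fun a ha => by
      rw [hcv a ha]
      exact (abs_le.1 (h2 a ha)).2) y

/-- The pattern for a sign function. -/
theorem pattern2 (f : ℕ → ℤ) (hf : ∀ n, f n = 1 ∨ f n = -1) (u v : ℝ) {ε : ℝ} (hε : 0 < ε) :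
    ∃ (K : ℕ → ℝ) (N Q : ℕ), 1 ≤ Q ∧ Q ≤ N ∧ (∀ k, K k ≠ 0 → 1 ≤ k ∧ k ≤ N) ∧
      (∀ a : ℕ, 1 ≤ a → |cv K (fun n => ((Helper92.GB.ext f n : ℤ) : ℝ)) a -
        (if a = Q then u * Real.sqrt Q else 0)| ≤ ε * Real.sqrt a) ∧
      (∀ a : ℕ, 1 ≤ a → |cv K (fun n => ((Helper66.GL.cm f n : ℤ) : ℝ)) a -
        (if a = Q then v * Real.sqrt Q else 0)| ≤ ε * Real.sqrt a) := by
  have hg1 : (fun n => ((Helper66.GL.cm f n : ℤ) : ℝ)) 1 = 1 := by simp [Helper66.GL.cm_one]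
  have hgm : ∀ m n : ℕ, 1 ≤ m → 1 ≤ n → (fun n => ((Helper66.GL.cm f n : ℤ) : ℝ)) (m * n) =
      (fun n => ((Helper66.GL.cm f n : ℤ) : ℝ)) m * (fun n => ((Helper66.GL.cm f n : ℤ) : ℝ)) n := by
    intro m n hm hn
    simp only
    rw [Helper66.GL.cm_mul f (by omega) (by omega)]
    push_cast
    rfl
  have hgs : ∀ n : ℕ, 1 ≤ n → (fun n => ((Helper66.GL.cm f n : ℤ) : ℝ)) n = 1 ∨
      (fun n => ((Helper66.GL.cm f n : ℤ) : ℝ)) n = -1 := by
    intro n _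
    rcases Helper66.GL.cm_sign f hf n with h | h
    · left
      simp [h]
    · right
      simp [h]
  have hext : (fun n => if Squarefree n then (fun n => ((Helper66.GL.cm f n : ℤ) : ℝ)) n else 0) =
      (fun n => ((Helper92.GB.ext f n : ℤ) : ℝ)) := by
    funext n
    exact (ext_eq f n).symm
  obtain ⟨K, N, Q, a1, a2, a3, a4, a5⟩ := alg2 (fun n => ((Helper66.GL.cm f n : ℤ) : ℝ)) hg1 hgm hgs u v hε
  rw [hext] at a4
  exact ⟨K, N, Q, a1, a2, a3, a4, a5⟩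

private theorem sqrt_Z' {Z : ℕ} (hZ : 32 ≤ Z) : Real.sqrt Z ≤ 2 * Real.sqrt ((Z / 2 : ℕ) : ℝ) := by
  have e2 : 2 * Real.sqrt ((Z / 2 : ℕ) : ℝ) = Real.sqrt (2 ^ 2 * ((Z / 2 : ℕ) : ℝ)) := by
    rw [Real.sqrt_mul (by norm_num : (0 : ℝ) ≤ 2 ^ 2), Real.sqrt_sq (by norm_num)]
  rw [e2]
  refine Real.sqrt_le_sqrt ?_
  have : Z ≤ 4 * (Z / 2) := by omega
  have h' : (Z : ℝ) ≤ 4 * ((Z / 2 : ℕ) : ℝ) := by exact_mod_cast this
  linarith

/-- The maximum of the spike. -/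
theorem spike_max {t h : ℝ} (ht : 0 < t) (h0 : 0 < h) (h18 : h ≤ 1 / 8) {J Z Q : ℕ} (hJ : 0 < J) (hZ : 0 < Z)
    (hQ : 0 < Q) :
    ∃ (n : ℕ) (μ : ℝ), 1 ≤ n ∧ t ≤ μ ∧ μ ≤ 2 * t ∧
      t * Real.sqrt Z * Real.sqrt Q * Sp h J (n / (Q * Z)) = μ * Real.sqrt n ∧
      ∀ x : ℕ, ∃ θ : ℝ, 0 ≤ θ ∧ θ ≤ 1 ∧ t * Real.sqrt Z * Real.sqrt Q * Sp h J (x / (Q * Z)) = θ * μ * Real.sqrt x := by
  classical
  have hZ' : (0 : ℝ) < Z := by exact_mod_cast hZ
  have hQ' : (0 : ℝ) < Q := by exact_mod_cast hQ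
  have hQZ : 0 < Q * Z := Nat.mul_pos hQ hZ
  set P : ℕ → ℝ := fun x => t * Real.sqrt Z * Real.sqrt Q * Sp h J (x / (Q * Z)) with hP
  have hP0 : ∀ x, 0 ≤ P x := fun x => by
    have := Sp_nonneg h J ((x : ℝ) / (Q * Z))
    rw [hP]
    positivity
  -- outside of a finite set the spike vanishes
  have hPz : ∀ x : ℕ, x ∉ Icc 1 (2 * (Q * Z)) → P x = 0 := by
    intro x hx
    by_contra hne
    have hS : Sp h J ((x : ℝ) / (Q * Z)) ≠ 0 := fun h => hne (by rw [hP]; simp only; rw [h, mul_zero])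
    obtain ⟨h2, h3⟩ := Sp_supp h0.le hS
    rw [le_div_iff₀ (by positivity)] at h2
    rw [div_lt_iff₀ (by positivity)] at h3
    apply hx
    rw [mem_Icc]
    have hp : (0 : ℝ) < Q * Z := by positivity
    constructor
    · have : (0 : ℝ) < x := lt_of_lt_of_le (by nlinarith) h2
      exact_mod_cast this
    · have : (x : ℝ) ≤ 2 * (Q * Z) := by nlinarith
      exact_mod_cast this
  have hle : ∀ x : ℕ, P x ≤ 2 * t * Real.sqrt x := by
    intro x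
    by_cases hS : Sp h J ((x : ℝ) / (Q * Z)) = 0
    · rw [hP]
      simp only
      rw [hS, mul_zero]
      positivity
    · obtain ⟨h2, -⟩ := Sp_supp h0.le hS
      rw [le_div_iff₀ (by positivity)] at h2
      have h3 : Real.sqrt Z * Real.sqrt Q ≤ 2 * Real.sqrt x := by
        rw [← Real.sqrt_mul hZ'.le]
        have h4 : (Z : ℝ) * Q ≤ 2 ^ 2 * x := by
          have : (0 : ℝ) ≤ Q * Z := by positivity
          nlinarith
        refine (Real.sqrt_le_sqrt h4).trans (le_of_eq ?_)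
        rw [Real.sqrt_mul (by norm_num), Real.sqrt_sq (by norm_num)]
      have h5 := Sp_le_one h J ((x : ℝ) / (Q * Z))
      have h6 := Sp_nonneg h J ((x : ℝ) / (Q * Z))
      calc P x = t * (Real.sqrt Z * Real.sqrt Q) * Sp h J (x / (Q * Z)) := by rw [hP]; ring
        _ ≤ t * (Real.sqrt Z * Real.sqrt Q) * 1 := mul_le_mul_of_nonneg_left h5 (by positivity)
        _ ≤ t * (2 * Real.sqrt x) * 1 := by
          refine mul_le_mul_of_nonneg_right (mul_le_mul_of_nonneg_left h3 ht.le) zero_le_one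
        _ = _ := by ring
  have hat : P (Q * Z) = t * Real.sqrt ((Q * Z : ℕ) : ℝ) := by
    have e1 : ((Q * Z : ℕ) : ℝ) / (Q * Z) = 1 := by
      push_cast
      exact div_self (by positivity)
    rw [hP]
    simp only
    rw [e1, Sp_one h0 hJ, mul_one]
    push_cast
    rw [Real.sqrt_mul hQ'.le]
    ring
  obtain ⟨n, hn, hmax⟩ := Finset.exists_max_image (Icc 1 (2 * (Q * Z))) (fun x => P x / Real.sqrt x)
    ⟨Q * Z, mem_Icc.2 ⟨hQZ, by omega⟩⟩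
  have hn1 := (mem_Icc.1 hn).1
  have hsn : 0 < Real.sqrt n := Real.sqrt_pos.2 (by exact_mod_cast hn1)
  have hμt : t ≤ P n / Real.sqrt n := by
    have h1 := hmax (Q * Z) (mem_Icc.2 ⟨hQZ, by omega⟩)
    rw [hat, mul_div_assoc, div_self (Real.sqrt_pos.2 (by exact_mod_cast hQZ)).ne', mul_one] at h1
    exact h1
  refine ⟨n, P n / Real.sqrt n, hn1, hμt, ?_, ?_, fun x => ?_⟩
  · rw [div_le_iff₀ hsn]
    exact hle n
  · rw [div_mul_cancel₀ _ hsn.ne']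
  · have hμ0 : 0 < P n / Real.sqrt n := ht.trans_le hμt
    by_cases hx : x ∈ Icc 1 (2 * (Q * Z))
    · have hsx : 0 < Real.sqrt x := Real.sqrt_pos.2 (by exact_mod_cast (mem_Icc.1 hx).1)
      refine ⟨P x / Real.sqrt x / (P n / Real.sqrt n), by have := hP0 x; positivity, ?_, ?_⟩
      · rw [div_le_one hμ0]
        exact hmax x hx
      · rw [div_mul_cancel₀ _ hμ0.ne', div_mul_cancel₀ _ hsx.ne']
    · refine ⟨0, le_rfl, zero_le_one, ?_⟩
      have := hPz x hx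
      rw [zero_mul, zero_mul]
      exact this

theorem pre2_small (f : ℕ → ℤ) (hf : ∀ n, f n = 1 ∨ f n = -1) (hM : ClG (Mf f)) (hL : ClG (Helper66.GL.Lf f))
    (hR : Ric f) (u₀ v₀ : ℝ) (ε : ℝ) (hε : 0 < ε) (hε1 : ε ≤ 1) : ∃ T₀ : ℝ, ∀ X₀ : ℕ,
      ∃ (X : ℕ) (R : Finset ℕ) (μ : ℝ) (n : ℕ), X₀ ≤ X ∧ (∀ p ∈ R, p.Prime ∧ X < p) ∧
      (∀ y : ℕ, ((R.filter (fun p => p ≤ y)).card : ℝ) ≤ Real.sqrt y * Real.log y) ∧ μ ≤ T₀ ∧
      Peak2 (Mf (flipS f R)) (Helper66.GL.Lf (flipS f R)) u₀ v₀ ε μ n := by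
  classical
  obtain ⟨μ, T, hμ, FM, FL⟩ := fam_of f hf hM hL
  obtain ⟨K, N, Q, hQ, hQN, hK, hpM, hpL⟩ := pattern2 f hf u₀ v₀ (show 0 < ε / 8 by positivity)
  set t : ℝ := 8 * (μ + 1) / ε with ht
  have ht00 : 0 < t := by positivity
  have ht0 : 0 ≤ t := ht00.le
  have hN : 1 ≤ N := hQ.trans hQN
  obtain ⟨h, θ, J, A₀, Z₁, h0, h18, hθ, hJ, hQA, hA8, hcore⟩ := core K N hN hK ht0 μ hμ T (show (0 : ℝ) < 1 / 3 by norm_num) Q
  obtain ⟨Z₂, hZ₂⟩ := clus f (Dn_of_Ric f hR) K N ht0 h0 h18 hθ hJ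
  have hν := nrm_nonneg K N
  set a : ℝ := t * nrm K N with ha
  have ha0 : 0 ≤ a := mul_nonneg ht0 hν
  obtain ⟨Z₃, hZ₃⟩ := exists_nat_ge ((36 * μ * a * Real.exp (10 * a)) ^ 2)
  obtain ⟨Z₄, hZ₄⟩ := exists_nat_ge (Real.exp (2 * a))
  refine ⟨2 * t, fun X₀ => ?_⟩
  set Z : ℕ := Z₁ + Z₂ + Z₃ + 3 * Z₄ + 2 * X₀ + 32 with hZ
  obtain ⟨hnum, hcore⟩ := hcore Z (by omega)
  obtain ⟨A, B, hCL, hprime⟩ := hZ₂ Z (by omega)
  set R := RR N J A B with hRd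
  set u : ℕ → ℝ := fun p => -2 * (f p : ℝ) with hu
  have hZ0 : (0 : ℝ) < Z := hnum.Zp
  have hX16 : 16 ≤ Z / 2 := by omega
  have hZ32 : 32 ≤ Z := by omega
  have hsZ := sqrt_Z' hZ32
  have hsX0 : 0 < Real.sqrt ((Z / 2 : ℕ) : ℝ) := Real.sqrt_pos.2 (by exact_mod_cast (by omega : 0 < Z / 2))
  have hsZ0 : 0 < Real.sqrt Z := Real.sqrt_pos.2 hZ0
  have hcard : (R.card : ℝ) ≤ a * Real.sqrt Z := card_RR hCL ht0 hJ
  have hRX : ∀ p ∈ R, p.Prime ∧ Z / 2 < p := by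
    intro p hp
    refine ⟨hprime p hp, ?_⟩
    have h1 := hnum.low hCL hp
    have h2 : ((Z / 2 : ℕ) : ℝ) ≤ Z / 2 := Nat.cast_div_le
    have h3 : ((Z / 2 : ℕ) : ℝ) < p := by linarith
    exact_mod_cast h3
  have hratio : (R.card : ℝ) / Real.sqrt ((Z / 2 : ℕ) : ℝ) ≤ 2 * a := by
    rw [div_le_iff₀ hsX0]
    calc (R.card : ℝ) ≤ a * Real.sqrt Z := hcard
      _ ≤ a * (2 * Real.sqrt ((Z / 2 : ℕ) : ℝ)) := mul_le_mul_of_nonneg_left hsZ ha0
      _ = _ := by ring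
  -- the error of the first step
  have herr : μ * (2 * R.card / ((Z / 2 : ℕ) : ℝ)) * Real.exp (5 * R.card / Real.sqrt ((Z / 2 : ℕ) : ℝ)) ≤ 1 / 3 := by
    have h1 : Real.exp (5 * R.card / Real.sqrt ((Z / 2 : ℕ) : ℝ)) ≤ Real.exp (10 * a) := by
      refine Real.exp_le_exp.2 ?_
      rw [mul_div_assoc]
      linarith
    have h2 : 36 * μ * a * Real.exp (10 * a) ≤ Real.sqrt Z := by
      refine Real.le_sqrt_of_sq_le (hZ₃.trans ?_)
      exact_mod_cast (by omega : Z₃ ≤ Z)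
    have h3 : 2 * (R.card : ℝ) / ((Z / 2 : ℕ) : ℝ) ≤ 8 * a / Real.sqrt Z := by
      have h4 : (0 : ℝ) < ((Z / 2 : ℕ) : ℝ) := by exact_mod_cast (by omega : 0 < Z / 2)
      have h5 : (Z : ℝ) ≤ 4 * ((Z / 2 : ℕ) : ℝ) := by exact_mod_cast (by omega : Z ≤ 4 * (Z / 2))
      rw [div_le_div_iff₀ h4 hsZ0]
      have h6 : Real.sqrt Z * Real.sqrt Z = Z := Real.mul_self_sqrt hZ0.le
      calc 2 * (R.card : ℝ) * Real.sqrt Z ≤ 2 * (a * Real.sqrt Z) * Real.sqrt Z :=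
            mul_le_mul_of_nonneg_right (by linarith) hsZ0.le
        _ = 2 * a * (Real.sqrt Z * Real.sqrt Z) := by ring
        _ = 2 * a * Z := by rw [h6]
        _ ≤ 2 * a * (4 * ((Z / 2 : ℕ) : ℝ)) := mul_le_mul_of_nonneg_left h5 (by positivity)
        _ = _ := by ring
    have h7 : μ * (2 * R.card / ((Z / 2 : ℕ) : ℝ)) ≤ μ * (8 * a / Real.sqrt Z) := mul_le_mul_of_nonneg_left h3 hμ
    refine (mul_le_mul h7 h1 (Real.exp_pos _).le (by positivity)).trans ?_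
    rw [show μ * (8 * a / Real.sqrt Z) * Real.exp (10 * a) = 8 * (μ * a * Real.exp (10 * a)) / Real.sqrt Z by ring,
      div_le_iff₀ hsZ0]
    have h8 : 0 ≤ μ * a * Real.exp (10 * a) := by positivity
    nlinarith
  -- the approximation of both functions
  have happ : ∀ (Φ : (ℕ → ℤ) → ℕ → ℝ) (hφ : ℕ → ℝ), SumOp Φ → Fam μ T (Φ f) hφ → ∀ x : ℕ,
      |Φ (flipS f R) x - (Φ f x + mE K hφ t h J Z A₀ x)| ≤ 1 * Real.sqrt x := by
    intro Φ hφ hS hF x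
    have g1 := flip_mainG hS f hf R (Z / 2) hX16 hRX μ hF.nm x
    have g2 := (hcore u A B hCL (Φ f) hφ hF).1 x (Nat.cast_nonneg x)
    have g3 := (hcore u A B hCL (Φ f) hφ hF).2 x
    have g4 : mainG (Φ f) (fun p => -2 * (f p : ℝ)) R x = mn u (Φ f) R x := rfl
    rw [g4] at g1
    have g5 := g1.trans (mul_le_mul_of_nonneg_right herr (Real.sqrt_nonneg _))
    have e1 : Φ (flipS f R) x - (Φ f x + mE K hφ t h J Z A₀ x) = (Φ (flipS f R) x - mn u (Φ f) R x) +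
        (mn u (Φ f) R x - Φ f x - E1 u (Φ f) R x) + (E1 u (Φ f) R x - mE K hφ t h J Z A₀ x) := by ring
    rw [e1]
    refine (abs_add_le _ _).trans ((add_le_add (abs_add_le _ _) le_rfl).trans ?_)
    linarith
  have hap1 := happ Mf _ sumOp_M FM
  have hap2 := happ Helper66.GL.Lf _ sumOp_L FL
  have hε8 : 0 ≤ ε / 8 := by positivity
  have htε : 2 * t * (ε / 8) = 2 * (μ + 1) := by
    rw [ht]
    field_simp
  obtain ⟨n, μ', hn, hμ', hμ2, hatt, hθ'⟩ := spike_max (t := t) (h := h) (J := J) (Z := Z) (Q := Q) ht00 h0 h18 hJ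
    hnum.Z0 hQ
  have hμ8 : 8 * (μ + 1) ≤ ε * μ' := by
    rw [ht, div_le_iff₀ hε] at hμ'
    linarith
  have hμ1 : 2 ≤ μ' := by
    refine le_trans ?_ hμ'
    rw [ht, le_div_iff₀ hε]
    linarith
  -- one function
  have hone : ∀ (Φ : (ℕ → ℤ) → ℕ → ℝ) (hφ : ℕ → ℝ) (w : ℝ), Fam μ T (Φ f) hφ →
      (∀ x : ℕ, |Φ (flipS f R) x - (Φ f x + mE K hφ t h J Z A₀ x)| ≤ 1 * Real.sqrt x) →
      (∀ a : ℕ, 1 ≤ a → |cv K hφ a - (if a = Q then w * Real.sqrt Q else 0)| ≤ ε / 8 * Real.sqrt a) → ∀ x : ℕ,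
      |Φ (flipS f R) x - w * (t * Real.sqrt Z * Real.sqrt Q * Sp h J (x / (Q * Z)))| ≤ ε * μ' * Real.sqrt x := by
    intro Φ hφ w hF hap hpt x
    have g1 := hF.nm x
    have g2 := hap x
    have g3 := mE_near (J := J) ht0 h0.le h18 hA8 hnum.Z0 hε8 hQ hQA hpt (x : ℝ)
    rw [htε] at g3
    have g4 := Real.sqrt_nonneg (x : ℝ)
    have e1 : Φ (flipS f R) x - w * (t * Real.sqrt Z * Real.sqrt Q * Sp h J (x / (Q * Z))) =
        (Φ (flipS f R) x - (Φ f x + mE K hφ t h J Z A₀ x)) + Φ f x +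
        (mE K hφ t h J Z A₀ x - w * (t * Real.sqrt Z * Real.sqrt Q * Sp h J (x / (Q * Z)))) := by ring
    rw [e1]
    refine (abs_add_le _ _).trans ((add_le_add (abs_add_le _ _) le_rfl).trans ?_)
    have g5 : 8 * (μ + 1) * Real.sqrt x ≤ ε * μ' * Real.sqrt x := mul_le_mul_of_nonneg_right hμ8 g4
    nlinarith
  refine ⟨Z / 2, R, μ', n, by omega, hRX, fun y => ?_, hμ2, hn, hμ1, fun x => ?_, ?_, ?_⟩
  · rcases lt_or_ge y (Z / 2) with h1 | h1
    · have h2 : R.filter (fun p => p ≤ y) = ∅ := by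
        rw [Finset.filter_eq_empty_iff]
        intro p hp h3
        have := (hRX p hp).2
        omega
      rw [h2, Finset.card_empty, Nat.cast_zero]
      rcases Nat.eq_zero_or_pos y with h3 | h3
      · subst h3
        simp
      · have : 0 ≤ Real.log y := Real.log_nonneg (by exact_mod_cast h3)
        positivity
    · have h2 : ((R.filter (fun p => p ≤ y)).card : ℝ) ≤ R.card := by
        exact_mod_cast Finset.card_filter_le _ _
      have h3 : Real.sqrt ((Z / 2 : ℕ) : ℝ) ≤ Real.sqrt y := Real.sqrt_le_sqrt (by exact_mod_cast h1)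
      have h4 : 2 * a ≤ Real.log y := by
        have h5 : Real.exp (2 * a) ≤ y := by
          refine hZ₄.trans ?_
          exact_mod_cast (by omega : Z₄ ≤ y)
        rwa [Real.le_log_iff_exp_le ((Real.exp_pos _).trans_le h5)]
      refine h2.trans (hcard.trans ?_)
      calc a * Real.sqrt Z ≤ a * (2 * Real.sqrt ((Z / 2 : ℕ) : ℝ)) := mul_le_mul_of_nonneg_left hsZ ha0
        _ = Real.sqrt ((Z / 2 : ℕ) : ℝ) * (2 * a) := by ring
        _ ≤ Real.sqrt y * (2 * a) := mul_le_mul_of_nonneg_right h3 (by positivity)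
        _ ≤ Real.sqrt y * Real.log y := mul_le_mul_of_nonneg_left h4 (Real.sqrt_nonneg _)
  · obtain ⟨θ', h1, h2, h3⟩ := hθ' x
    refine ⟨θ', h1, h2, ?_, ?_⟩
    · have := hone Mf _ u₀ FM hap1 hpM x
      rw [h3] at this
      rw [show θ' * u₀ * μ' * Real.sqrt x = u₀ * (θ' * μ' * Real.sqrt x) by ring]
      exact this
    · have := hone Helper66.GL.Lf _ v₀ FL hap2 hpL x
      rw [h3] at this
      rw [show θ' * v₀ * μ' * Real.sqrt x = v₀ * (θ' * μ' * Real.sqrt x) by ring]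
      exact this
  · have := hone Mf _ u₀ FM hap1 hpM n
    rw [hatt] at this
    rw [mul_assoc u₀]
    exact this
  · have := hone Helper66.GL.Lf _ v₀ FL hap2 hpL n
    rw [hatt] at this
    rw [mul_assoc v₀]
    exact this

/-- The preliminary stage in an arbitrary direction. -/
theorem pre2 (f : ℕ → ℤ) (hf : ∀ n, f n = 1 ∨ f n = -1) (hM : ClG (Mf f)) (hL : ClG (Helper66.GL.Lf f)) (hR : Ric f)
    (u v : ℝ) (ε : ℝ) (hε : 0 < ε) : ∃ T₀ : ℝ, ∀ X₀ : ℕ,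
      ∃ (X : ℕ) (R : Finset ℕ) (μ : ℝ) (n : ℕ), X₀ ≤ X ∧ (∀ p ∈ R, p.Prime ∧ X < p) ∧
      (∀ y : ℕ, ((R.filter (fun p => p ≤ y)).card : ℝ) ≤ Real.sqrt y * Real.log y) ∧ μ ≤ T₀ ∧
      Peak2 (Mf (flipS f R)) (Helper66.GL.Lf (flipS f R)) u v ε μ n := by
  obtain ⟨T₀, hT₀⟩ := pre2_small f hf hM hL hR u v (min ε 1) (lt_min hε one_pos) (min_le_right _ _)
  refine ⟨T₀, fun X₀ => ?_⟩
  obtain ⟨X, R, μ, n, h1, h2, h3, h4, h5, h6, h7, h8, h9⟩ := hT₀ X₀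
  have g : ∀ x : ℕ, min ε 1 * μ * Real.sqrt x ≤ ε * μ * Real.sqrt x := fun x =>
    mul_le_mul_of_nonneg_right (mul_le_mul_of_nonneg_right (min_le_left _ _) (zero_le_two.trans h6))
      (Real.sqrt_nonneg _)
  refine ⟨X, R, μ, n, h1, h2, h3, h4, h5, h6, fun x => ?_, h8.trans (g n), h9.trans (g n)⟩
  obtain ⟨θ, g1, g2, g3, g4⟩ := h7 x
  exact ⟨θ, g1, g2, g3.trans (g x), g4.trans (g x)⟩

end Pool.Agent.Helper96.QC
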