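import Pool.Agent.Helper96.QC.Defs

/-!
Project JC / QC (MP_a499ba_nt), block QC-4: the clusters.

`Dn f`: primes of both signs in all windows `[Y, (1 + θ) Y]`. `clus`: for `Z` large every window contains enough primes
(`nk t (K k) J Z ≤ t |K k| √Z ≤ (Z / 2)^{2/3}` for `Z` large, finitely many `k, j`); take subsets of the right
cardinality; `f p = -sg (K k)` for `A`, `f p = sg (K k)` for `B`.
`sum_RR`: the windows are pairwise disjoint: `(1 - h_j)(1 + θ) < 1 - h_{j'}` for `j < j'`, `(1 + h_{j'})(1 + θ) < 1 + h_j`, and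
`k (1 + h)(1 + θ) < (k + 1)(1 - h)`.
-/

set_option autoImplicit false

namespace Pool.Agent.Helper96.QC

open Finset

/-- Primes of both signs in all windows. -/
def Dn (f : ℕ → ℤ) : Prop := ∀ θ : ℝ, 0 < θ → ∀ e : ℤ, (e = 1 ∨ e = -1) → ∃ Y₀ : ℝ, ∀ Y : ℝ, Y₀ ≤ Y →
  ∃ S : Finset ℕ, Y ^ ((2 : ℝ) / 3) ≤ (S.card : ℝ) ∧
    ∀ p ∈ S, p.Prime ∧ f p = e ∧ Y ≤ (p : ℝ) ∧ (p : ℝ) ≤ Y * (1 + θ)

private theorem sg_cases30 (x : ℝ) : sg x = 1 ∨ sg x = -1 := by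
  unfold sg
  split_ifs
  · exact Or.inl rfl
  · exact Or.inr rfl

private theorem hj_pos30 {h : ℝ} (h0 : 0 < h) (j : ℕ) : 0 < hj h j := by
  unfold hj
  positivity

private theorem hj_le30 {h : ℝ} (h0 : 0 < h) (j : ℕ) : hj h j ≤ h := by
  unfold hj
  exact div_le_self h0.le (one_le_pow₀ (by norm_num))

private theorem nk_le30 {t K : ℝ} {J Z : ℕ} (ht : 0 ≤ t) : (nk t K J Z : ℝ) ≤ t * |K| * Real.sqrt Z / (2 * J) := by
  unfold nk
  exact Nat.floor_le (by positivity)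

theorem clus (f : ℕ → ℤ) (hD : Dn f) (K : ℕ → ℝ) (N : ℕ) {t h θ : ℝ} (ht : 0 ≤ t) (h0 : 0 < h) (h1 : h ≤ 1 / 8)
    (hθ : 0 < θ) {J : ℕ} (hJ : 0 < J) : ∃ Z₀ : ℕ, ∀ Z : ℕ, Z₀ ≤ Z → ∃ A B : ℕ → ℕ → Finset ℕ,
      CL K N t h θ J Z (fun p => -2 * (f p : ℝ)) A B ∧ ∀ p ∈ RR N J A B, p.Prime := by
  have hex : ∃ Y₀ : ℝ, ∀ e : ℤ, (e = 1 ∨ e = -1) → ∀ Y : ℝ, Y₀ ≤ Y → ∃ S : Finset ℕ,
      Y ^ ((2 : ℝ) / 3) ≤ (S.card : ℝ) ∧ ∀ p ∈ S, p.Prime ∧ f p = e ∧ Y ≤ (p : ℝ) ∧ (p : ℝ) ≤ Y * (1 + θ) := by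
    obtain ⟨Y₁, hY₁⟩ := hD θ hθ 1 (Or.inl rfl)
    obtain ⟨Y₂, hY₂⟩ := hD θ hθ (-1) (Or.inr rfl)
    refine ⟨max Y₁ Y₂, fun e he Y hY => ?_⟩
    rcases he with he | he
    · subst he
      exact hY₁ Y ((le_max_left _ _).trans hY)
    · subst he
      exact hY₂ Y ((le_max_right _ _).trans hY)
  obtain ⟨Y₀, hY₀⟩ := hex
  obtain ⟨C, hC⟩ : ∃ C : ℝ, C = t * nrm K N := ⟨_, rfl⟩
  have hn0 : 0 ≤ nrm K N := by
    unfold nrm
    exact sum_nonneg fun k _ => abs_nonneg _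
  have hC0 : 0 ≤ C := by
    rw [hC]
    positivity
  obtain ⟨Z₀, hZ₀⟩ := exists_nat_ge (max (max 1 (2 * Y₀)) (2 * (2 * C) ^ 6))
  refine ⟨Z₀, fun Z hZ => ?_⟩
  have hZr : (Z₀ : ℝ) ≤ Z := by exact_mod_cast hZ
  have hZ1 : (1 : ℝ) ≤ Z := ((le_max_left _ _).trans ((le_max_left _ _).trans hZ₀)).trans hZr
  have hZ2 : 2 * Y₀ ≤ Z := ((le_max_right _ _).trans ((le_max_left _ _).trans hZ₀)).trans hZr
  have hZ3 : 2 * (2 * C) ^ 6 ≤ Z := ((le_max_right _ _).trans hZ₀).trans hZr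
  obtain ⟨X, hX⟩ : ∃ X : ℝ, X = Z / 2 := ⟨_, rfl⟩
  have hX0 : 0 < X := by rw [hX]; positivity
  have hbound : C * Real.sqrt Z ≤ X ^ ((2 : ℝ) / 3) := by
    have e1 : X ^ ((2 : ℝ) / 3) = Real.sqrt X * X ^ ((1 : ℝ) / 6) := by
      rw [Real.sqrt_eq_rpow, ← Real.rpow_add hX0]
      norm_num
    have e2 : 2 * C ≤ X ^ ((1 : ℝ) / 6) := by
      have e3 : ((2 * C) ^ 6 : ℝ) ≤ X := by rw [hX]; linarith
      have e4 : 2 * C = ((2 * C) ^ 6 : ℝ) ^ ((1 : ℝ) / 6) := by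
        rw [← Real.rpow_natCast, ← Real.rpow_mul (by positivity)]
        norm_num
      rw [e4]
      exact Real.rpow_le_rpow (by positivity) e3 (by norm_num)
    have e5 : Real.sqrt Z ≤ 2 * Real.sqrt X := by
      have e6 : (2 : ℝ) * Real.sqrt X = Real.sqrt (4 * X) := by
        rw [Real.sqrt_mul (by norm_num), show (4 : ℝ) = 2 ^ 2 by norm_num, Real.sqrt_sq (by norm_num)]
      rw [e6]
      exact Real.sqrt_le_sqrt (by rw [hX]; linarith)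
    calc C * Real.sqrt Z ≤ C * (2 * Real.sqrt X) := mul_le_mul_of_nonneg_left e5 hC0
      _ = Real.sqrt X * (2 * C) := by ring
      _ ≤ Real.sqrt X * X ^ ((1 : ℝ) / 6) := mul_le_mul_of_nonneg_left e2 (Real.sqrt_nonneg _)
      _ = X ^ ((2 : ℝ) / 3) := e1.symm
  have hJ' : (1 : ℝ) ≤ J := by exact_mod_cast hJ
  have key : ∀ k ∈ Icc 1 N, ∀ e : ℤ, (e = 1 ∨ e = -1) → ∀ Y : ℝ, X ≤ Y → ∃ S : Finset ℕ, S.card = nk t (K k) J Z ∧
      ∀ p ∈ S, p.Prime ∧ f p = e ∧ Y ≤ (p : ℝ) ∧ (p : ℝ) ≤ Y * (1 + θ) := by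
    intro k hk e he Y hY
    obtain ⟨S, hS1, hS2⟩ := hY₀ e he Y (by rw [hX] at hY; linarith)
    have hcard : nk t (K k) J Z ≤ S.card := by
      have g1 : |K k| ≤ nrm K N := by
        unfold nrm
        exact single_le_sum (f := fun k => |K k|) (fun i _ => abs_nonneg _) hk
      have g2 : (nk t (K k) J Z : ℝ) ≤ S.card := by
        calc (nk t (K k) J Z : ℝ) ≤ t * |K k| * Real.sqrt Z / (2 * J) := nk_le30 ht
          _ ≤ t * |K k| * Real.sqrt Z := div_le_self (by positivity) (by linarith)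
          _ ≤ C * Real.sqrt Z := by
            rw [hC]
            gcongr
          _ ≤ X ^ ((2 : ℝ) / 3) := hbound
          _ ≤ Y ^ ((2 : ℝ) / 3) := Real.rpow_le_rpow hX0.le hY (by norm_num)
          _ ≤ S.card := hS1
      exact_mod_cast g2
    obtain ⟨S', hS', hc⟩ := exists_subset_card_eq hcard
    exact ⟨S', hc, fun p hp => hS2 p (hS' hp)⟩
  have hYA : ∀ k ∈ Icc 1 N, ∀ j : ℕ, X ≤ (k : ℝ) * Z * (1 - hj h j) := by
    intro k hk j
    have g1 : (1 : ℝ) ≤ k := by exact_mod_cast (mem_Icc.1 hk).1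
    have g2 := hj_le30 h0 j
    have g3 : (1 : ℝ) / 2 ≤ 1 - hj h j := by linarith
    have g4 : (Z : ℝ) ≤ k * Z := by nlinarith
    calc X = Z * (1 / 2) := by rw [hX]; ring
      _ ≤ (k : ℝ) * Z * (1 - hj h j) := mul_le_mul g4 g3 (by norm_num) (by linarith)
  have hYB : ∀ k ∈ Icc 1 N, ∀ j : ℕ, X ≤ (k : ℝ) * Z * (1 + hj h j) := by
    intro k hk j
    refine (hYA k hk j).trans ?_
    have g2 := hj_pos30 h0 j
    exact mul_le_mul_of_nonneg_left (by linarith) (by positivity)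
  have exA : ∀ k j : ℕ, ∃ S : Finset ℕ, k ∈ Icc 1 N → (S.card = nk t (K k) J Z ∧
      ∀ p ∈ S, p.Prime ∧ (f p : ℝ) = -sg (K k) ∧ (k : ℝ) * Z * (1 - hj h j) ≤ (p : ℝ) ∧
        (p : ℝ) ≤ (k : ℝ) * Z * (1 - hj h j) * (1 + θ)) := by
    intro k j
    by_cases hk : k ∈ Icc 1 N
    · rcases sg_cases30 (K k) with hs | hs
      · obtain ⟨S, g1, g2⟩ := key k hk (-1) (Or.inr rfl) _ (hYA k hk j)
        refine ⟨S, fun _ => ⟨g1, fun p hp => ⟨(g2 p hp).1, ?_, (g2 p hp).2.2⟩⟩⟩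
        rw [(g2 p hp).2.1, hs]
        norm_num
      · obtain ⟨S, g1, g2⟩ := key k hk 1 (Or.inl rfl) _ (hYA k hk j)
        refine ⟨S, fun _ => ⟨g1, fun p hp => ⟨(g2 p hp).1, ?_, (g2 p hp).2.2⟩⟩⟩
        rw [(g2 p hp).2.1, hs]
        norm_num
    · exact ⟨∅, fun h => absurd h hk⟩
  have exB : ∀ k j : ℕ, ∃ S : Finset ℕ, k ∈ Icc 1 N → (S.card = nk t (K k) J Z ∧
      ∀ p ∈ S, p.Prime ∧ (f p : ℝ) = sg (K k) ∧ (k : ℝ) * Z * (1 + hj h j) ≤ (p : ℝ) ∧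
        (p : ℝ) ≤ (k : ℝ) * Z * (1 + hj h j) * (1 + θ)) := by
    intro k j
    by_cases hk : k ∈ Icc 1 N
    · rcases sg_cases30 (K k) with hs | hs
      · obtain ⟨S, g1, g2⟩ := key k hk 1 (Or.inl rfl) _ (hYB k hk j)
        refine ⟨S, fun _ => ⟨g1, fun p hp => ⟨(g2 p hp).1, ?_, (g2 p hp).2.2⟩⟩⟩
        rw [(g2 p hp).2.1, hs]
        norm_num
      · obtain ⟨S, g1, g2⟩ := key k hk (-1) (Or.inr rfl) _ (hYB k hk j)
        refine ⟨S, fun _ => ⟨g1, fun p hp => ⟨(g2 p hp).1, ?_, (g2 p hp).2.2⟩⟩⟩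
        rw [(g2 p hp).2.1, hs]
        norm_num
    · exact ⟨∅, fun h => absurd h hk⟩
  choose A hA using exA
  choose B hB using exB
  refine ⟨A, B, ⟨?_, ?_, ?_, ?_⟩, ?_⟩
  · intro k hk j _ p hp
    obtain ⟨_, g2, g3, g4⟩ := (hA k j hk).2 p hp
    refine ⟨g3, g4, ?_⟩
    rw [g2]
    ring
  · intro k hk j _ p hp
    obtain ⟨_, g2, g3, g4⟩ := (hB k j hk).2 p hp
    refine ⟨g3, g4, ?_⟩
    rw [g2]
    ring
  · exact fun k hk j _ => (hA k j hk).1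
  · exact fun k hk j _ => (hB k j hk).1
  · intro p hp
    unfold RR at hp
    obtain ⟨k, hk, hp⟩ := mem_biUnion.1 hp
    obtain ⟨j, _, hp⟩ := mem_biUnion.1 hp
    rcases mem_union.1 hp with hp | hp
    · exact ((hA k j hk).2 p hp).1
    · exact ((hB k j hk).2 p hp).1

variable {K : ℕ → ℝ} {N : ℕ} {t h θ : ℝ} {J Z : ℕ} {u : ℕ → ℝ} {A B : ℕ → ℕ → Finset ℕ}

private theorem mem_RR30 {p : ℕ} : p ∈ RR N J A B ↔ ∃ k ∈ Icc 1 N, ∃ j < J, p ∈ A k j ∨ p ∈ B k j := by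
  unfold RR
  simp only [mem_biUnion, mem_union, mem_range]

/-- All elements are between `Z / 2` and `2 N Z`. -/
theorem mem_RR (hC : CL K N t h θ J Z u A B) (h0 : 0 < h) (h1 : h ≤ 1 / 8) (hθ0 : 0 ≤ θ) (hθ1 : θ ≤ 1 / 8) {p : ℕ}
    (hp : p ∈ RR N J A B) : (Z : ℝ) * (1 - h) ≤ p ∧ (p : ℝ) ≤ 2 * N * Z := by
  obtain ⟨k, hk, j, hjJ, hp⟩ := mem_RR30.1 hp
  have g1 : (1 : ℝ) ≤ k := by exact_mod_cast (mem_Icc.1 hk).1
  have g2 : (k : ℝ) ≤ N := by exact_mod_cast (mem_Icc.1 hk).2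
  have g3 := hj_pos30 h0 j
  have g4 := hj_le30 h0 j
  have hZ : (0 : ℝ) ≤ Z := Nat.cast_nonneg Z
  have g5 : (Z : ℝ) ≤ k * Z := by nlinarith
  have g6 : (k : ℝ) * Z ≤ N * Z := mul_le_mul_of_nonneg_right g2 hZ
  rcases hp with hp | hp
  · obtain ⟨a1, a2, _⟩ := hC.mA k hk j hjJ p hp
    constructor
    · exact (mul_le_mul g5 (by linarith) (by linarith) (by positivity)).trans a1
    · refine a2.trans ?_
      calc (k : ℝ) * Z * (1 - hj h j) * (1 + θ) ≤ N * Z * 1 * 2 := by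
            gcongr
            · linarith
            · linarith
            · linarith
        _ = 2 * N * Z := by ring
  · obtain ⟨a1, a2, _⟩ := hC.mB k hk j hjJ p hp
    constructor
    · exact (mul_le_mul g5 (by linarith) (by linarith) (by positivity)).trans a1
    · refine a2.trans ?_
      calc (k : ℝ) * Z * (1 + hj h j) * (1 + θ) ≤ N * Z * (9 / 8) * (9 / 8) := by
            gcongr
            · linarith
            · linarith
        _ ≤ 2 * N * Z := by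
            have : (0 : ℝ) ≤ N * Z := by positivity
            linarith

theorem abs_u (hC : CL K N t h θ J Z u A B) {p : ℕ} (hp : p ∈ RR N J A B) : |u p| = 2 := by
  obtain ⟨k, hk, j, hjJ, hp⟩ := mem_RR30.1 hp
  rcases hp with hp | hp
  · rw [(hC.mA k hk j hjJ p hp).2.2]
    rcases sg_cases30 (K k) with hs | hs <;> rw [hs] <;> norm_num
  · rw [(hC.mB k hk j hjJ p hp).2.2]
    rcases sg_cases30 (K k) with hs | hs <;> rw [hs] <;> norm_num

private theorem hj_lt30 (h0 : 0 < h) {i j : ℕ} (hij : i < j) : 8 * hj h j ≤ hj h i := by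
  unfold hj
  rw [← mul_div_assoc, div_le_div_iff₀ (by positivity) (by positivity)]
  have g1 : (8 : ℝ) ^ (i + 1) ≤ 8 ^ j := pow_le_pow_right₀ (by norm_num) hij
  calc 8 * h * 8 ^ i = h * 8 ^ (i + 1) := by ring
    _ ≤ h * 8 ^ j := mul_le_mul_of_nonneg_left g1 h0.le

private theorem th_le30 (hθ0 : 0 ≤ θ) (hθ : 100 * θ * 8 ^ J ≤ h) {j : ℕ} (hj' : j < J) : 100 * θ ≤ hj h j := by
  unfold hj
  rw [le_div_iff₀ (by positivity)]
  refine le_trans ?_ hθ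
  exact mul_le_mul_of_nonneg_left (pow_le_pow_right₀ (by norm_num) hj'.le) (by positivity)

/-- The windows of `k` are inside `[k Z (1 - h), k Z (1 + h) (1 + θ)]`. -/
private theorem win30 (hC : CL K N t h θ J Z u A B) (h0 : 0 < h) (hθ0 : 0 ≤ θ) {k j p : ℕ} (hk : k ∈ Icc 1 N)
    (hj' : j < J) (hp : p ∈ A k j ∪ B k j) : (k : ℝ) * Z * (1 - h) ≤ p ∧ (p : ℝ) ≤ k * Z * (1 + h) * (1 + θ) := by
  have g3 := hj_pos30 h0 j
  have g4 := hj_le30 h0 j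
  rcases mem_union.1 hp with hp | hp
  · obtain ⟨a1, a2, _⟩ := hC.mA k hk j hj' p hp
    constructor
    · exact le_trans (mul_le_mul_of_nonneg_left (by linarith) (by positivity)) a1
    · refine a2.trans (mul_le_mul_of_nonneg_right (mul_le_mul_of_nonneg_left (by linarith) (by positivity)) (by linarith))
  · obtain ⟨a1, a2, _⟩ := hC.mB k hk j hj' p hp
    constructor
    · exact le_trans (mul_le_mul_of_nonneg_left (by linarith) (by positivity)) a1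
    · refine a2.trans (mul_le_mul_of_nonneg_right (mul_le_mul_of_nonneg_left (by linarith) (by positivity)) (by linarith))

private theorem disj_k30 (hC : CL K N t h θ J Z u A B) (h0 : 0 < h) (h1 : 8 * N * h ≤ 1) (hθ0 : 0 ≤ θ)
    (hθ : 100 * θ * 8 ^ J ≤ h) (hZ : 0 < Z) {k k' j j' p : ℕ} (hk : k ∈ Icc 1 N) (hk' : k' ∈ Icc 1 N)
    (hj1 : j < J) (hj2 : j' < J) (hlt : k < k') (hp : p ∈ A k j ∪ B k j) (hp' : p ∈ A k' j' ∪ B k' j') : False := by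
  have e1 := (win30 hC h0 hθ0 hk hj1 hp).2
  have e2 := (win30 hC h0 hθ0 hk' hj2 hp').1
  have g1 : (1 : ℝ) ≤ k := by exact_mod_cast (mem_Icc.1 hk).1
  have g2 : (k : ℝ) ≤ N := by exact_mod_cast (mem_Icc.1 hk).2
  have g3 : (k : ℝ) + 1 ≤ k' := by exact_mod_cast hlt
  have hZ0 : (0 : ℝ) < Z := by exact_mod_cast hZ
  have kh : (k : ℝ) * h ≤ 1 / 8 := by
    have := mul_le_mul_of_nonneg_right g2 h0.le
    linarith
  have hh : h ≤ 1 / 8 := by
    have := mul_le_mul_of_nonneg_right g1 h0.le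
    linarith
  have ht1 : 100 * θ ≤ h := by
    refine le_trans ?_ hθ
    have : (1 : ℝ) ≤ 8 ^ J := one_le_pow₀ (by norm_num)
    nlinarith
  have e3 : ((k : ℝ) + 1) * Z * (1 - h) ≤ k * Z * (1 + h) * (1 + θ) := by
    refine le_trans ?_ (e2.trans e1)
    exact mul_le_mul_of_nonneg_right (mul_le_mul_of_nonneg_right g3 hZ0.le) (by linarith)
  have e4 : ((k : ℝ) + 1) * (1 - h) ≤ k * (1 + h) * (1 + θ) := by
    have e5 : ((k : ℝ) + 1) * (1 - h) * Z ≤ k * (1 + h) * (1 + θ) * Z := by linarith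
    exact le_of_mul_le_mul_right e5 hZ0
  have e6 : (k : ℝ) * θ ≤ k * h / 100 := by
    have := mul_le_mul_of_nonneg_left ht1 (by linarith : (0 : ℝ) ≤ k)
    linarith
  have e7 : (k : ℝ) * h * θ ≤ 1 / 8 * θ := mul_le_mul_of_nonneg_right kh hθ0
  have e8 : θ ≤ 1 / 100 := by linarith
  nlinarith

private theorem disj_j30 (hC : CL K N t h θ J Z u A B) (h0 : 0 < h) (h1 : h ≤ 1 / 8) (hθ0 : 0 ≤ θ)
    (hθ : 100 * θ * 8 ^ J ≤ h) (hZ : 0 < Z) {k j j' p : ℕ} (hk : k ∈ Icc 1 N)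
    (hj1 : j < J) (hj2 : j' < J) (hlt : j < j') (hp : p ∈ A k j ∪ B k j) (hp' : p ∈ A k j' ∪ B k j') : False := by
  have g1 : (1 : ℝ) ≤ k := by exact_mod_cast (mem_Icc.1 hk).1
  have hZ0 : (0 : ℝ) < Z := by exact_mod_cast hZ
  have hkZ : (0 : ℝ) < k * Z := by positivity
  have a1 := hj_pos30 h0 j
  have a2 := hj_pos30 h0 j'
  have a3 := hj_le30 h0 j
  have a4 := hj_lt30 h0 hlt
  have a5 := th_le30 hθ0 hθ hj1
  have a6 := th_le30 hθ0 hθ hj2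
  have hjt : hj h j * θ ≤ hj h j / 100 := by nlinarith
  have hjt' : hj h j' * θ ≤ hj h j' / 100 := by nlinarith
  have canc : ∀ a b : ℝ, (k : ℝ) * Z * a ≤ (k : ℝ) * Z * b → a ≤ b := fun a b hab => le_of_mul_le_mul_left hab hkZ
  rcases mem_union.1 hp with hp | hp <;> rcases mem_union.1 hp' with hp' | hp'
  · have b1 := (hC.mA k hk j hj1 p hp).2.1
    have b2 := (hC.mA k hk j' hj2 p hp').1
    have b3 := canc _ _ ((b2.trans b1).trans_eq (mul_assoc _ _ _))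
    nlinarith
  · have b1 := (hC.mA k hk j hj1 p hp).2.1
    have b2 := (hC.mB k hk j' hj2 p hp').1
    have b3 := canc _ _ ((b2.trans b1).trans_eq (mul_assoc _ _ _))
    nlinarith
  · have b1 := (hC.mB k hk j hj1 p hp).1
    have b2 := (hC.mA k hk j' hj2 p hp').2.1
    have b3 := canc _ _ ((b1.trans b2).trans_eq (mul_assoc _ _ _))
    nlinarith
  · have b1 := (hC.mB k hk j hj1 p hp).1
    have b2 := (hC.mB k hk j' hj2 p hp').2.1
    have b3 := canc _ _ ((b1.trans b2).trans_eq (mul_assoc _ _ _))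
    nlinarith

private theorem disj_ab30 (hC : CL K N t h θ J Z u A B) (h0 : 0 < h) (_h1 : h ≤ 1 / 8) (hθ0 : 0 ≤ θ)
    (hθ : 100 * θ * 8 ^ J ≤ h) (hZ : 0 < Z) {k j : ℕ} (hk : k ∈ Icc 1 N) (hj1 : j < J) :
    Disjoint (A k j) (B k j) := by
  rw [disjoint_left]
  intro p hp hp'
  have g1 : (1 : ℝ) ≤ k := by exact_mod_cast (mem_Icc.1 hk).1
  have hZ0 : (0 : ℝ) < Z := by exact_mod_cast hZ
  have hkZ : (0 : ℝ) < k * Z := by positivity
  have a1 := hj_pos30 h0 j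
  have a5 := th_le30 hθ0 hθ hj1
  have b1 := (hC.mA k hk j hj1 p hp).2.1
  have b2 := (hC.mB k hk j hj1 p hp').1
  have b3 := le_of_mul_le_mul_left ((b2.trans b1).trans_eq (mul_assoc _ _ _)) hkZ
  nlinarith [mul_nonneg a1.le hθ0]

theorem sum_RR (hC : CL K N t h θ J Z u A B) (hN : 1 ≤ N) (h0 : 0 < h) (h1 : 8 * N * h ≤ 1) (hθ0 : 0 ≤ θ)
    (hθ : 100 * θ * 8 ^ J ≤ h) (hZ : 0 < Z) (F : ℕ → ℝ) : ∑ p ∈ RR N J A B, F p =
      ∑ k ∈ Icc 1 N, ∑ j ∈ range J, (∑ p ∈ A k j, F p + ∑ p ∈ B k j, F p) := by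
  have hh : h ≤ 1 / 8 := by
    have g1 : (1 : ℝ) ≤ N := by exact_mod_cast hN
    have := mul_le_mul_of_nonneg_right g1 h0.le
    linarith
  unfold RR
  rw [sum_biUnion]
  · refine sum_congr rfl fun k hk => ?_
    rw [sum_biUnion]
    · refine sum_congr rfl fun j hj' => ?_
      exact sum_union (disj_ab30 hC h0 hh hθ0 hθ hZ hk (mem_range.1 hj'))
    · intro i hi j hj' hij
      rw [Function.onFun, disjoint_left]
      intro p hp hp'
      have hi1 : i < J := mem_range.1 hi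
      have hj1 : j < J := mem_range.1 hj'
      rcases Nat.lt_or_gt_of_ne hij with h2 | h2
      · exact disj_j30 hC h0 hh hθ0 hθ hZ hk hi1 hj1 h2 hp hp'
      · exact disj_j30 hC h0 hh hθ0 hθ hZ hk hj1 hi1 h2 hp' hp
  · intro k hk k' hk' hkk
    rw [Function.onFun, disjoint_left]
    intro p hp hp'
    obtain ⟨j, hj1, hp⟩ := mem_biUnion.1 hp
    obtain ⟨j', hj2, hp'⟩ := mem_biUnion.1 hp'
    rcases Nat.lt_or_gt_of_ne hkk with h2 | h2
    · exact disj_k30 hC h0 h1 hθ0 hθ hZ hk hk' (mem_range.1 hj1) (mem_range.1 hj2) h2 hp hp'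
    · exact disj_k30 hC h0 h1 hθ0 hθ hZ hk' hk (mem_range.1 hj2) (mem_range.1 hj1) h2 hp' hp

theorem card_RR (hC : CL K N t h θ J Z u A B) (ht : 0 ≤ t) (hJ : 0 < J) :
    ((RR N J A B).card : ℝ) ≤ t * nrm K N * Real.sqrt Z := by
  have hJ' : (0 : ℝ) < J := by exact_mod_cast hJ
  have e1 : (RR N J A B).card ≤ ∑ k ∈ Icc 1 N, ∑ j ∈ range J, (nk t (K k) J Z + nk t (K k) J Z) := by
    unfold RR
    refine card_biUnion_le.trans (sum_le_sum fun k hk => ?_)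
    refine card_biUnion_le.trans (sum_le_sum fun j hj' => ?_)
    refine (card_union_le _ _).trans ?_
    rw [hC.cA k hk j (mem_range.1 hj'), hC.cB k hk j (mem_range.1 hj')]
  have e2 : ((RR N J A B).card : ℝ) ≤ ∑ k ∈ Icc 1 N, ∑ j ∈ range J, ((nk t (K k) J Z : ℝ) + nk t (K k) J Z) := by
    exact_mod_cast e1
  refine e2.trans ?_
  calc ∑ k ∈ Icc 1 N, ∑ j ∈ range J, ((nk t (K k) J Z : ℝ) + nk t (K k) J Z)
      ≤ ∑ k ∈ Icc 1 N, t * |K k| * Real.sqrt Z := by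
        refine sum_le_sum fun k _ => ?_
        rw [sum_const, card_range, nsmul_eq_mul]
        have g1 : (nk t (K k) J Z : ℝ) ≤ t * |K k| * Real.sqrt Z / (2 * J) := nk_le30 ht
        calc (J : ℝ) * ((nk t (K k) J Z : ℝ) + nk t (K k) J Z)
            ≤ J * (t * |K k| * Real.sqrt Z / (2 * J) + t * |K k| * Real.sqrt Z / (2 * J)) := by gcongr
          _ = t * |K k| * Real.sqrt Z := by
            field_simp
            ring
    _ = t * nrm K N * Real.sqrt Z := by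
        unfold nrm
        rw [mul_sum, sum_mul]

end Pool.Agent.Helper96.QC
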