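import Pool.Agent.Helper96.QC.Defs

/-!
Project JC / QC (MP_a499ba_nt), block QC-2: the terms of order at least two of `mn`.

Proof in words. `Ψ_r(R')(x) = ∑_{T ⊆ R', |T| = r} (∏_{p ∈ T} u p) φ (x / ∏ T)`, so `mn = ∑_r Ψ_r`, `Ψ_0 = φ`, `Ψ_1 = E1`.
`2 Ψ_2(R)(x) = ∑_p u_p E1(x / p) - ∑_p u_p^2 φ(x / p^2)`, so `|Ψ_2(R)(x)| ≤ (η / 2 + 2 |R| μ / P) √x`; for `R' = R` minus `m`
elements `|Ψ_2(R')(x)| ≤ (η / 2 + 2 |R| μ / P + m · 4 |R| μ / P) √x` (the missing pairs, each at most `4 μ √x / P`).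
Recursion `r Ψ_r(R')(x) = ∑_{p ∈ R'} u_p Ψ_{r-1}(R' ∖ {p})(x / p)`; so with `a = 2 |R| / √P`, by induction on `r ≥ 2`,
`|Ψ_r(R')(x)| ≤ (2 a^{r-2} / r!) (η / 2 + 2 |R| μ / P + (m + r - 2) 4 |R| μ / P) √x` for `|R ∖ R'| ≤ m`. Sum over `r` with
`m = 0`: at most `e^a (η / 2 + 2 |R| μ / P + 4 |R| μ / P) √x`.
(`Nat.div_div_eq_div_mul`; `⌊(x : ℝ) / p⌋₊ = x / p`.)
-/

set_option autoImplicit false

namespace Pool.Agent.Helper96.QC

open Finset

private noncomputable def ps61 (u φ : ℕ → ℝ) (r : ℕ) (R : Finset ℕ) (x : ℕ) : ℝ :=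
  ∑ T ∈ R.powersetCard r, (∏ p ∈ T, u p) * φ (x / ∏ p ∈ T, p)

private theorem ps_rec61 (u φ : ℕ → ℝ) (r : ℕ) (R : Finset ℕ) (x : ℕ) :
    ((r : ℝ) + 1) * ps61 u φ (r + 1) R x = ∑ p ∈ R, u p * ps61 u φ r (R.erase p) (x / p) := by
  have h1 : ∑ p ∈ R, u p * ps61 u φ r (R.erase p) (x / p) =
      ∑ a ∈ R.sigma (fun p => (R.erase p).powersetCard r),
        (∏ p ∈ insert a.1 a.2, u p) * φ (x / ∏ p ∈ insert a.1 a.2, p) := by
    rw [sum_sigma]
    refine sum_congr rfl fun p _ => ?_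
    unfold ps61
    rw [mul_sum]
    refine sum_congr rfl fun T hT => ?_
    have hp : p ∉ T := by
      intro h
      have := (mem_powersetCard.mp hT).1 h
      exact (mem_erase.mp this).1 rfl
    rw [prod_insert hp, prod_insert hp, Nat.div_div_eq_div_mul, mul_assoc]
  have h2 : ((r : ℝ) + 1) * ps61 u φ (r + 1) R x =
      ∑ a ∈ (R.powersetCard (r + 1)).sigma (fun T => T),
        (∏ p ∈ a.1, u p) * φ (x / ∏ p ∈ a.1, p) := by
    rw [sum_sigma]
    unfold ps61
    rw [mul_sum]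
    refine sum_congr rfl fun T hT => ?_
    show _ = ∑ _s ∈ T, (∏ p ∈ T, u p) * φ (x / ∏ p ∈ T, p)
    rw [sum_const, (mem_powersetCard.mp hT).2, nsmul_eq_mul]
    push_cast
    ring
  rw [h1, h2]
  refine sum_bij' (fun a _ => ⟨a.2, a.1.erase a.2⟩) (fun a _ => ⟨insert a.1 a.2, a.1⟩) ?_ ?_ ?_ ?_ ?_
  · rintro ⟨T, p⟩ h
    simp only [mem_sigma, mem_powersetCard] at h ⊢
    refine ⟨h.1.1 h.2, fun a ha => ?_, ?_⟩
    · rw [mem_erase] at ha ⊢
      exact ⟨ha.1, h.1.1 ha.2⟩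
    · rw [card_erase_of_mem h.2, h.1.2]
      rfl
  · rintro ⟨p, T⟩ h
    simp only [mem_sigma, mem_powersetCard] at h ⊢
    have hp : p ∉ T := fun h' => (mem_erase.mp (h.2.1 h')).1 rfl
    refine ⟨⟨?_, ?_⟩, mem_insert_self _ _⟩
    · intro a ha
      rcases mem_insert.mp ha with rfl | ha
      · exact h.1
      · exact (mem_erase.mp (h.2.1 ha)).2
    · rw [card_insert_of_notMem hp, h.2.2]
  · rintro ⟨T, p⟩ h
    simp only [mem_sigma] at h
    simp only [insert_erase h.2]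
  · rintro ⟨p, T⟩ h
    simp only [mem_sigma, mem_powersetCard] at h
    have hp : p ∉ T := fun h' => (mem_erase.mp (h.2.1 h')).1 rfl
    simp only [erase_insert hp]
  · rintro ⟨T, p⟩ h
    simp only [mem_sigma] at h
    simp only [insert_erase h.2]

private theorem ps_zero61 (u φ : ℕ → ℝ) (R : Finset ℕ) (x : ℕ) : ps61 u φ 0 R x = φ x := by
  unfold ps61
  rw [powersetCard_zero, sum_singleton]
  simp

private theorem ps_one61 (u φ : ℕ → ℝ) (R : Finset ℕ) (x : ℕ) : ps61 u φ 1 R x = ∑ p ∈ R, u p * φ (x / p) := by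
  have h := ps_rec61 u φ 0 R x
  simp only [Nat.cast_zero, zero_add, one_mul, ps_zero61] at h
  exact h

private theorem E1_eq61 (u φ : ℕ → ℝ) (R : Finset ℕ) (x : ℕ) : E1 u φ R (x : ℝ) = ps61 u φ 1 R x := by
  rw [ps_one61]
  unfold E1
  refine sum_congr rfl fun p _ => ?_
  rw [Nat.floor_div_eq_div]

private theorem E1_div61 (u φ : ℕ → ℝ) (R : Finset ℕ) (x p : ℕ) :
    E1 u φ R ((x : ℝ) / p) = ps61 u φ 1 R (x / p) := by
  rw [ps_one61]
  unfold E1
  refine sum_congr rfl fun q _ => ?_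
  rw [div_div, ← Nat.cast_mul, Nat.floor_div_eq_div, Nat.div_div_eq_div_mul]

private theorem mn_eq61 (u φ : ℕ → ℝ) (R : Finset ℕ) (x : ℕ) :
    mn u φ R x = ∑ r ∈ range (R.card + 1), ps61 u φ r R x := by
  unfold mn ps61
  rw [sum_powerset]

private theorem sqrt_div61 (x p : ℕ) {P : ℝ} (hP : 0 < P) (hp : P ≤ p) :
    Real.sqrt ((x / p : ℕ) : ℝ) ≤ Real.sqrt x / Real.sqrt P := by
  rw [← Real.sqrt_div (Nat.cast_nonneg _)]
  apply Real.sqrt_le_sqrt
  calc ((x / p : ℕ) : ℝ) ≤ (x : ℝ) / p := Nat.cast_div_le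
    _ ≤ x / P := div_le_div_of_nonneg_left (Nat.cast_nonneg _) hP hp

private theorem two61 (u φ : ℕ → ℝ) (R : Finset ℕ) (P μ η : ℝ) (hP : 0 < P) (hR : ∀ p ∈ R, P ≤ (p : ℝ))
    (hu : ∀ p ∈ R, |u p| ≤ 2) (hφ : ∀ x : ℕ, |φ x| ≤ μ * Real.sqrt x)
    (h2 : ∀ x : ℕ, |∑ p ∈ R, u p * E1 u φ R ((x : ℝ) / p)| ≤ η * Real.sqrt x) (hμ : 0 ≤ μ) (x : ℕ) :
    |ps61 u φ 2 R x| ≤ (η / 2 + 2 * R.card * μ / P) * Real.sqrt x := by
  have h := ps_rec61 u φ 1 R x
  have e1 : ∑ p ∈ R, u p * ps61 u φ 1 (R.erase p) (x / p) =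
      ∑ p ∈ R, u p * E1 u φ R ((x : ℝ) / p) - ∑ p ∈ R, u p * (u p * φ (x / p / p)) := by
    rw [← sum_sub_distrib]
    refine sum_congr rfl fun p hp => ?_
    rw [E1_div61, ps_one61, ps_one61, ← add_sum_erase R (fun q => u q * φ (x / p / q)) hp]
    ring
  have e2 : |∑ p ∈ R, u p * (u p * φ (x / p / p))| ≤ 4 * R.card * μ / P * Real.sqrt x := by
    calc |∑ p ∈ R, u p * (u p * φ (x / p / p))| ≤ ∑ p ∈ R, |u p * (u p * φ (x / p / p))| := abs_sum_le_sum_abs _ _
      _ ≤ ∑ _p ∈ R, 4 * μ / P * Real.sqrt x := by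
          refine sum_le_sum fun p hp => ?_
          rw [abs_mul, abs_mul]
          have h3 := hφ (x / p / p)
          have h4 := sqrt_div61 (x / p) p hP (hR p hp)
          have h5 := sqrt_div61 x p hP (hR p hp)
          have h6 : 0 < Real.sqrt P := Real.sqrt_pos.mpr hP
          have h7 : Real.sqrt ((x / p / p : ℕ) : ℝ) ≤ Real.sqrt x / P := by
            calc Real.sqrt ((x / p / p : ℕ) : ℝ) ≤ Real.sqrt ((x / p : ℕ) : ℝ) / Real.sqrt P := h4
              _ ≤ (Real.sqrt x / Real.sqrt P) / Real.sqrt P := div_le_div_of_nonneg_right h5 h6.le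
              _ = Real.sqrt x / P := by rw [div_div, Real.mul_self_sqrt hP.le]
          have h8 : |φ (x / p / p)| ≤ μ * (Real.sqrt x / P) := h3.trans (mul_le_mul_of_nonneg_left h7 hμ)
          have h9 := hu p hp
          calc |u p| * (|u p| * |φ (x / p / p)|) ≤ 2 * (2 * (μ * (Real.sqrt x / P))) := by
                refine mul_le_mul h9 ?_ (by positivity) (by norm_num)
                exact mul_le_mul h9 h8 (abs_nonneg _) (by norm_num)
            _ = 4 * μ / P * Real.sqrt x := by ring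
      _ = 4 * R.card * μ / P * Real.sqrt x := by
          rw [sum_const, nsmul_eq_mul]
          ring
  rw [e1] at h
  have h3 : |((1 : ℕ) : ℝ) + 1| * |ps61 u φ 2 R x| ≤ η * Real.sqrt x + 4 * R.card * μ / P * Real.sqrt x := by
    rw [← abs_mul, h]
    exact (abs_sub _ _).trans (add_le_add (h2 x) e2)
  have h4 : |((1 : ℕ) : ℝ) + 1| = 2 := by norm_num
  rw [h4] at h3
  have h5 : (η / 2 + 2 * R.card * μ / P) * Real.sqrt x =
      (η * Real.sqrt x + 4 * R.card * μ / P * Real.sqrt x) / 2 := by ring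
  rw [h5]
  linarith

private theorem two_sub61 (u φ : ℕ → ℝ) (R : Finset ℕ) (P μ η : ℝ) (hP : 0 < P) (hR : ∀ p ∈ R, P ≤ (p : ℝ))
    (hu : ∀ p ∈ R, |u p| ≤ 2) (hφ : ∀ x : ℕ, |φ x| ≤ μ * Real.sqrt x)
    (h2 : ∀ x : ℕ, |∑ p ∈ R, u p * E1 u φ R ((x : ℝ) / p)| ≤ η * Real.sqrt x) (hμ : 0 ≤ μ) (x : ℕ)
    (R' : Finset ℕ) (hR' : R' ⊆ R) (m : ℕ) (hm : (R \ R').card ≤ m) :
    |ps61 u φ 2 R' x| ≤ (η / 2 + 2 * R.card * μ / P + m * (4 * R.card * μ / P)) * Real.sqrt x := by
  classical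
  have h := two61 u φ R P μ η hP hR hu hφ h2 hμ x
  have hsub : R'.powersetCard 2 ⊆ R.powersetCard 2 := powersetCard_mono hR'
  have e1 : ps61 u φ 2 R' x = ps61 u φ 2 R x -
      ∑ T ∈ R.powersetCard 2 \ R'.powersetCard 2, (∏ p ∈ T, u p) * φ (x / ∏ p ∈ T, p) := by
    unfold ps61
    rw [← sum_sdiff hsub]
    ring
  have e2 : (R.powersetCard 2 \ R'.powersetCard 2).card ≤ m * R.card := by
    have h3 : R.powersetCard 2 \ R'.powersetCard 2 ⊆
        ((R \ R') ×ˢ R).image (fun a : ℕ × ℕ => ({a.1, a.2} : Finset ℕ)) := by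
      intro T hT
      rw [mem_sdiff, mem_powersetCard, mem_powersetCard] at hT
      obtain ⟨⟨hT1, hT2⟩, hT3⟩ := hT
      have h4 : ¬ T ⊆ R' := fun h => hT3 ⟨h, hT2⟩
      obtain ⟨p, hp, hp'⟩ := not_subset.mp h4
      obtain ⟨q, hq⟩ : ∃ q, T.erase p = {q} := by
        rw [← card_eq_one, card_erase_of_mem hp, hT2]
      rw [mem_image]
      refine ⟨(p, q), ?_, ?_⟩
      · rw [mem_product, mem_sdiff]
        refine ⟨⟨hT1 hp, hp'⟩, hT1 ?_⟩
        have : q ∈ T.erase p := by rw [hq]; exact mem_singleton_self q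
        exact mem_of_mem_erase this
      · show insert p {q} = T
        rw [← hq, insert_erase hp]
    calc (R.powersetCard 2 \ R'.powersetCard 2).card ≤ _ := card_le_card h3
      _ ≤ ((R \ R') ×ˢ R).card := card_image_le
      _ = (R \ R').card * R.card := card_product _ _
      _ ≤ m * R.card := Nat.mul_le_mul_right _ hm
  have e3 : |∑ T ∈ R.powersetCard 2 \ R'.powersetCard 2, (∏ p ∈ T, u p) * φ (x / ∏ p ∈ T, p)| ≤
      m * (4 * R.card * μ / P) * Real.sqrt x := by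
    calc _ ≤ ∑ T ∈ R.powersetCard 2 \ R'.powersetCard 2, |(∏ p ∈ T, u p) * φ (x / ∏ p ∈ T, p)| :=
          abs_sum_le_sum_abs _ _
      _ ≤ ∑ _T ∈ R.powersetCard 2 \ R'.powersetCard 2, 4 * μ / P * Real.sqrt x := by
          refine sum_le_sum fun T hT => ?_
          rw [mem_sdiff, mem_powersetCard] at hT
          obtain ⟨⟨hT1, hT2⟩, -⟩ := hT
          obtain ⟨p, q, hpq, rfl⟩ := card_eq_two.mp hT2
          have hp : p ∈ R := hT1 (by simp)
          have hq : q ∈ R := hT1 (by simp)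
          rw [prod_pair hpq, prod_pair hpq, ← Nat.div_div_eq_div_mul, abs_mul, abs_mul]
          have h3 := hφ (x / p / q)
          have h4 := sqrt_div61 (x / p) q hP (hR q hq)
          have h5 := sqrt_div61 x p hP (hR p hp)
          have h6 : 0 < Real.sqrt P := Real.sqrt_pos.mpr hP
          have h7 : Real.sqrt ((x / p / q : ℕ) : ℝ) ≤ Real.sqrt x / P := by
            calc Real.sqrt ((x / p / q : ℕ) : ℝ) ≤ Real.sqrt ((x / p : ℕ) : ℝ) / Real.sqrt P := h4
              _ ≤ (Real.sqrt x / Real.sqrt P) / Real.sqrt P := div_le_div_of_nonneg_right h5 h6.le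
              _ = Real.sqrt x / P := by rw [div_div, Real.mul_self_sqrt hP.le]
          have h8 : |φ (x / p / q)| ≤ μ * (Real.sqrt x / P) := h3.trans (mul_le_mul_of_nonneg_left h7 hμ)
          calc |u p| * |u q| * |φ (x / p / q)| ≤ 2 * 2 * (μ * (Real.sqrt x / P)) := by
                refine mul_le_mul ?_ h8 (abs_nonneg _) (by norm_num)
                exact mul_le_mul (hu p hp) (hu q hq) (abs_nonneg _) (by norm_num)
            _ = 4 * μ / P * Real.sqrt x := by ring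
      _ = (R.powersetCard 2 \ R'.powersetCard 2).card * (4 * μ / P * Real.sqrt x) := by
          rw [sum_const, nsmul_eq_mul]
      _ ≤ (m * R.card : ℕ) * (4 * μ / P * Real.sqrt x) := by
          refine mul_le_mul_of_nonneg_right (by exact_mod_cast e2) (by positivity)
      _ = m * (4 * R.card * μ / P) * Real.sqrt x := by
          push_cast
          ring
  rw [e1]
  refine (abs_sub _ _).trans ?_
  calc |ps61 u φ 2 R x| + _ ≤ (η / 2 + 2 * R.card * μ / P) * Real.sqrt x +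
        m * (4 * R.card * μ / P) * Real.sqrt x := add_le_add h e3
    _ = _ := by ring

private theorem all61 (u φ : ℕ → ℝ) (R : Finset ℕ) (P μ η : ℝ) (hP : 0 < P) (hR : ∀ p ∈ R, P ≤ (p : ℝ))
    (hu : ∀ p ∈ R, |u p| ≤ 2) (hφ : ∀ x : ℕ, |φ x| ≤ μ * Real.sqrt x)
    (h2 : ∀ x : ℕ, |∑ p ∈ R, u p * E1 u φ R ((x : ℝ) / p)| ≤ η * Real.sqrt x) (hμ : 0 ≤ μ) (hη : 0 ≤ η) (s : ℕ) :
    ∀ (x : ℕ) (R' : Finset ℕ) (_ : R' ⊆ R) (m : ℕ) (_ : (R \ R').card ≤ m),
    |ps61 u φ (s + 2) R' x| ≤ 2 * (2 * R.card / Real.sqrt P) ^ s / (s + 2).factorial *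
      (η / 2 + 2 * R.card * μ / P + (m + s) * (4 * R.card * μ / P)) * Real.sqrt x := by
  induction s with
  | zero =>
    intro x R' hR' m hm
    have h := two_sub61 u φ R P μ η hP hR hu hφ h2 hμ x R' hR' m hm
    simpa using h
  | succ s ih =>
    intro x R' hR' m hm
    have h := ps_rec61 u φ (s + 2) R' x
    set a : ℝ := 2 * R.card / Real.sqrt P with ha
    have ha0 : 0 ≤ a := by positivity
    have hsP : 0 < Real.sqrt P := Real.sqrt_pos.mpr hP
    set Q : ℝ := η / 2 + 2 * R.card * μ / P + (m + (s + 1 : ℕ)) * (4 * R.card * μ / P) with hQ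
    have hQ0 : 0 ≤ Q := by positivity
    have h3 : |∑ p ∈ R', u p * ps61 u φ (s + 2) (R'.erase p) (x / p)| ≤
        2 * a ^ (s + 1) / (s + 2).factorial * Q * Real.sqrt x := by
      calc _ ≤ ∑ p ∈ R', |u p * ps61 u φ (s + 2) (R'.erase p) (x / p)| := abs_sum_le_sum_abs _ _
        _ ≤ ∑ _p ∈ R', 2 * (2 * a ^ s / (s + 2).factorial * Q * (Real.sqrt x / Real.sqrt P)) := by
            refine sum_le_sum fun p hp => ?_
            rw [abs_mul]
            refine mul_le_mul (hu p (hR' hp)) ?_ (abs_nonneg _) (by norm_num)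
            have h4 := ih (x / p) (R'.erase p) ((erase_subset _ _).trans hR') (m + 1) (by
              have h5 : R \ R'.erase p ⊆ insert p (R \ R') := by
                intro q hq
                rw [mem_sdiff, mem_erase] at hq
                rw [mem_insert, mem_sdiff]
                by_cases hqp : q = p
                · exact Or.inl hqp
                · exact Or.inr ⟨hq.1, fun h => hq.2 ⟨hqp, h⟩⟩
              exact (card_le_card h5).trans ((card_insert_le _ _).trans (Nat.succ_le_succ hm)))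
            have h6 : η / 2 + 2 * R.card * μ / P + ((m + 1 : ℕ) + s) * (4 * R.card * μ / P) = Q := by
              rw [hQ]
              push_cast
              ring
            rw [h6] at h4
            exact h4.trans (mul_le_mul_of_nonneg_left (sqrt_div61 x p hP (hR p (hR' hp))) (by positivity))
        _ = R'.card * (2 * (2 * a ^ s / (s + 2).factorial * Q * (Real.sqrt x / Real.sqrt P))) := by
            rw [sum_const, nsmul_eq_mul]
        _ ≤ R.card * (2 * (2 * a ^ s / (s + 2).factorial * Q * (Real.sqrt x / Real.sqrt P))) := by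
            refine mul_le_mul_of_nonneg_right (by exact_mod_cast card_le_card hR') (by positivity)
        _ = 2 * (a ^ s * (2 * R.card / Real.sqrt P)) / (s + 2).factorial * Q * Real.sqrt x := by ring
        _ = _ := by rw [← ha, ← pow_succ]
    rw [← h, abs_mul] at h3
    have h7 : |((s + 2 : ℕ) : ℝ) + 1| = (s : ℝ) + 3 := by
      push_cast
      rw [abs_of_nonneg (by positivity)]
      ring
    rw [h7] at h3
    have h8 : ((s + 1 + 2).factorial : ℝ) = ((s : ℝ) + 3) * (s + 2).factorial := by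
      have : (s + 1 + 2).factorial = (s + 3) * (s + 2).factorial := Nat.factorial_succ (s + 2)
      rw [this]
      push_cast
      ring
    rw [h8]
    have h9 : (0 : ℝ) < s + 3 := by positivity
    have h10 : 2 * a ^ (s + 1) / (((s : ℝ) + 3) * (s + 2).factorial) * Q * Real.sqrt x =
        (2 * a ^ (s + 1) / (s + 2).factorial * Q * Real.sqrt x) / (s + 3) := by
      field_simp
    rw [h10, le_div_iff₀ h9]
    linarith

theorem mn_bound (u φ : ℕ → ℝ) (R : Finset ℕ) (P μ η : ℝ) (hP : 0 < P) (hR : ∀ p ∈ R, P ≤ (p : ℝ))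
    (hu : ∀ p ∈ R, |u p| ≤ 2) (hφ : ∀ x : ℕ, |φ x| ≤ μ * Real.sqrt x)
    (h2 : ∀ x : ℕ, |∑ p ∈ R, u p * E1 u φ R ((x : ℝ) / p)| ≤ η * Real.sqrt x) (x : ℕ) :
    |mn u φ R x - φ x - E1 u φ R x| ≤
      (η + 8 * R.card * μ / P) * Real.exp (2 * R.card / Real.sqrt P) * Real.sqrt x := by
  have hμ : 0 ≤ μ := by
    have := (abs_nonneg _).trans (hφ 1)
    simpa using this
  have hη : 0 ≤ η := by
    have := (abs_nonneg _).trans (h2 1)
    simpa using this
  set a : ℝ := 2 * R.card / Real.sqrt P with ha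
  have ha0 : 0 ≤ a := by positivity
  set B : ℝ := (η + 8 * R.card * μ / P) * Real.sqrt x with hB
  have hterm : ∀ s : ℕ, |ps61 u φ (s + 2) R x| ≤ a ^ s / s.factorial * B := by
    intro s
    have h := all61 u φ R P μ η hP hR hu hφ h2 hμ hη s x R (Subset.refl _) 0 (by simp)
    refine h.trans ?_
    rw [← ha]
    have hf : ((s + 2).factorial : ℝ) = ((s : ℝ) + 2) * ((s + 1) * s.factorial) := by
      rw [Nat.factorial_succ, Nat.factorial_succ]
      push_cast
      ring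
    have hfp : (0 : ℝ) < s.factorial := by exact_mod_cast Nat.factorial_pos s
    have h3 : 2 * a ^ s / ((s + 2).factorial : ℝ) *
        (η / 2 + 2 * R.card * μ / P + ((0 : ℕ) + s) * (4 * R.card * μ / P)) * Real.sqrt x =
        a ^ s / s.factorial * (((η + 4 * R.card * μ / P + s * (8 * R.card * μ / P)) /
          (((s : ℝ) + 2) * (s + 1))) * Real.sqrt x) := by
      rw [hf]
      push_cast
      field_simp
      ring
    rw [h3]
    refine mul_le_mul_of_nonneg_left ?_ (by positivity)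
    rw [hB]
    refine mul_le_mul_of_nonneg_right ?_ (Real.sqrt_nonneg _)
    rw [div_le_iff₀ (by positivity)]
    have hs : (0 : ℝ) ≤ s := Nat.cast_nonneg _
    have hM : 0 ≤ R.card * μ / P := by positivity
    have e1 : 8 * (R.card : ℝ) * μ / P = 8 * (R.card * μ / P) := by ring
    have e2 : 4 * (R.card : ℝ) * μ / P = 4 * (R.card * μ / P) := by ring
    rw [e1, e2]
    nlinarith [mul_nonneg hs hM, mul_nonneg hs hη, mul_nonneg hs hs, mul_nonneg (mul_nonneg hs hs) hM,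
      mul_nonneg (mul_nonneg hs hs) hη]
  have e1 : mn u φ R x - φ x - E1 u φ R x = ∑ s ∈ range (R.card - 1), ps61 u φ (s + 2) R x := by
    rw [mn_eq61, E1_eq61]
    rcases Nat.eq_zero_or_pos R.card with h0 | h0
    · have hR0 : R = ∅ := card_eq_zero.mp h0
      rw [h0]
      simp [ps_zero61, ps_one61, hR0]
    · obtain ⟨c, hc⟩ : ∃ c, R.card = c + 1 := ⟨R.card - 1, by omega⟩
      rw [hc, sum_range_succ', sum_range_succ']
      simp only [zero_add, Nat.add_sub_cancel]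
      rw [ps_zero61]
      have : ∑ s ∈ range c, ps61 u φ (s + 1 + 1) R x = ∑ s ∈ range c, ps61 u φ (s + 2) R x := rfl
      rw [this]
      ring
  rw [e1]
  calc |∑ s ∈ range (R.card - 1), ps61 u φ (s + 2) R x| ≤ ∑ s ∈ range (R.card - 1), |ps61 u φ (s + 2) R x| :=
        abs_sum_le_sum_abs _ _
    _ ≤ ∑ s ∈ range (R.card - 1), a ^ s / s.factorial * B := sum_le_sum fun s _ => hterm s
    _ = (∑ s ∈ range (R.card - 1), a ^ s / s.factorial) * B := by rw [sum_mul]
    _ ≤ Real.exp a * B := by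
        refine mul_le_mul_of_nonneg_right (Real.sum_le_exp_of_nonneg ha0 _) (by positivity)
    _ = _ := by rw [hB]; ring

end Pool.Agent.Helper96.QC
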