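import Pool.Agent.Helper96.QC.Eap
import Pool.Agent.Helper96.QC.Mn

/-!
Project JC / QC (MP_a499ba_nt), block QC-7: choice of the parameters.

With `ν = nrm K N`, `a = 3 t ν` (`2 |R| / √P ≤ a` for `P = 7 Z / 8`): `gap`: `|E1 - mE| ≤ η₁ √y` (near: `E1_approx`; far: both are
small); `two`: `|∑ u_p E1 (x / p)| ≤ (a η₁ + 3 A₀ t² ν² / J) √x`; `core`: `mn_bound`.
-/

set_option autoImplicit false

namespace Pool.Agent.Helper96.QC

open Finset

/-- The summatory functions considered. -/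
structure Fam (μ : ℝ) (T : ℝ → ℕ) (φ hφ : ℕ → ℝ) : Prop where
  sum : ∀ x : ℕ, φ x = ∑ n ∈ Icc 1 x, hφ n
  one : ∀ n, |hφ n| ≤ 1
  nm : ∀ x : ℕ, |φ x| ≤ μ * Real.sqrt x
  dec : ∀ τ : ℝ, 0 < τ → ∀ m : ℕ, T τ ≤ m → |φ m| ≤ τ * Real.sqrt m

variable {K hφ φ : ℕ → ℝ} {N : ℕ} {t h θ : ℝ} {J Z A₀ : ℕ} {u : ℕ → ℝ} {A B : ℕ → ℕ → Finset ℕ} {R : Finset ℕ}

theorem E1_le {P τ y : ℝ} (hP : 0 < P) (hR : ∀ p ∈ R, P ≤ (p : ℝ)) (hu : ∀ p ∈ R, |u p| ≤ 2) (hy : 0 ≤ y) (hτ : 0 ≤ τ)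
    (hφ : ∀ p ∈ R, |φ ⌊y / p⌋₊| ≤ τ * Real.sqrt (⌊y / p⌋₊ : ℝ)) :
    |E1 u φ R y| ≤ 2 * R.card / Real.sqrt P * τ * Real.sqrt y := by
  unfold E1
  refine (Finset.abs_sum_le_sum_abs _ _).trans ?_
  refine (Finset.sum_le_card_nsmul _ _ (2 * (τ * (Real.sqrt y / Real.sqrt P))) fun p hp => ?_).trans (le_of_eq ?_)
  · have hp0 : (0 : ℝ) < p := hP.trans_le (hR p hp)
    rw [abs_mul]
    refine mul_le_mul (hu p hp) ((hφ p hp).trans ?_) (abs_nonneg _) (by norm_num)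
    refine mul_le_mul_of_nonneg_left ?_ hτ
    rw [← Real.sqrt_div hy]
    refine Real.sqrt_le_sqrt ((Nat.floor_le (by positivity)).trans ?_)
    exact div_le_div_of_nonneg_left hy hP (hR p hp)
  · rw [nsmul_eq_mul]
    ring

/-- The numerical hypotheses. -/
structure Num (K : ℕ → ℝ) (N : ℕ) (t h θ : ℝ) (J Z A₀ : ℕ) : Prop where
  N1 : 1 ≤ N
  t0 : 0 ≤ t
  h0 : 0 < h
  hN : 8 * N * h ≤ 1
  hA : 8 * A₀ * h ≤ 1
  θ0 : 0 ≤ θ
  hθ : 100 * θ * 8 ^ J ≤ h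
  J0 : 0 < J
  Z0 : 0 < Z
  hK : ∀ k, K k ≠ 0 → 1 ≤ k ∧ k ≤ N

theorem Num.h18 (hn : Num K N t h θ J Z A₀) : h ≤ 1 / 8 := by
  have h1 : (1 : ℝ) ≤ N := by exact_mod_cast hn.N1
  have h2 := hn.hN
  have h3 := hn.h0
  nlinarith

theorem Num.θ18 (hn : Num K N t h θ J Z A₀) : θ ≤ 1 / 8 := by
  have h2 := th_le hn.θ0 hn.hθ hn.J0
  have h3 := hj_le hn.h0.le 0
  have h4 := hn.h18
  have h5 := hn.θ0
  linarith

theorem Num.low (hn : Num K N t h θ J Z A₀) (hC : CL K N t h θ J Z u A B) {p : ℕ} (hp : p ∈ RR N J A B) :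
    (Z : ℝ) * (7 / 8) ≤ p := by
  have h2 := (mem_RR hC hn.h0 hn.h18 hn.θ0 hn.θ18 hp).1
  have h3 : (Z : ℝ) * (7 / 8) ≤ Z * (1 - h) := mul_le_mul_of_nonneg_left (by linarith [hn.h18]) (Nat.cast_nonneg _)
  linarith

theorem Num.upp (hn : Num K N t h θ J Z A₀) (hC : CL K N t h θ J Z u A B) {p : ℕ} (hp : p ∈ RR N J A B) :
    (p : ℝ) ≤ 2 * N * Z := (mem_RR hC hn.h0 hn.h18 hn.θ0 hn.θ18 hp).2

theorem Num.Zp (hn : Num K N t h θ J Z A₀) : (0 : ℝ) < Z := by exact_mod_cast hn.Z0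

theorem Num.card (hn : Num K N t h θ J Z A₀) (hC : CL K N t h θ J Z u A B) :
    2 * ((RR N J A B).card : ℝ) / Real.sqrt (Z * (7 / 8)) ≤ 3 * t * nrm K N := by
  have h1 := card_RR hC hn.t0 hn.J0
  have hZ := hn.Zp
  have h2 : 0 < Real.sqrt (Z * (7 / 8)) := Real.sqrt_pos.2 (by positivity)
  have h3 : Real.sqrt Z * 2 ≤ 3 * Real.sqrt (Z * (7 / 8)) := by
    have e1 : Real.sqrt Z * 2 = Real.sqrt (Z * 4) := by
      rw [Real.sqrt_mul hZ.le, show (4 : ℝ) = 2 ^ 2 by norm_num, Real.sqrt_sq (by norm_num)]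
    have e2 : 3 * Real.sqrt (Z * (7 / 8)) = Real.sqrt (3 ^ 2 * (Z * (7 / 8))) := by
      rw [Real.sqrt_mul (by norm_num : (0 : ℝ) ≤ 3 ^ 2), Real.sqrt_sq (by norm_num)]
    rw [e1, e2]
    refine Real.sqrt_le_sqrt ?_
    linarith
  rw [div_le_iff₀ h2]
  have h4 : 0 ≤ t * nrm K N := mul_nonneg hn.t0 (nrm_nonneg K N)
  nlinarith [mul_le_mul_of_nonneg_left h3 h4]

theorem gap (hn : Num K N t h θ J Z A₀) (hC : CL K N t h θ J Z u A B) {μ : ℝ} {T : ℝ → ℕ} (hF : Fam μ T φ hφ)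
    {η₁ τ : ℝ} (hη : 0 < η₁) (hτ : 0 < τ) (c1 : 3 * t * nrm K N * τ ≤ η₁ / 2) (c2 : 4 * N * (T τ + 1) ≤ A₀)
    (c3 : 8 * (t * nrm K N) ^ 2 ≤ η₁ ^ 2 * A₀) (c4 : 4 * A₀ * (t * nrm K N) ≤ η₁ * J)
    (c5 : 8 * A₀ * N * J ≤ η₁ * Real.sqrt Z) {y : ℝ} (hy : 0 ≤ y) :
    |E1 u φ (RR N J A B) y - mE K hφ t h J Z A₀ y| ≤ η₁ * Real.sqrt y := by
  have hZ := hn.Zp
  have hν := nrm_nonneg K N
  have ht := hn.t0
  have hJ' : (0 : ℝ) < J := by exact_mod_cast hn.J0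
  have hN' : (1 : ℝ) ≤ N := by exact_mod_cast hn.N1
  have hsy : 0 ≤ Real.sqrt y := Real.sqrt_nonneg y
  rcases lt_or_ge y (Z * (7 / 8)) with h1 | h1
  · -- both vanish
    have e1 : E1 u φ (RR N J A B) y = 0 := by
      unfold E1
      refine Finset.sum_eq_zero fun p hp => ?_
      have h2 := hn.low hC hp
      have hp0 : (0 : ℝ) < p := by nlinarith
      have h3 : ⌊y / p⌋₊ = 0 := Nat.floor_eq_zero.2 (by rw [div_lt_one hp0]; linarith)
      rw [h3, hF.sum]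
      simp
    have e2 : mE K hφ t h J Z A₀ y = 0 := by
      rcases mE_cases (K := K) (hφ := hφ) (t := t) (J := J) hn.h0.le hn.hA hn.Z0 y with h2 | ⟨a, ha, -, h3, -, -⟩
      · exact h2
      · exfalso
        have ha' : (1 : ℝ) ≤ a := by exact_mod_cast ha
        have h4 := hn.h18
        have h5 : (7 / 8 : ℝ) * (1 * Z) ≤ (1 - h) * (a * Z) := by
          refine mul_le_mul (by linarith) (mul_le_mul_of_nonneg_right ha' hZ.le) (by positivity) (by linarith)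
        linarith
    rw [e1, e2, sub_zero, abs_zero]
    positivity
  rcases le_or_gt (2 * y) (A₀ * Z) with h2 | h2
  · -- near
    refine (E1_approx hC hn.N1 ht hn.h0 hn.hN hn.θ0 hn.hθ hn.J0 hn.Z0 hn.hK hF.sum hF.one hy h2).trans ?_
    have h3 : Real.sqrt Z ≤ 2 * Real.sqrt y := by
      have e2 : 2 * Real.sqrt y = Real.sqrt (2 ^ 2 * y) := by
        rw [Real.sqrt_mul (by norm_num), Real.sqrt_sq (by norm_num)]
      rw [e2]
      refine Real.sqrt_le_sqrt ?_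
      linarith
    have hsZ : 0 ≤ Real.sqrt Z := Real.sqrt_nonneg _
    have h4 : (A₀ : ℝ) * (t * nrm K N * Real.sqrt Z / J) ≤ η₁ / 4 * Real.sqrt Z := by
      have e3 : (A₀ : ℝ) * (t * nrm K N * Real.sqrt Z / J) = (4 * A₀ * (t * nrm K N)) * Real.sqrt Z / (4 * J) := by
        field_simp
      rw [e3, div_le_iff₀ (by positivity)]
      nlinarith [mul_le_mul_of_nonneg_right c4 hsZ]
    have h5 : (A₀ : ℝ) * (2 * N * J) ≤ η₁ / 4 * Real.sqrt Z := by nlinarith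
    calc (A₀ : ℝ) * (t * nrm K N * Real.sqrt Z / J + 2 * N * J)
        = A₀ * (t * nrm K N * Real.sqrt Z / J) + A₀ * (2 * N * J) := by ring
      _ ≤ η₁ / 4 * Real.sqrt Z + η₁ / 4 * Real.sqrt Z := add_le_add h4 h5
      _ = η₁ / 2 * Real.sqrt Z := by ring
      _ ≤ η₁ / 2 * (2 * Real.sqrt y) := mul_le_mul_of_nonneg_left h3 (by positivity)
      _ = η₁ * Real.sqrt y := by ring
  · -- far
    have hA0 : (0 : ℝ) < A₀ := by
      have : (0 : ℝ) ≤ T τ := Nat.cast_nonneg _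
      have h3 : (0 : ℝ) < 4 * N * (T τ + 1) := by positivity
      have c2' : (4 : ℝ) * N * (T τ + 1) ≤ A₀ := by exact_mod_cast c2
      linarith
    have h3 : |E1 u φ (RR N J A B) y| ≤ η₁ / 2 * Real.sqrt y := by
      have hP : (0 : ℝ) < Z * (7 / 8) := by positivity
      refine (E1_le hP (fun p hp => hn.low hC hp) (fun p hp => (abs_u hC hp).le) hy hτ.le fun p hp => ?_).trans ?_
      · refine hF.dec τ hτ _ (Nat.le_floor ?_)
        have hp0 : (0 : ℝ) < p := hP.trans_le (hn.low hC hp)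
        rw [le_div_iff₀ hp0]
        have h4 := hn.upp hC hp
        have c2' : (4 : ℝ) * N * (T τ + 1) ≤ A₀ := by exact_mod_cast c2
        have h5 : (0 : ℝ) ≤ T τ := Nat.cast_nonneg _
        have h6 : (T τ : ℝ) * p ≤ T τ * (2 * N * Z) := mul_le_mul_of_nonneg_left h4 h5
        have h7 : 4 * N * (T τ + 1 : ℝ) * Z ≤ A₀ * Z := mul_le_mul_of_nonneg_right c2' hZ.le
        nlinarith [mul_nonneg (mul_nonneg (zero_le_one.trans hN') h5) hZ.le, mul_nonneg (zero_le_one.trans hN') hZ.le]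
      · have h4 := hn.card hC
        have h5 : 2 * ((RR N J A B).card : ℝ) / Real.sqrt (Z * (7 / 8)) * τ ≤ η₁ / 2 :=
          (mul_le_mul_of_nonneg_right h4 hτ.le).trans c1
        exact mul_le_mul_of_nonneg_right h5 hsy
    have h4 : |mE K hφ t h J Z A₀ y| ≤ η₁ / 2 * Real.sqrt y := by
      refine (mE_abs ht hn.h0.le hn.hA hn.Z0 hn.hK hF.one y).trans ?_
      have e1 : t * Real.sqrt Z * nrm K N = Real.sqrt ((t * nrm K N) ^ 2 * Z) := by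
        rw [Real.sqrt_mul (sq_nonneg _), Real.sqrt_sq (by positivity)]
        ring
      have e2 : η₁ / 2 * Real.sqrt y = Real.sqrt ((η₁ / 2) ^ 2 * y) := by
        rw [Real.sqrt_mul (sq_nonneg _), Real.sqrt_sq (by positivity)]
      rw [e1, e2]
      refine Real.sqrt_le_sqrt ?_
      have h5 : η₁ ^ 2 * (A₀ * Z) ≤ η₁ ^ 2 * (2 * y) := mul_le_mul_of_nonneg_left h2.le (sq_nonneg _)
      have h6 : 8 * (t * nrm K N) ^ 2 * Z ≤ η₁ ^ 2 * A₀ * Z := mul_le_mul_of_nonneg_right c3 hZ.le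
      nlinarith
    refine (abs_sub _ _).trans ?_
    linarith

theorem two (hn : Num K N t h θ J Z A₀) (hC : CL K N t h θ J Z u A B) {μ : ℝ} {T : ℝ → ℕ} (hF : Fam μ T φ hφ)
    {η₁ : ℝ} (hη : 0 ≤ η₁)
    (hg : ∀ y : ℝ, 0 ≤ y → |E1 u φ (RR N J A B) y - mE K hφ t h J Z A₀ y| ≤ η₁ * Real.sqrt y) (x : ℕ) :
    |∑ p ∈ RR N J A B, u p * E1 u φ (RR N J A B) ((x : ℝ) / p)| ≤
      (3 * t * nrm K N * η₁ + 3 * A₀ * (t * nrm K N) ^ 2 / J) * Real.sqrt x := by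
  have hZ := hn.Zp
  have hν := nrm_nonneg K N
  have ht := hn.t0
  have hJ' : (0 : ℝ) < J := by exact_mod_cast hn.J0
  have hP : (0 : ℝ) < Z * (7 / 8) := by positivity
  rcases lt_or_ge (x : ℝ) ((Z * (7 / 8)) ^ 2) with h1 | h1
  · have e1 : ∑ p ∈ RR N J A B, u p * E1 u φ (RR N J A B) ((x : ℝ) / p) = 0 := by
      refine Finset.sum_eq_zero fun p hp => ?_
      have e2 : E1 u φ (RR N J A B) ((x : ℝ) / p) = 0 := by
        unfold E1
        refine Finset.sum_eq_zero fun q hq => ?_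
        have h2 := hn.low hC hp
        have h3 := hn.low hC hq
        have hp0 : (0 : ℝ) < p := hP.trans_le h2
        have hq0 : (0 : ℝ) < q := hP.trans_le h3
        have h4 : ⌊(x : ℝ) / p / q⌋₊ = 0 := by
          refine Nat.floor_eq_zero.2 ?_
          rw [div_div, div_lt_one (by positivity)]
          nlinarith [mul_le_mul h2 h3 hP.le hp0.le]
        rw [h4, hF.sum]
        simp
      rw [e2, mul_zero]
    rw [e1, abs_zero]
    positivity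
  · have hx0 : (0 : ℝ) < x := lt_of_lt_of_le (by positivity) h1
    have e1 : ∑ p ∈ RR N J A B, u p * E1 u φ (RR N J A B) ((x : ℝ) / p) =
        ∑ p ∈ RR N J A B, u p * (E1 u φ (RR N J A B) ((x : ℝ) / p) - mE K hφ t h J Z A₀ ((x : ℝ) / p)) +
        ∑ p ∈ RR N J A B, u p * mE K hφ t h J Z A₀ ((x : ℝ) / p) := by
      rw [← Finset.sum_add_distrib]
      exact Finset.sum_congr rfl fun p _ => by ring
    have h2 := mE_two hC hn.N1 ht hn.h0 hn.hN hn.θ0 hn.hθ hn.J0 hn.Z0 hn.hK hF.one hx0 (A₀ := A₀)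
    have h3 : |∑ p ∈ RR N J A B, u p * (E1 u φ (RR N J A B) ((x : ℝ) / p) - mE K hφ t h J Z A₀ ((x : ℝ) / p))| ≤
        3 * t * nrm K N * η₁ * Real.sqrt x := by
      refine (Finset.abs_sum_le_sum_abs _ _).trans ?_
      refine (Finset.sum_le_card_nsmul _ _ (2 * (η₁ * (Real.sqrt x / Real.sqrt (Z * (7 / 8))))) fun p hp => ?_).trans ?_
      · have hp0 : (0 : ℝ) < p := hP.trans_le (hn.low hC hp)
        rw [abs_mul]
        refine mul_le_mul (abs_u hC hp).le ((hg _ (by positivity)).trans ?_) (abs_nonneg _) (by norm_num)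
        refine mul_le_mul_of_nonneg_left ?_ hη
        rw [← Real.sqrt_div hx0.le]
        refine Real.sqrt_le_sqrt ?_
        exact div_le_div_of_nonneg_left hx0.le hP (hn.low hC hp)
      · rw [nsmul_eq_mul]
        have h4 := hn.card hC
        have h5 := mul_le_mul_of_nonneg_right h4 (mul_nonneg hη (Real.sqrt_nonneg (x : ℝ)))
        calc ((RR N J A B).card : ℝ) * (2 * (η₁ * (Real.sqrt x / Real.sqrt (Z * (7 / 8)))))
            = 2 * ((RR N J A B).card : ℝ) / Real.sqrt (Z * (7 / 8)) * (η₁ * Real.sqrt x) := by ring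
          _ ≤ 3 * t * nrm K N * (η₁ * Real.sqrt x) := h5
          _ = _ := by ring
    have h4 : 2 * A₀ * t ^ 2 * nrm K N ^ 2 * Z / J ≤ 3 * A₀ * (t * nrm K N) ^ 2 / J * Real.sqrt x := by
      have h5 : (Z : ℝ) * (7 / 8) ≤ Real.sqrt x := by
        rw [← Real.sqrt_sq hP.le]
        exact Real.sqrt_le_sqrt h1
      have h6 : 0 ≤ (A₀ : ℝ) * (t * nrm K N) ^ 2 / J := by positivity
      calc 2 * A₀ * t ^ 2 * nrm K N ^ 2 * Z / J = A₀ * (t * nrm K N) ^ 2 / J * (2 * Z) := by ring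
        _ ≤ A₀ * (t * nrm K N) ^ 2 / J * (3 * Real.sqrt x) := mul_le_mul_of_nonneg_left (by linarith) h6
        _ = _ := by ring
    rw [e1]
    refine (abs_add_le _ _).trans ?_
    linarith

private theorem exists_nat_ge' (c : ℝ) : ∃ n : ℕ, c ≤ n := exists_nat_ge c

/-- The parameters: after the pattern `K` and the height `t`. -/
theorem core (K : ℕ → ℝ) (N : ℕ) (hN : 1 ≤ N) (hK : ∀ k, K k ≠ 0 → 1 ≤ k ∧ k ≤ N) {t : ℝ} (ht : 0 ≤ t) (μ : ℝ)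
    (hμ : 0 ≤ μ) (T : ℝ → ℕ) {η : ℝ} (hη : 0 < η) (Q : ℕ) :
    ∃ (h θ : ℝ) (J A₀ Z₀ : ℕ), 0 < h ∧ h ≤ 1 / 8 ∧ 0 < θ ∧ 0 < J ∧ Q ≤ A₀ ∧ 8 * A₀ * h ≤ 1 ∧
      ∀ Z : ℕ, Z₀ ≤ Z → Num K N t h θ J Z A₀ ∧ ∀ (u : ℕ → ℝ) (A B : ℕ → ℕ → Finset ℕ), CL K N t h θ J Z u A B →
        ∀ φ hφ : ℕ → ℝ, Fam μ T φ hφ →
          (∀ y : ℝ, 0 ≤ y → |E1 u φ (RR N J A B) y - mE K hφ t h J Z A₀ y| ≤ η * Real.sqrt y) ∧
          ∀ x : ℕ, |mn u φ (RR N J A B) x - φ x - E1 u φ (RR N J A B) x| ≤ η * Real.sqrt x := by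
  have hν := nrm_nonneg K N
  set ν := nrm K N with hνd
  set a : ℝ := 3 * t * ν with ha
  have ha0 : 0 ≤ a := by positivity
  have htν : 0 ≤ t * ν := mul_nonneg ht hν
  set E : ℝ := Real.exp a with hE
  have hE0 : 0 < E := Real.exp_pos a
  have hE1 : 1 ≤ E := Real.one_le_exp ha0
  -- `η₁`
  obtain ⟨η₁, hη₁, q1, q2⟩ : ∃ η₁ : ℝ, 0 < η₁ ∧ η₁ ≤ η ∧ a * η₁ * E ≤ η / 4 := by
    refine ⟨η / (4 * (a + 1) * E), by positivity, ?_, ?_⟩
    · refine div_le_self hη.le ?_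
      nlinarith
    · rw [show a * (η / (4 * (a + 1) * E)) * E = η / 4 * (a / (a + 1)) by field_simp]
      have : a / (a + 1) ≤ 1 := (div_le_one (by linarith)).2 (by linarith)
      nlinarith
  obtain ⟨τ, hτ, q3⟩ : ∃ τ : ℝ, 0 < τ ∧ a * τ ≤ η₁ / 2 := by
    refine ⟨η₁ / (2 * (a + 1)), by positivity, ?_⟩
    rw [show a * (η₁ / (2 * (a + 1))) = η₁ / 2 * (a / (a + 1)) by field_simp]
    have : a / (a + 1) ≤ 1 := (div_le_one (by linarith)).2 (by linarith)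
    nlinarith
  -- `A₀`
  obtain ⟨A₁, hA₁⟩ := exists_nat_ge (8 * (t * ν) ^ 2 / η₁ ^ 2)
  set A₀ : ℕ := 4 * N * (T τ + 1) + A₁ + Q with hA₀
  have q4 : 4 * N * (T τ + 1) ≤ A₀ := by omega
  have q5 : Q ≤ A₀ := by omega
  have q6 : 8 * (t * ν) ^ 2 ≤ η₁ ^ 2 * A₀ := by
    rw [div_le_iff₀ (by positivity)] at hA₁
    have h1 : (A₁ : ℝ) ≤ A₀ := by exact_mod_cast (by omega : A₁ ≤ A₀)
    nlinarith [mul_le_mul_of_nonneg_right h1 (sq_nonneg η₁)]
  have hA1 : 1 ≤ A₀ := by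
    have : 0 < 4 * N * (T τ + 1) := by positivity
    omega
  have hA1' : (1 : ℝ) ≤ A₀ := by exact_mod_cast hA1
  have hN' : (1 : ℝ) ≤ N := by exact_mod_cast hN
  -- `h`
  set h : ℝ := 1 / (8 * (N + A₀)) with hh
  have h0 : 0 < h := by positivity
  have h2 : 8 * N * h ≤ 1 := by
    rw [hh, mul_one_div, div_le_one (by positivity)]
    linarith
  have h3 : 8 * A₀ * h ≤ 1 := by
    rw [hh, mul_one_div, div_le_one (by positivity)]
    linarith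
  have h18 : h ≤ 1 / 8 := by
    rw [hh]
    refine one_div_le_one_div_of_le (by norm_num) ?_
    linarith
  -- `J`
  obtain ⟨J₁, hJ₁⟩ := exists_nat_ge (4 * A₀ * (t * ν) / η₁ + 12 * A₀ * (t * ν) ^ 2 * E / η)
  set J : ℕ := J₁ + 1 with hJd
  have hJ : 0 < J := by omega
  have hJ' : (0 : ℝ) < J := by exact_mod_cast hJ
  have hJle : (J₁ : ℝ) ≤ J := by exact_mod_cast (by omega : J₁ ≤ J)
  have w1 : 0 ≤ 4 * A₀ * (t * ν) / η₁ := by positivity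
  have w2 : 0 ≤ 12 * A₀ * (t * ν) ^ 2 * E / η := by positivity
  have q7 : 4 * A₀ * (t * ν) ≤ η₁ * J := by
    have : 4 * A₀ * (t * ν) / η₁ ≤ J := by linarith
    rw [div_le_iff₀ hη₁] at this
    linarith
  have q8 : 3 * A₀ * (t * ν) ^ 2 / J * E ≤ η / 4 := by
    have h4 : 12 * A₀ * (t * ν) ^ 2 * E / η ≤ J := by linarith
    rw [div_le_iff₀ hη] at h4
    rw [div_mul_eq_mul_div, div_le_iff₀ hJ']
    linarith
  -- `θ`
  set θ : ℝ := h / (100 * 8 ^ J) with hθd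
  have hθ : 0 < θ := by positivity
  have q9 : 100 * θ * 8 ^ J ≤ h := by
    rw [hθd]
    refine le_of_eq ?_
    field_simp
  -- `Z₀`
  obtain ⟨Z₁, hZ₁⟩ := exists_nat_ge ((8 * A₀ * N * J / η₁ + 40 * (t * ν) * μ * E / η + 1) ^ 2)
  refine ⟨h, θ, J, A₀, Z₁ + 1, h0, h18, hθ, hJ, q5, h3, fun Z hZ => ?_⟩
  have hZ0 : 0 < Z := by omega
  have hZ' : (0 : ℝ) < Z := by exact_mod_cast hZ0
  have hnum : Num K N t h θ J Z A₀ := ⟨hN, ht, h0, h2, h3, hθ.le, q9, hJ, hZ0, hK⟩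
  have w3 : 0 ≤ 8 * A₀ * N * J / η₁ := by positivity
  have w4 : 0 ≤ 40 * (t * ν) * μ * E / η := by positivity
  have hsZ : 8 * A₀ * N * J / η₁ + 40 * (t * ν) * μ * E / η + 1 ≤ Real.sqrt Z := by
    refine Real.le_sqrt_of_sq_le (hZ₁.trans ?_)
    exact_mod_cast (by omega : Z₁ ≤ Z)
  have hsZ0 : 0 < Real.sqrt Z := Real.sqrt_pos.2 hZ'
  have q10 : 8 * A₀ * N * J ≤ η₁ * Real.sqrt Z := by
    have h5 : 8 * A₀ * N * J / η₁ ≤ Real.sqrt Z := by linarith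
    rw [div_le_iff₀ hη₁] at h5
    linarith
  have q11 : 40 * (t * ν) * μ * E ≤ η * Real.sqrt Z := by
    have h5 : 40 * (t * ν) * μ * E / η ≤ Real.sqrt Z := by linarith
    rw [div_le_iff₀ hη] at h5
    linarith
  refine ⟨hnum, fun u A B hC φ hφ hF => ?_⟩
  have hg : ∀ y : ℝ, 0 ≤ y → |E1 u φ (RR N J A B) y - mE K hφ t h J Z A₀ y| ≤ η₁ * Real.sqrt y := fun y hy =>
    gap hnum hC hF hη₁ hτ q3 q4 q6 q7 q10 hy
  refine ⟨fun y hy => (hg y hy).trans (mul_le_mul_of_nonneg_right q1 (Real.sqrt_nonneg y)), fun x => ?_⟩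
  have hP : (0 : ℝ) < Z * (7 / 8) := by positivity
  have h2' := two hnum hC hF hη₁.le hg
  refine (mn_bound u φ (RR N J A B) (Z * (7 / 8)) μ (3 * t * nrm K N * η₁ + 3 * A₀ * (t * nrm K N) ^ 2 / J) hP
    (fun p hp => hnum.low hC hp) (fun p hp => (abs_u hC hp).le) hF.nm h2' x).trans ?_
  refine mul_le_mul_of_nonneg_right ?_ (Real.sqrt_nonneg _)
  have h6 := hnum.card hC
  have h7 : Real.exp (2 * ((RR N J A B).card : ℝ) / Real.sqrt (Z * (7 / 8))) ≤ E := Real.exp_le_exp.2 h6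
  have h8 := card_RR hC ht hJ
  have h9 : 8 * ((RR N J A B).card : ℝ) * μ / (Z * (7 / 8)) * E ≤ η / 4 := by
    have e1 : Real.sqrt Z * Real.sqrt Z = Z := Real.mul_self_sqrt hZ'.le
    rw [div_mul_eq_mul_div, div_le_iff₀ hP]
    have g1 : 8 * ((RR N J A B).card : ℝ) * μ * E ≤ 8 * (t * ν * Real.sqrt Z) * μ * E := by
      refine mul_le_mul_of_nonneg_right (mul_le_mul_of_nonneg_right ?_ hμ) hE0.le
      linarith
    have g2 : 8 * (t * ν * Real.sqrt Z) * μ * E = (40 * (t * ν) * μ * E) * (Real.sqrt Z / 5) := by ring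
    have g3 : (40 * (t * ν) * μ * E) * (Real.sqrt Z / 5) ≤ η * Real.sqrt Z * (Real.sqrt Z / 5) :=
      mul_le_mul_of_nonneg_right q11 (by positivity)
    have g4 : η * Real.sqrt Z * (Real.sqrt Z / 5) = η / 5 * Z := by
      calc η * Real.sqrt Z * (Real.sqrt Z / 5) = η / 5 * (Real.sqrt Z * Real.sqrt Z) := by ring
        _ = _ := by rw [e1]
    have g5 : η / 5 * Z ≤ η / 4 * (Z * (7 / 8)) := by nlinarith [mul_pos hη hZ']
    linarith
  have h10 : 0 ≤ 3 * t * nrm K N * η₁ + 3 * A₀ * (t * nrm K N) ^ 2 / J +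
      8 * ((RR N J A B).card : ℝ) * μ / (Z * (7 / 8)) := by positivity
  refine (mul_le_mul_of_nonneg_left h7 h10).trans ?_
  have e2 : (3 * t * nrm K N * η₁ + 3 * A₀ * (t * nrm K N) ^ 2 / J +
      8 * ((RR N J A B).card : ℝ) * μ / (Z * (7 / 8))) * E = a * η₁ * E + 3 * A₀ * (t * ν) ^ 2 / J * E +
      8 * ((RR N J A B).card : ℝ) * μ / (Z * (7 / 8)) * E := by
    rw [ha, hνd]
    ring
  rw [e2]
  linarith

end Pool.Agent.Helper96.QC
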