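import Mathlib

/-!
Project JC / QC (MP_a499ba_nt): the pre-stage. Definitions.

Sign changes at primes `p` near `k Z (1 - h_j)` (effect `+ sg (K k)`) and near `k Z (1 + h_j)` (effect `- sg (K k)`),
`h_j = h / 8 ^ j`, `j < J`, `k ≤ N`.  The first order effect on a summatory function `φ (x) = ∑_{n ≤ x} h(n)` at `x = y Z`
is `t √Z ∑_a (K * h)(a) Sp (y / a)`, where `Sp` is a spike of height `1` at `1`; the higher orders vanish as `J → ∞`.
-/

set_option autoImplicit false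

namespace Pool.Agent.Helper96.QC

open Finset

/-- Main part of the effect of sign changes at the elements of `R`: `∑_{T ⊆ R} (∏_{p ∈ T} u p) φ (x / ∏ T)`. -/
noncomputable def mn (u φ : ℕ → ℝ) (R : Finset ℕ) (x : ℕ) : ℝ :=
  ∑ T ∈ R.powerset, (∏ p ∈ T, u p) * φ (x / ∏ p ∈ T, p)

/-- The first order effect. -/
noncomputable def E1 (u φ : ℕ → ℝ) (R : Finset ℕ) (y : ℝ) : ℝ := ∑ p ∈ R, u p * φ ⌊y / p⌋₊

/-- `h / 8 ^ j`. -/
noncomputable def hj (h : ℝ) (j : ℕ) : ℝ := h / 8 ^ j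

open Classical in
/-- The spike. -/
noncomputable def Sp (h : ℝ) (J : ℕ) (v : ℝ) : ℝ :=
  (((range J).filter fun j => 1 - hj h j ≤ v ∧ v < 1 + hj h j).card : ℝ) / J

/-- Dirichlet convolution. -/
noncomputable def cv (K h : ℕ → ℝ) (a : ℕ) : ℝ := ∑ k ∈ a.divisors, K k * h (a / k)

/-- The sign. -/
noncomputable def sg (x : ℝ) : ℝ := if 0 ≤ x then 1 else -1

/-- The number of sign changes of a cluster. -/
noncomputable def nk (t K : ℝ) (J Z : ℕ) : ℕ := ⌊t * |K| * Real.sqrt Z / (2 * J)⌋₊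

/-- `A k j` is a set of numbers near `k Z (1 - h_j)`, `B k j` a set of numbers near `k Z (1 + h_j)`. -/
structure CL (K : ℕ → ℝ) (N : ℕ) (t h θ : ℝ) (J Z : ℕ) (u : ℕ → ℝ) (A B : ℕ → ℕ → Finset ℕ) : Prop where
  mA : ∀ k ∈ Icc 1 N, ∀ j < J, ∀ p ∈ A k j, k * Z * (1 - hj h j) ≤ (p : ℝ) ∧
    (p : ℝ) ≤ k * Z * (1 - hj h j) * (1 + θ) ∧ u p = 2 * sg (K k)
  mB : ∀ k ∈ Icc 1 N, ∀ j < J, ∀ p ∈ B k j, k * Z * (1 + hj h j) ≤ (p : ℝ) ∧
    (p : ℝ) ≤ k * Z * (1 + hj h j) * (1 + θ) ∧ u p = -(2 * sg (K k))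
  cA : ∀ k ∈ Icc 1 N, ∀ j < J, (A k j).card = nk t (K k) J Z
  cB : ∀ k ∈ Icc 1 N, ∀ j < J, (B k j).card = nk t (K k) J Z

/-- The union of all clusters. -/
def RR (N J : ℕ) (A B : ℕ → ℕ → Finset ℕ) : Finset ℕ :=
  (Icc 1 N).biUnion fun k => (range J).biUnion fun j => A k j ∪ B k j

/-- The sum of the weights of the numbers up to `y`. -/
noncomputable def Wt (u : ℕ → ℝ) (R : Finset ℕ) (y : ℝ) : ℝ := ∑ p ∈ R.filter (fun p : ℕ => (p : ℝ) ≤ y), u p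

/-- The main part of the first order effect. -/
noncomputable def mE (K hφ : ℕ → ℝ) (t h : ℝ) (J Z A₀ : ℕ) (y : ℝ) : ℝ :=
  t * Real.sqrt Z * ∑ a ∈ Icc 1 A₀, cv K hφ a * Sp h J (y / (a * Z))

/-- The sum of the absolute values of the coefficients. -/
noncomputable def nrm (K : ℕ → ℝ) (N : ℕ) : ℝ := ∑ k ∈ Icc 1 N, |K k|

end Pool.Agent.Helper96.QC
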