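import Pool.Agent.Helper96.QC.Wap

/-!
Project JC / QC (MP_a499ba_nt), block QC-6: the first order effect.

`E1_eq`: exchange of the sums. `E1_approx`: `Wt_approx` and the rearrangement `n k = a`. `mE_cases`: the spikes are disjoint.
-/

set_option autoImplicit false

namespace Pool.Agent.Helper96.QC

open Finset

variable {K hφ φ : ℕ → ℝ} {N : ℕ} {t h θ : ℝ} {J Z A₀ : ℕ} {u : ℕ → ℝ} {A B : ℕ → ℕ → Finset ℕ} {R : Finset ℕ}

theorem E1_eq (hs : ∀ x : ℕ, φ x = ∑ n ∈ Icc 1 x, hφ n) (hR : ∀ p ∈ R, 0 < p) {y : ℝ} (hy : 0 ≤ y) {M : ℕ}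
    (hM : ∀ p ∈ R, ⌊y / p⌋₊ ≤ M) : E1 u φ R y = ∑ n ∈ Icc 1 M, hφ n * Wt u R (y / n) := by
  classical
  have e1 : ∀ p ∈ R, u p * φ ⌊y / p⌋₊ = ∑ n ∈ Icc 1 M, if (p : ℝ) ≤ y / n then hφ n * u p else 0 := by
    intro p hp
    have hp0 : (0 : ℝ) < p := by exact_mod_cast hR p hp
    rw [hs, Finset.mul_sum, ← Finset.sum_filter]
    refine Finset.sum_congr ?_ fun n _ => by ring
    ext n
    rw [Finset.mem_filter, mem_Icc, mem_Icc]
    constructor
    · rintro ⟨h1, h2⟩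
      have hn0 : (0 : ℝ) < n := by exact_mod_cast h1
      refine ⟨⟨h1, h2.trans (hM p hp)⟩, ?_⟩
      have h3 : (n : ℝ) ≤ y / p := (Nat.le_floor_iff (by positivity)).1 h2
      rw [le_div_iff₀ hp0] at h3
      rw [le_div_iff₀ hn0]
      linarith
    · rintro ⟨⟨h1, h2⟩, h3⟩
      have hn0 : (0 : ℝ) < n := by exact_mod_cast h1
      refine ⟨h1, Nat.le_floor ?_⟩
      rw [le_div_iff₀ hn0] at h3
      rw [le_div_iff₀ hp0]
      linarith
  unfold E1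
  rw [Finset.sum_congr rfl e1, Finset.sum_comm]
  refine Finset.sum_congr rfl fun n _ => ?_
  unfold Wt
  rw [Finset.mul_sum, Finset.sum_filter]

theorem Sp_low {h : ℝ} (h0 : 0 ≤ h) {J : ℕ} {v : ℝ} (hv : v < 1 - h) : Sp h J v = 0 := by
  by_contra hne
  exact absurd (Sp_supp h0 hne).1 (not_le.2 hv)

theorem rearrange (hK : ∀ k, K k ≠ 0 → 1 ≤ k ∧ k ≤ N) (F : ℕ → ℝ) (hF : ∀ a, A₀ < a → F a = 0) :
    ∑ n ∈ Icc 1 A₀, hφ n * ∑ k ∈ Icc 1 N, K k * F (n * k) = ∑ a ∈ Icc 1 A₀, cv K hφ a * F a := by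
  classical
  set T : ℕ × ℕ → ℝ := fun q => K q.1 * hφ q.2 * F (q.1 * q.2) with hT
  set P : Finset (ℕ × ℕ) := (Icc 1 A₀ ×ˢ Icc 1 A₀).filter fun q => q.1 * q.2 ∈ Icc 1 A₀ with hP
  have e1 : ∑ n ∈ Icc 1 A₀, hφ n * ∑ k ∈ Icc 1 N, K k * F (n * k) = ∑ q ∈ Icc 1 N ×ˢ Icc 1 A₀, T q := by
    rw [Finset.sum_product_right]
    refine Finset.sum_congr rfl fun n _ => ?_
    rw [Finset.mul_sum]
    refine Finset.sum_congr rfl fun k _ => ?_
    simp only [hT]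
    rw [Nat.mul_comm n k]
    ring
  have e2 : ∑ a ∈ Icc 1 A₀, cv K hφ a * F a = ∑ q ∈ P, T q := by
    rw [← Finset.sum_fiberwise_of_maps_to (s := P) (t := Icc 1 A₀) (g := fun q : ℕ × ℕ => q.1 * q.2)
      (fun q hq => (Finset.mem_filter.1 hq).2)]
    refine Finset.sum_congr rfl fun a ha => ?_
    have ha1 := mem_Icc.1 ha
    unfold cv
    rw [← Nat.sum_divisorsAntidiagonal (f := fun i j => K i * hφ j), Finset.sum_mul]
    refine Finset.sum_congr ?_ fun q hq => ?_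
    · ext q
      rw [Nat.mem_divisorsAntidiagonal, Finset.mem_filter, hP, Finset.mem_filter, Finset.mem_product, mem_Icc,
        mem_Icc, mem_Icc]
      constructor
      · rintro ⟨h1, h2⟩
        have h3 : q.1 ≠ 0 := by
          intro h
          rw [h, zero_mul] at h1
          omega
        have h4 : q.2 ≠ 0 := by
          intro h
          rw [h, mul_zero] at h1
          omega
        have h5 : q.1 ≤ q.1 * q.2 := Nat.le_mul_of_pos_right _ (Nat.pos_of_ne_zero h4)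
        have h6 : q.2 ≤ q.1 * q.2 := Nat.le_mul_of_pos_left _ (Nat.pos_of_ne_zero h3)
        refine ⟨⟨⟨⟨by omega, by omega⟩, by omega, by omega⟩, by omega, by omega⟩, h1⟩
      · rintro ⟨-, h1⟩
        exact ⟨h1, by omega⟩
    · simp only [hT]
      rw [(Finset.mem_filter.1 hq).2]
  rw [e1, e2]
  have e3 : ∑ q ∈ Icc 1 N ×ˢ Icc 1 A₀, T q = ∑ q ∈ (Icc 1 N ×ˢ Icc 1 A₀) ∩ P, T q := by
    refine (Finset.sum_subset Finset.inter_subset_left fun q hq hq2 => ?_).symm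
    rw [Finset.mem_product, mem_Icc, mem_Icc] at hq
    have h1 : A₀ < q.1 * q.2 := by
      by_contra h2
      refine hq2 (Finset.mem_inter.2 ⟨?_, ?_⟩)
      · rw [Finset.mem_product, mem_Icc, mem_Icc]
        exact hq
      · rw [hP, Finset.mem_filter, Finset.mem_product, mem_Icc, mem_Icc, mem_Icc]
        have h5 : q.1 ≤ q.1 * q.2 := Nat.le_mul_of_pos_right _ (by omega)
        have h6 : 1 ≤ q.1 * q.2 := Nat.mul_pos (by omega) (by omega)
        refine ⟨⟨⟨hq.1.1, by omega⟩, hq.2⟩, h6, by omega⟩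
    simp only [hT]
    rw [hF _ h1, mul_zero]
  have e4 : ∑ q ∈ P, T q = ∑ q ∈ (Icc 1 N ×ˢ Icc 1 A₀) ∩ P, T q := by
    refine (Finset.sum_subset Finset.inter_subset_right fun q hq hq2 => ?_).symm
    simp only [hT]
    by_cases h1 : K q.1 = 0
    · rw [h1, zero_mul, zero_mul]
    · exfalso
      refine hq2 (Finset.mem_inter.2 ⟨?_, hq⟩)
      rw [hP, Finset.mem_filter, Finset.mem_product] at hq
      rw [Finset.mem_product, mem_Icc]
      exact ⟨hK _ h1, hq.1.2⟩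
  rw [e3, e4]

theorem E1_approx (hC : CL K N t h θ J Z u A B) (hN : 1 ≤ N) (ht : 0 ≤ t) (h0 : 0 < h) (h1 : 8 * N * h ≤ 1) (hθ0 : 0 ≤ θ)
    (hθ : 100 * θ * 8 ^ J ≤ h) (hJ : 0 < J) (hZ : 0 < Z) (hK : ∀ k, K k ≠ 0 → 1 ≤ k ∧ k ≤ N)
    (hs : ∀ x : ℕ, φ x = ∑ n ∈ Icc 1 x, hφ n) (hb : ∀ n, |hφ n| ≤ 1) {y : ℝ} (hy : 0 ≤ y) (hyA : 2 * y ≤ A₀ * Z) :
    |E1 u φ (RR N J A B) y - mE K hφ t h J Z A₀ y| ≤ A₀ * (t * nrm K N * Real.sqrt Z / J + 2 * N * J) := by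
  have hN' : (1 : ℝ) ≤ N := by exact_mod_cast hN
  have h18 : h ≤ 1 / 8 := by nlinarith
  have hZ' : (0 : ℝ) < Z := by exact_mod_cast hZ
  have hθ1 : θ ≤ 1 / 8 := by
    have h2 := th_le hθ0 hθ hJ
    have h3 := hj_le h0.le 0
    linarith
  have hRp : ∀ p ∈ RR N J A B, (Z : ℝ) * (7 / 8) ≤ p := fun p hp => by
    have h2 := (mem_RR hC h0 h18 hθ0 hθ1 hp).1
    have h3 : (Z : ℝ) * (7 / 8) ≤ Z * (1 - h) := mul_le_mul_of_nonneg_left (by linarith) hZ'.le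
    linarith
  have hR0 : ∀ p ∈ RR N J A B, 0 < p := fun p hp => by
    have h2 := hRp p hp
    have h3 : (0 : ℝ) < p := by nlinarith
    exact_mod_cast h3
  have hM : ∀ p ∈ RR N J A B, ⌊y / p⌋₊ ≤ A₀ := fun p hp => by
    have h2 := hRp p hp
    have h3 : (0 : ℝ) < p := by nlinarith
    refine Nat.floor_le_of_le ?_
    rw [div_le_iff₀ h3]
    have h4 : (A₀ : ℝ) * (Z * (7 / 8)) ≤ A₀ * p := mul_le_mul_of_nonneg_left h2 (Nat.cast_nonneg _)
    nlinarith [mul_nonneg (Nat.cast_nonneg (α := ℝ) A₀) hZ'.le]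
  rw [E1_eq hs hR0 hy hM]
  have e1 : mE K hφ t h J Z A₀ y = ∑ n ∈ Icc 1 A₀, hφ n *
      (t * Real.sqrt Z * ∑ k ∈ Icc 1 N, K k * Sp h J (y / n / (k * Z))) := by
    have e2 := rearrange (hφ := hφ) hK (fun a => Sp h J (y / (a * Z))) (A₀ := A₀) (fun a ha => by
      refine Sp_low h0.le ?_
      have ha' : (A₀ : ℝ) + 1 ≤ a := by exact_mod_cast ha
      have ha0 : (0 : ℝ) < a := by
        have := Nat.cast_nonneg (α := ℝ) A₀
        linarith
      rw [div_lt_iff₀ (by positivity)]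
      have h4 : (A₀ : ℝ) * Z ≤ a * Z := mul_le_mul_of_nonneg_right (by linarith) hZ'.le
      have h5 : (a * Z : ℝ) * (7 / 8) ≤ (1 - h) * (a * Z) := by
        rw [mul_comm]
        exact mul_le_mul_of_nonneg_right (by linarith) (by positivity)
      have h6 : 0 < (a : ℝ) * Z := by positivity
      linarith)
    unfold mE
    rw [← e2, Finset.mul_sum]
    refine Finset.sum_congr rfl fun n _ => ?_
    have e3 : ∀ k : ℕ, y / (((n * k : ℕ) : ℝ) * Z) = y / n / (k * Z) := by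
      intro k
      push_cast
      rw [div_div, mul_assoc]
    simp only [e3]
    ring
  rw [e1, ← Finset.sum_sub_distrib]
  refine (Finset.abs_sum_le_sum_abs _ _).trans ?_
  refine (Finset.sum_le_card_nsmul _ _ (t * nrm K N * Real.sqrt Z / J + 2 * N * J) fun n _ => ?_).trans ?_
  · rw [← mul_sub, abs_mul]
    have h3 := Wt_approx hC hN ht h0 h1 hθ0 hθ hJ hZ (y / n)
    have h4 := mul_le_mul (hb n) h3 (abs_nonneg _) zero_le_one
    rw [one_mul] at h4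
    exact h4
  · rw [Nat.card_Icc, nsmul_eq_mul, Nat.add_sub_cancel]

/-- At most one spike is active. -/
theorem mE_cases (h0 : 0 ≤ h) (hA : 8 * A₀ * h ≤ 1) (hZ : 0 < Z) (y : ℝ) :
    mE K hφ t h J Z A₀ y = 0 ∨ ∃ a : ℕ, 1 ≤ a ∧ a ≤ A₀ ∧ (1 - h) * (a * Z) ≤ y ∧ y < (1 + h) * (a * Z) ∧
      mE K hφ t h J Z A₀ y = t * Real.sqrt Z * (cv K hφ a * Sp h J (y / (a * Z))) := by
  classical
  have hZ' : (0 : ℝ) < Z := by exact_mod_cast hZ
  by_cases h1 : ∃ a ∈ Icc 1 A₀, Sp h J (y / (a * Z)) ≠ 0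
  · right
    obtain ⟨a, ha, hS⟩ := h1
    have ha1 := mem_Icc.1 ha
    have supp : ∀ b ∈ Icc 1 A₀, Sp h J (y / (b * Z)) ≠ 0 → (1 - h) * (b * Z) ≤ y ∧ y < (1 + h) * (b * Z) := by
      intro b hb hb'
      have hb0 : (0 : ℝ) < b := by exact_mod_cast (mem_Icc.1 hb).1
      have h2 := Sp_supp h0 hb'
      rw [le_div_iff₀ (by positivity), div_lt_iff₀ (by positivity)] at h2
      exact h2
    obtain ⟨h2, h3⟩ := supp a ha hS
    refine ⟨a, ha1.1, ha1.2, h2, h3, ?_⟩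
    unfold mE
    rw [Finset.sum_eq_single_of_mem a ha]
    intro b hb hne
    by_contra hcon
    have hb' : Sp h J (y / (b * Z)) ≠ 0 := fun h => hcon (by rw [h, mul_zero])
    obtain ⟨h4, h5⟩ := supp b hb hb'
    have hb1 := mem_Icc.1 hb
    have aA : (a : ℝ) ≤ A₀ := by exact_mod_cast ha1.2
    have bA : (b : ℝ) ≤ A₀ := by exact_mod_cast hb1.2
    have c1 : (1 - h) * a < (1 + h) * b := by
      have : (1 - h) * a * Z < (1 + h) * b * Z := by nlinarith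
      exact lt_of_mul_lt_mul_right this hZ'.le
    have c2 : (1 - h) * b < (1 + h) * a := by
      have : (1 - h) * b * Z < (1 + h) * a * Z := by nlinarith
      exact lt_of_mul_lt_mul_right this hZ'.le
    have d1 : h * a ≤ h * A₀ := mul_le_mul_of_nonneg_left aA h0
    have d2 : h * b ≤ h * A₀ := mul_le_mul_of_nonneg_left bA h0
    have c3 : (a : ℝ) < b + 1 := by nlinarith
    have c4 : (b : ℝ) < a + 1 := by nlinarith
    have c3' : a < b + 1 := by exact_mod_cast c3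
    have c4' : b < a + 1 := by exact_mod_cast c4
    omega
  · left
    push Not at h1
    unfold mE
    rw [Finset.sum_eq_zero fun a ha => by rw [h1 a ha, mul_zero], mul_zero]

theorem abs_cv_le (hK : ∀ k, K k ≠ 0 → 1 ≤ k ∧ k ≤ N) (hb : ∀ n, |hφ n| ≤ 1) (a : ℕ) : |cv K hφ a| ≤ nrm K N := by
  classical
  unfold cv nrm
  refine (Finset.abs_sum_le_sum_abs _ _).trans ?_
  have e1 : ∑ k ∈ a.divisors, |K k * hφ (a / k)| ≤ ∑ k ∈ a.divisors, |K k| := by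
    refine Finset.sum_le_sum fun k _ => ?_
    rw [abs_mul]
    exact mul_le_of_le_one_right (abs_nonneg _) (hb _)
  refine e1.trans ?_
  have e2 : ∑ k ∈ a.divisors, |K k| = ∑ k ∈ a.divisors ∩ Icc 1 N, |K k| := by
    refine (Finset.sum_subset Finset.inter_subset_left fun k hk hk2 => ?_).symm
    by_contra hne
    exact hk2 (Finset.mem_inter.2 ⟨hk, mem_Icc.2 (hK k fun h => hne (by rw [h, abs_zero]))⟩)
  rw [e2]
  exact Finset.sum_le_sum_of_subset_of_nonneg Finset.inter_subset_right fun k _ _ => abs_nonneg _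

theorem nrm_nonneg (K : ℕ → ℝ) (N : ℕ) : 0 ≤ nrm K N := Finset.sum_nonneg fun _ _ => abs_nonneg _

theorem mE_abs (ht : 0 ≤ t) (h0 : 0 ≤ h) (hA : 8 * A₀ * h ≤ 1) (hZ : 0 < Z) (hK : ∀ k, K k ≠ 0 → 1 ≤ k ∧ k ≤ N)
    (hb : ∀ n, |hφ n| ≤ 1) (y : ℝ) : |mE K hφ t h J Z A₀ y| ≤ t * Real.sqrt Z * nrm K N := by
  have h2 := nrm_nonneg K N
  have h3 : 0 ≤ t * Real.sqrt Z := by positivity
  rcases mE_cases (K := K) (hφ := hφ) (t := t) (J := J) h0 hA hZ y with h1 | ⟨a, -, -, -, -, h1⟩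
  · rw [h1, abs_zero]
    positivity
  · rw [h1, abs_mul, abs_of_nonneg h3, abs_mul, abs_of_nonneg (Sp_nonneg _ _ _)]
    refine mul_le_mul_of_nonneg_left ?_ h3
    have h4 := mul_le_mul (abs_cv_le hK hb a) (Sp_le_one h J (y / (a * Z))) (Sp_nonneg _ _ _) h2
    rwa [mul_one] at h4

private theorem sq_aux {a Z y h : ℝ} (ha : 0 ≤ a) (hZ : 0 ≤ Z) (h18 : h ≤ 1 / 8) (hy : (1 - h) * (a * Z) ≤ y) :
    Real.sqrt Z * Real.sqrt a ≤ 2 * Real.sqrt y := by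
  rw [← Real.sqrt_mul hZ]
  have h1 : Z * a ≤ 2 ^ 2 * y := by
    have : 0 ≤ a * Z := mul_nonneg ha hZ
    nlinarith
  refine (Real.sqrt_le_sqrt h1).trans (le_of_eq ?_)
  rw [Real.sqrt_mul (by norm_num), Real.sqrt_sq (by norm_num)]

theorem mE_le (ht : 0 ≤ t) (h0 : 0 ≤ h) (h18 : h ≤ 1 / 8) (hA : 8 * A₀ * h ≤ 1) (hZ : 0 < Z) {c : ℝ} (hc : 0 ≤ c)
    (h2 : ∀ a : ℕ, 1 ≤ a → cv K hφ a ≤ c * Real.sqrt a) (y : ℝ) :
    mE K hφ t h J Z A₀ y ≤ 2 * t * c * Real.sqrt y := by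
  have hZ' : (0 : ℝ) < Z := by exact_mod_cast hZ
  have h3 : 0 ≤ t * Real.sqrt Z := by positivity
  rcases mE_cases (K := K) (hφ := hφ) (t := t) (J := J) h0 hA hZ y with h1 | ⟨a, ha, -, h4, -, h1⟩
  · rw [h1]
    positivity
  · rw [h1]
    have h5 := Sp_nonneg h J (y / (a * Z))
    have h6 := Sp_le_one h J (y / (a * Z))
    have h7 : cv K hφ a * Sp h J (y / (a * Z)) ≤ c * Real.sqrt a := by
      have g1 : cv K hφ a * Sp h J (y / (a * Z)) ≤ c * Real.sqrt a * Sp h J (y / (a * Z)) :=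
        mul_le_mul_of_nonneg_right (h2 a ha) h5
      have g2 : c * Real.sqrt a * Sp h J (y / (a * Z)) ≤ c * Real.sqrt a * 1 :=
        mul_le_mul_of_nonneg_left h6 (by positivity)
      linarith
    have h8 := sq_aux (Nat.cast_nonneg a) hZ'.le h18 h4
    calc t * Real.sqrt Z * (cv K hφ a * Sp h J (y / (a * Z))) ≤ t * Real.sqrt Z * (c * Real.sqrt a) :=
          mul_le_mul_of_nonneg_left h7 h3
      _ = t * c * (Real.sqrt Z * Real.sqrt a) := by ring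
      _ ≤ t * c * (2 * Real.sqrt y) := mul_le_mul_of_nonneg_left h8 (by positivity)
      _ = 2 * t * c * Real.sqrt y := by ring

theorem mE_ge (ht : 0 ≤ t) (h0 : 0 ≤ h) (h18 : h ≤ 1 / 8) (hA : 8 * A₀ * h ≤ 1) (hZ : 0 < Z) {c : ℝ} (hc : 0 ≤ c)
    (h2 : ∀ a : ℕ, 1 ≤ a → -(c * Real.sqrt a) ≤ cv K hφ a) (y : ℝ) :
    -(2 * t * c * Real.sqrt y) ≤ mE K hφ t h J Z A₀ y := by
  have h3 := mE_le (K := fun k => -K k) (hφ := hφ) (J := J) ht h0 h18 hA hZ hc (fun a ha => by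
    have := h2 a ha
    unfold cv at this ⊢
    simp only [neg_mul, Finset.sum_neg_distrib]
    linarith) y
  unfold mE at h3 ⊢
  unfold cv at h3 ⊢
  simp only [neg_mul, Finset.sum_neg_distrib, mul_neg] at h3
  linarith

theorem mE_at (h0 : 0 < h) (hA : 8 * A₀ * h ≤ 1) (hJ : 0 < J) (hZ : 0 < Z) {Q : ℕ} (hQ : 1 ≤ Q) (hQA : Q ≤ A₀) :
    mE K hφ t h J Z A₀ ((Q * Z : ℕ) : ℝ) = t * Real.sqrt Z * cv K hφ Q := by
  have hZ' : (0 : ℝ) < Z := by exact_mod_cast hZ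
  have hQ' : (0 : ℝ) < Q := by exact_mod_cast hQ
  unfold mE
  rw [Finset.sum_eq_single_of_mem Q (mem_Icc.2 ⟨hQ, hQA⟩)]
  · have e1 : ((Q * Z : ℕ) : ℝ) / (Q * Z) = 1 := by
      push_cast
      exact div_self (by positivity)
    rw [e1, Sp_one h0 hJ, mul_one]
  · intro b hb hne
    have hb1 := mem_Icc.1 hb
    have hb0 : (0 : ℝ) < b := by exact_mod_cast hb1.1
    have hbA : (b : ℝ) ≤ A₀ := by exact_mod_cast hb1.2
    have h3 : Sp h J (((Q * Z : ℕ) : ℝ) / (b * Z)) = 0 := by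
      by_contra hcon
      obtain ⟨h4, h5⟩ := Sp_supp h0.le hcon
      have e1 : ((Q * Z : ℕ) : ℝ) / (b * Z) = Q / b := by
        push_cast
        exact mul_div_mul_right _ _ hZ'.ne'
      rw [e1, le_div_iff₀ hb0] at h4
      rw [e1, div_lt_iff₀ hb0] at h5
      have d2 : h * b ≤ h * A₀ := mul_le_mul_of_nonneg_left hbA h0.le
      have c3 : (b : ℝ) < Q + 1 := by nlinarith
      have c4 : (Q : ℝ) < b + 1 := by nlinarith
      have c3' : b < Q + 1 := by exact_mod_cast c3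
      have c4' : Q < b + 1 := by exact_mod_cast c4
      omega
    rw [h3, mul_zero]

/-- The second order of the main part. -/
theorem mE_two (hC : CL K N t h θ J Z u A B) (hN : 1 ≤ N) (ht : 0 ≤ t) (h0 : 0 < h) (h1 : 8 * N * h ≤ 1) (hθ0 : 0 ≤ θ)
    (hθ : 100 * θ * 8 ^ J ≤ h) (hJ : 0 < J) (hZ : 0 < Z) (hK : ∀ k, K k ≠ 0 → 1 ≤ k ∧ k ≤ N)
    (hb : ∀ n, |hφ n| ≤ 1) {y : ℝ} (hy : 0 < y) :
    |∑ p ∈ RR N J A B, u p * mE K hφ t h J Z A₀ (y / p)| ≤ 2 * A₀ * t ^ 2 * nrm K N ^ 2 * Z / J := by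
  have hZ' : (0 : ℝ) < Z := by exact_mod_cast hZ
  have hJ' : (0 : ℝ) < J := by exact_mod_cast hJ
  have hn := nrm_nonneg K N
  have e1 : ∑ p ∈ RR N J A B, u p * mE K hφ t h J Z A₀ (y / p) = t * Real.sqrt Z * ∑ a ∈ Icc 1 A₀,
      cv K hφ a * ∑ p ∈ RR N J A B, u p * Sp h J (y / (a * Z) / p) := by
    unfold mE
    rw [Finset.mul_sum]
    simp only [Finset.mul_sum]
    rw [Finset.sum_comm]
    refine Finset.sum_congr rfl fun a _ => Finset.sum_congr rfl fun p _ => ?_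
    rw [div_right_comm]
    ring
  rw [e1, abs_mul, abs_of_nonneg (by positivity : 0 ≤ t * Real.sqrt Z)]
  have e2 : |∑ a ∈ Icc 1 A₀, cv K hφ a * ∑ p ∈ RR N J A B, u p * Sp h J (y / (a * Z) / p)| ≤
      A₀ * (nrm K N * (2 * t * nrm K N * Real.sqrt Z / J)) := by
    refine (Finset.abs_sum_le_sum_abs _ _).trans ?_
    refine (Finset.sum_le_card_nsmul _ _ (nrm K N * (2 * t * nrm K N * Real.sqrt Z / J)) fun a ha => ?_).trans ?_
    · have ha0 : (0 : ℝ) < a := by exact_mod_cast (mem_Icc.1 ha).1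
      rw [abs_mul]
      exact mul_le_mul (abs_cv_le hK hb a) (Sp_sum hC hN ht h0 h1 hθ0 hθ hJ hZ (by positivity)) (abs_nonneg _) hn
    · rw [Nat.card_Icc, nsmul_eq_mul, Nat.add_sub_cancel]
  refine (mul_le_mul_of_nonneg_left e2 (by positivity)).trans (le_of_eq ?_)
  have e3 : Real.sqrt Z * Real.sqrt Z = Z := Real.mul_self_sqrt hZ'.le
  calc t * Real.sqrt Z * (A₀ * (nrm K N * (2 * t * nrm K N * Real.sqrt Z / J)))
      = 2 * A₀ * t ^ 2 * nrm K N ^ 2 * (Real.sqrt Z * Real.sqrt Z) / J := by ring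
    _ = _ := by rw [e3]

end Pool.Agent.Helper96.QC
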