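import Pool.Agent.Helper96.QC.Defs

/-!
Project JC / QC (MP_a499ba_nt), block QC-1: the spike and its lacunary cancellation.

`lac`, proof in words. Put `w = v - 1`, `h_j = h / 8 ^ j`. The exceptional `j₀` is the (at most one) `j` with
`|w| / 2 < h_j < 2 |w|`.
Case A, `2 |w| ≤ h_j`: `v / a - 1 = (w + h_j - small) / a` is in `[h_j / 4, 2 h_j]` and `1 - v / b` is in
`[h_j / 4, 2 h_j]`, so both spikes are `(j or j + 1) / J` (the number of `i` with `h_i ≥ h_j / 4 ... 2 h_j`).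
Case B, `2 h_j ≤ |w|`: `v / a - 1` and `v / b - 1` have the sign of `w` and absolute value in `[0.4 |w|, 1.8 |w|]`, and
there is at most one `i` with `h_i` in this interval. So in both cases the two counts differ by at most `1`.
-/

set_option autoImplicit false

namespace Pool.Agent.Helper96.QC

open Finset

theorem Sp_nonneg (h : ℝ) (J : ℕ) (v : ℝ) : 0 ≤ Sp h J v := by
  unfold Sp
  positivity

theorem Sp_le_one (h : ℝ) (J : ℕ) (v : ℝ) : Sp h J v ≤ 1 := by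
  unfold Sp
  refine div_le_one_of_le₀ ?_ (Nat.cast_nonneg _)
  have h1 := card_filter_le (range J) (fun j => 1 - hj h j ≤ v ∧ v < 1 + hj h j)
  rw [card_range] at h1
  exact_mod_cast h1

private lemma hj_pos33 {h : ℝ} (h0 : 0 < h) (j : ℕ) : 0 < hj h j := by
  unfold hj
  positivity

private lemma hj_lt33 {h : ℝ} (h0 : 0 ≤ h) {i j : ℕ} (hij : i < j) : 8 * hj h j ≤ hj h i := by
  unfold hj
  have h1 : (8 : ℝ) ^ (i + 1) ≤ 8 ^ j := pow_le_pow_right₀ (by norm_num) hij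
  have h2 : (0 : ℝ) < 8 ^ i := by positivity
  have h3 : (0 : ℝ) < 8 ^ j := by positivity
  rw [mul_div_assoc', div_le_div_iff₀ h3 h2]
  have h4 : h * 8 ^ (i + 1) ≤ h * 8 ^ j := mul_le_mul_of_nonneg_left h1 h0
  rw [pow_succ] at h4
  linarith

private lemma hj_le33 {h : ℝ} (h0 : 0 ≤ h) (j : ℕ) : hj h j ≤ h := by
  unfold hj
  exact div_le_self h0 (one_le_pow₀ (by norm_num))

theorem Sp_one {h : ℝ} (h0 : 0 < h) {J : ℕ} (hJ : 0 < J) : Sp h J 1 = 1 := by
  unfold Sp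
  rw [filter_true_of_mem, card_range, div_self (by exact_mod_cast hJ.ne')]
  intro j _
  have := hj_pos33 h0 j
  constructor <;> linarith

theorem Sp_supp {h : ℝ} (h0 : 0 ≤ h) {J : ℕ} {v : ℝ} (hv : Sp h J v ≠ 0) : 1 - h ≤ v ∧ v < 1 + h := by
  classical
  have hne : ((range J).filter fun j => 1 - hj h j ≤ v ∧ v < 1 + hj h j).Nonempty := by
    rw [nonempty_iff_ne_empty]
    intro hemp
    refine hv ?_
    unfold Sp
    rw [div_eq_zero_iff]
    left
    rw [Nat.cast_eq_zero, card_eq_zero]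
    exact hemp
  obtain ⟨j, hj1⟩ := hne
  obtain ⟨-, h1, h2⟩ := mem_filter.1 hj1
  have h3 := hj_le33 h0 j
  constructor <;> linarith

/-- Two spikes at the same distance scale differ by at most `1 / J`. -/
private lemma lac_aux33 {h : ℝ} (h0 : 0 < h) (J : ℕ) {x y M : ℝ} (hM : 0 < M)
    (hx1 : 2 / 5 * M ≤ |x - 1|) (hx2 : |x - 1| ≤ 9 / 5 * M)
    (hy1 : 2 / 5 * M ≤ |y - 1|) (hy2 : |y - 1| ≤ 9 / 5 * M) :
    |Sp h J x - Sp h J y| ≤ 1 / J := by
  classical
  have key : ∀ z : ℝ, 2 / 5 * M ≤ |z - 1| → |z - 1| ≤ 9 / 5 * M → ∀ i : ℕ,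
      (9 / 5 * M < hj h i → (1 - hj h i ≤ z ∧ z < 1 + hj h i)) ∧
      (hj h i < 2 / 5 * M → ¬ (1 - hj h i ≤ z ∧ z < 1 + hj h i)) := by
    intro z hz1 hz2 i
    constructor
    · intro hi
      have h1 : |z - 1| < hj h i := lt_of_le_of_lt hz2 hi
      rw [abs_lt] at h1
      constructor <;> linarith [h1.1, h1.2]
    · rintro hi ⟨h1, h2⟩
      have h3 : |z - 1| ≤ hj h i := abs_le.2 ⟨by linarith, by linarith⟩
      linarith
  -- the exceptional index
  obtain ⟨i₀, hi₀⟩ : ∃ i₀ : ℕ, ∀ i, i ≠ i₀ →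
      ((1 - hj h i ≤ x ∧ x < 1 + hj h i) ↔ (1 - hj h i ≤ y ∧ y < 1 + hj h i)) := by
    by_cases hex : ∃ i₀ : ℕ, 2 / 5 * M ≤ hj h i₀ ∧ hj h i₀ ≤ 9 / 5 * M
    · obtain ⟨i₀, h1, h2⟩ := hex
      refine ⟨i₀, fun i hi => ?_⟩
      rcases lt_or_gt_of_ne hi with hlt | hgt
      · have h3 := hj_lt33 h0.le hlt
        have h4 : 9 / 5 * M < hj h i := by linarith
        exact ⟨fun _ => (key y hy1 hy2 i).1 h4, fun _ => (key x hx1 hx2 i).1 h4⟩
      · have h3 := hj_lt33 h0.le hgt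
        have h4 : hj h i < 2 / 5 * M := by linarith
        exact ⟨fun h5 => absurd h5 ((key x hx1 hx2 i).2 h4),
          fun h5 => absurd h5 ((key y hy1 hy2 i).2 h4)⟩
    · push Not at hex
      refine ⟨0, fun i _ => ?_⟩
      rcases lt_or_ge (hj h i) (2 / 5 * M) with h4 | h4
      · exact ⟨fun h5 => absurd h5 ((key x hx1 hx2 i).2 h4),
          fun h5 => absurd h5 ((key y hy1 hy2 i).2 h4)⟩
      · have h6 := hex i h4
        exact ⟨fun _ => (key y hy1 hy2 i).1 h6, fun _ => (key x hx1 hx2 i).1 h6⟩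
  unfold Sp
  rw [← sub_div, abs_div, Nat.abs_cast]
  refine div_le_div_of_nonneg_right ?_ (Nat.cast_nonneg _)
  have hc : ∀ (P Q : ℕ → Prop), (∀ i, i ≠ i₀ → (P i → Q i)) →
      ((range J).filter P).card ≤ ((range J).filter Q).card + 1 := by
    intro P Q hPQ
    refine le_trans (card_le_card ?_) (card_insert_le i₀ _)
    intro i hi
    obtain ⟨h1, h2⟩ := mem_filter.1 hi
    by_cases hii : i = i₀
    · exact mem_insert.2 (Or.inl hii)
    · exact mem_insert.2 (Or.inr (mem_filter.2 ⟨h1, hPQ i hii h2⟩))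
  have h1 := hc (fun j => 1 - hj h j ≤ x ∧ x < 1 + hj h j) (fun j => 1 - hj h j ≤ y ∧ y < 1 + hj h j)
    fun i hi => (hi₀ i hi).1
  have h2 := hc (fun j => 1 - hj h j ≤ y ∧ y < 1 + hj h j) (fun j => 1 - hj h j ≤ x ∧ x < 1 + hj h j)
    fun i hi => (hi₀ i hi).2
  have h3 : ((((range J).filter fun j => 1 - hj h j ≤ x ∧ x < 1 + hj h j).card : ℕ) : ℝ) ≤
      ((((range J).filter fun j => 1 - hj h j ≤ y ∧ y < 1 + hj h j).card : ℕ) : ℝ) + 1 := by
    exact_mod_cast h1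
  have h4 : ((((range J).filter fun j => 1 - hj h j ≤ y ∧ y < 1 + hj h j).card : ℕ) : ℝ) ≤
      ((((range J).filter fun j => 1 - hj h j ≤ x ∧ x < 1 + hj h j).card : ℕ) : ℝ) + 1 := by
    exact_mod_cast h2
  rw [abs_le]
  constructor <;> linarith

/-- The distance of `v / c` to `1`. -/
private lemma dist33 {v c M : ℝ} (hc0 : 0 < c) (h1 : 2 / 5 * M * c ≤ |v - c|)
    (h2 : |v - c| ≤ 9 / 5 * M * c) : 2 / 5 * M ≤ |v / c - 1| ∧ |v / c - 1| ≤ 9 / 5 * M := by
  have h3 : |v / c - 1| = |v - c| / c := by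
    rw [div_sub_one hc0.ne', abs_div, abs_of_pos hc0]
  rw [h3, le_div_iff₀ hc0, div_le_iff₀ hc0]
  exact ⟨h1, h2⟩

theorem lac {h θ : ℝ} (h0 : 0 < h) (h1 : h ≤ 1 / 8) {J : ℕ} (hθ0 : 0 ≤ θ) (hθ : 100 * θ * 8 ^ J ≤ h) {v : ℝ}
    (hv : 0 < v) : ∃ j₀ : ℕ, ∀ j < J, j ≠ j₀ → ∀ a b : ℝ, 1 - hj h j ≤ a → a ≤ (1 - hj h j) * (1 + θ) →
      1 + hj h j ≤ b → b ≤ (1 + hj h j) * (1 + θ) → |Sp h J (v / a) - Sp h J (v / b)| ≤ 1 / J := by
  have _ := hv
  obtain ⟨w, rfl⟩ : ∃ w, v = 1 + w := ⟨v - 1, by ring⟩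
  -- the exceptional index
  obtain ⟨j₀, hj₀⟩ : ∃ j₀ : ℕ, ∀ j, j ≠ j₀ → 2 * |w| ≤ hj h j ∨ 2 * hj h j ≤ |w| := by
    by_cases hex : ∃ j₀ : ℕ, |w| < 2 * hj h j₀ ∧ hj h j₀ < 2 * |w|
    · obtain ⟨j₀, h2, h3⟩ := hex
      refine ⟨j₀, fun j hj' => ?_⟩
      rcases lt_or_gt_of_ne hj' with hlt | hgt
      · left
        have := hj_lt33 h0.le hlt
        linarith
      · right
        have := hj_lt33 h0.le hgt
        linarith
    · push Not at hex
      refine ⟨0, fun j _ => ?_⟩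
      rcases lt_or_ge |w| (2 * hj h j) with h4 | h4
      · left
        exact hex j h4
      · right
        exact h4
  refine ⟨j₀, fun j hjJ hj' a b ha1 ha2 hb1 hb2 => ?_⟩
  set s : ℝ := hj h j with hs
  have hs0 : 0 < s := hj_pos33 h0 j
  have hs1 : s ≤ 1 / 8 := (hj_le33 h0.le j).trans h1
  have hθs : 800 * θ ≤ s := by
    rw [hs]
    unfold hj
    rw [le_div_iff₀ (by positivity)]
    have h2 : (8 : ℝ) ^ (j + 1) ≤ 8 ^ J := pow_le_pow_right₀ (by norm_num) hjJ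
    have h3 : 100 * θ * 8 ^ (j + 1) ≤ 100 * θ * 8 ^ J := mul_le_mul_of_nonneg_left h2 (by positivity)
    rw [pow_succ] at h3
    linarith
  have ha3 : 1 - a ≤ s := by linarith
  have ha4 : s - θ ≤ 1 - a := by nlinarith
  have ha5 : a ≤ 1 := by linarith
  have ha6 : 7 / 8 ≤ a := by linarith
  have hb3 : s ≤ b - 1 := by linarith
  have hb4 : b - 1 ≤ s + 2 * θ := by nlinarith
  have hb5 : 1 ≤ b := by linarith
  have hb6 : b ≤ 9 / 8 + 1 / 400 := by linarith
  have ha0 : 0 < a := by linarith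
  have hb0 : 0 < b := by linarith
  rcases hj₀ j hj' with hA | hB
  · -- `2 |w| ≤ s`
    have hw := abs_le.1 (show |w| ≤ s / 2 by linarith)
    have ea : |1 + w - a| = 1 + w - a := abs_of_nonneg (by linarith [hw.1])
    have eb : |1 + w - b| = -(1 + w - b) := abs_of_nonpos (by linarith [hw.2])
    obtain ⟨x1, x2⟩ := dist33 (v := 1 + w) (c := a) (M := s) ha0
      (by rw [ea]; nlinarith [hw.1]) (by rw [ea]; nlinarith [hw.2])
    obtain ⟨y1, y2⟩ := dist33 (v := 1 + w) (c := b) (M := s) hb0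
      (by rw [eb]; nlinarith [hw.2]) (by rw [eb]; nlinarith [hw.1])
    exact lac_aux33 h0 J hs0 x1 x2 y1 y2
  · -- `2 s ≤ |w|`
    have hw0 : 0 < |w| := by linarith
    have e1 : |w| - s ≤ |1 + w - a| := by
      have h2 := abs_sub_abs_le_abs_sub w (a - 1)
      have h3 : |a - 1| ≤ s := abs_le.2 ⟨by linarith, by linarith⟩
      have h4 : w - (a - 1) = 1 + w - a := by ring
      rw [h4] at h2
      linarith
    have e2 : |1 + w - a| ≤ |w| + s := by
      have h2 := abs_sub w (a - 1)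
      have h3 : |a - 1| ≤ s := abs_le.2 ⟨by linarith, by linarith⟩
      have h4 : w - (a - 1) = 1 + w - a := by ring
      rw [h4] at h2
      linarith
    have e3 : |w| - (s + 2 * θ) ≤ |1 + w - b| := by
      have h2 := abs_sub_abs_le_abs_sub w (b - 1)
      have h3 : |b - 1| ≤ s + 2 * θ := abs_le.2 ⟨by linarith, by linarith⟩
      have h4 : w - (b - 1) = 1 + w - b := by ring
      rw [h4] at h2
      linarith
    have e4 : |1 + w - b| ≤ |w| + (s + 2 * θ) := by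
      have h2 := abs_sub w (b - 1)
      have h3 : |b - 1| ≤ s + 2 * θ := abs_le.2 ⟨by linarith, by linarith⟩
      have h4 : w - (b - 1) = 1 + w - b := by ring
      rw [h4] at h2
      linarith
    obtain ⟨x1, x2⟩ := dist33 (v := 1 + w) (c := a) (M := |w|) ha0
      (by nlinarith) (by nlinarith)
    obtain ⟨y1, y2⟩ := dist33 (v := 1 + w) (c := b) (M := |w|) hb0
      (by nlinarith) (by nlinarith)
    exact lac_aux33 h0 J hw0 x1 x2 y1 y2

end Pool.Agent.Helper96.QC
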