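import Pool.Agent.Helper96.QC.Clu
import Pool.Agent.Helper96.QC.Lac

/-!
Project JC / QC (MP_a499ba_nt), block QC-5: the cumulative weights and the second order sums.

`Wt_approx`: by `sum_RR`, `Wt(y) = ∑_k 2 sg(K k) ∑_j (#{p ∈ A k j, p ≤ y} - #{p ∈ B k j, p ≤ y})`. The first number is
`n_k [k Z (1 - h_j) ≤ y]` except if `y` is in the window of `A k j`, the same for `B`; `y` is in at most one window of `k`. So
the inner sum is `n_k J Sp (y / (k Z))` up to `n_k`, and `|2 J n_k - t |K k| √Z| ≤ 2 J`.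
`Sp_sum`: by `sum_RR` and `lac` (with `v / (k Z)`): for fixed `k, j` with `j ≠ j₀`,
`|∑_{p ∈ A k j} Sp (v / p) - ∑_{p ∈ B k j} Sp (v / p)| ≤ n_k / J` (the cardinalities are equal), for `j = j₀` at most `n_k`.
-/

set_option autoImplicit false

namespace Pool.Agent.Helper96.QC

open Finset

variable {K : ℕ → ℝ} {N : ℕ} {t h θ : ℝ} {J Z : ℕ} {u : ℕ → ℝ} {A B : ℕ → ℕ → Finset ℕ}

theorem abs_sg (x : ℝ) : |sg x| = 1 := by
  unfold sg
  split_ifs <;> simp

theorem sg_mul_abs (x : ℝ) : sg x * |x| = x := by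
  unfold sg
  split_ifs with h
  · rw [one_mul, abs_of_nonneg h]
  · rw [abs_of_neg (not_le.1 h)]
    ring

theorem nk_le {t K : ℝ} (ht : 0 ≤ t) {J : ℕ} (hJ : 0 < J) (Z : ℕ) :
    2 * (J : ℝ) * nk t K J Z ≤ t * |K| * Real.sqrt Z := by
  have hJ' : (0 : ℝ) < J := by exact_mod_cast hJ
  have h1 : (nk t K J Z : ℝ) ≤ t * |K| * Real.sqrt Z / (2 * J) := Nat.floor_le (by positivity)
  rw [le_div_iff₀ (by positivity)] at h1
  linarith

theorem le_nk {t K : ℝ} {J : ℕ} (hJ : 0 < J) (Z : ℕ) :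
    t * |K| * Real.sqrt Z ≤ 2 * (J : ℝ) * nk t K J Z + 2 * J := by
  have hJ' : (0 : ℝ) < J := by exact_mod_cast hJ
  have h1 : t * |K| * Real.sqrt Z / (2 * J) < (nk t K J Z : ℝ) + 1 := Nat.lt_floor_add_one _
  rw [div_lt_iff₀ (by positivity)] at h1
  linarith

theorem hj_pos {h : ℝ} (h0 : 0 < h) (j : ℕ) : 0 < hj h j := by
  unfold hj
  positivity

theorem hj_le {h : ℝ} (h0 : 0 ≤ h) (j : ℕ) : hj h j ≤ h := by
  unfold hj
  exact div_le_self h0 (one_le_pow₀ (by norm_num))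

theorem hj_lt {h : ℝ} (h0 : 0 < h) {i j : ℕ} (hij : i < j) : 8 * hj h j ≤ hj h i := by
  unfold hj
  have h1 : (8 : ℝ) ^ (i + 1) ≤ 8 ^ j := pow_le_pow_right₀ (by norm_num) hij
  have h2 : (0 : ℝ) < 8 ^ i := by positivity
  have h3 : (0 : ℝ) < 8 ^ j := by positivity
  rw [← mul_div_assoc, div_le_div_iff₀ h3 h2]
  rw [pow_succ] at h1
  nlinarith

theorem th_le {h θ : ℝ} (hθ0 : 0 ≤ θ) {J : ℕ} (hθ : 100 * θ * 8 ^ J ≤ h) {j : ℕ} (hj' : j < J) :
    100 * θ ≤ hj h j / 8 := by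
  unfold hj
  have h1 : (8 : ℝ) ^ (j + 1) ≤ 8 ^ J := pow_le_pow_right₀ (by norm_num) hj'
  have h3 : (0 : ℝ) < 8 ^ j := by positivity
  rw [div_div, le_div_iff₀ (by positivity)]
  have h4 : θ * 8 ^ (j + 1) ≤ θ * 8 ^ J := mul_le_mul_of_nonneg_left h1 hθ0
  rw [pow_succ] at h4
  nlinarith

/-- At most one element of a sequence of numbers is within a small distance. -/
private theorem one_window {I : Finset (ℕ × Bool)} {c : ℕ × Bool → ℝ} (n : ℝ) (hn : 0 ≤ n)
    (P : ℕ × Bool → Prop) [DecidablePred P] (h1 : ∀ i ∈ I, |c i| ≤ n) (h2 : ∀ i ∈ I, ¬ P i → c i = 0)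
    (h3 : ∀ i ∈ I, ∀ j ∈ I, P i → P j → i = j) : |∑ i ∈ I, c i| ≤ n := by
  classical
  have h4 : ∑ i ∈ I, c i = ∑ i ∈ I.filter P, c i := by
    rw [Finset.sum_filter]
    refine Finset.sum_congr rfl fun i hi => ?_
    by_cases h : P i
    · rw [if_pos h]
    · rw [if_neg h, h2 i hi h]
  have h5 : (I.filter P).card ≤ 1 := by
    rw [Finset.card_le_one]
    intro a ha b hb
    rw [Finset.mem_filter] at ha hb
    exact h3 a ha.1 b hb.1 ha.2 hb.2
  rw [h4]
  refine (Finset.abs_sum_le_sum_abs _ _).trans ?_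
  refine (Finset.sum_le_card_nsmul _ _ n fun i hi => h1 i (Finset.mem_filter.1 hi).1).trans ?_
  rw [nsmul_eq_mul]
  have h6 : (((I.filter P).card : ℕ) : ℝ) ≤ 1 := by exact_mod_cast h5
  nlinarith

/-- The positions of the windows. -/
private noncomputable def pos (h : ℝ) (i : ℕ × Bool) : ℝ := if i.2 then 1 - hj h i.1 else 1 + hj h i.1

private theorem pos_sep (h0 : 0 < h) (hθ0 : 0 ≤ θ) (hθ : 100 * θ * 8 ^ J ≤ h) {i j : ℕ × Bool} (hi : i.1 < J)
    (hj' : j.1 < J) (hij : i ≠ j) : 2 * θ ≤ |pos h i - pos h j| := by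
  obtain ⟨i, b⟩ := i
  obtain ⟨j, c⟩ := j
  have ei := th_le hθ0 hθ hi
  have ej := th_le hθ0 hθ hj'
  have pi := hj_pos h0 i
  have pj := hj_pos h0 j
  simp only at ei ej
  have key : i ≠ j → 2 * θ ≤ |hj h i - hj h j| := by
    intro hne
    rcases lt_or_gt_of_ne hne with h1 | h1
    · have h2 := hj_lt h0 h1
      rw [abs_of_nonneg (by linarith)]
      linarith
    · have h2 := hj_lt h0 h1
      rw [abs_of_nonpos (by linarith)]
      linarith
  unfold pos
  cases b <;> cases c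
  · have hne : i ≠ j := fun h => hij (by rw [h])
    simpa using key hne
  · simp only [Bool.false_eq_true, if_false, if_true]
    rw [abs_of_nonneg (by linarith)]
    linarith
  · simp only [Bool.false_eq_true, if_false, if_true]
    rw [abs_of_nonpos (by linarith)]
    linarith
  · have hne : i ≠ j := fun h => hij (by rw [h])
    have := key hne
    simp only [if_true]
    rw [show 1 - hj h i - (1 - hj h j) = -(hj h i - hj h j) by ring, abs_neg]
    exact this

/-- Number of elements up to `y` of a set in a window. -/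
private theorem cnt (S : Finset ℕ) {a b y : ℝ} (hS : ∀ p ∈ S, a ≤ (p : ℝ) ∧ (p : ℝ) ≤ b) :
    |((S.filter (fun p : ℕ => (p : ℝ) ≤ y)).card : ℝ) - (if a ≤ y then (S.card : ℝ) else 0)| ≤ S.card ∧
      (¬ (a ≤ y ∧ y < b) → ((S.filter (fun p : ℕ => (p : ℝ) ≤ y)).card : ℝ) - (if a ≤ y then (S.card : ℝ) else 0) = 0) := by
  have h1 : ((S.filter (fun p : ℕ => (p : ℝ) ≤ y)).card : ℝ) ≤ S.card := by
    exact_mod_cast Finset.card_filter_le _ _
  have h2 : (0 : ℝ) ≤ ((S.filter (fun p : ℕ => (p : ℝ) ≤ y)).card : ℝ) := Nat.cast_nonneg _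
  constructor
  · split_ifs
    · rw [abs_le]
      constructor <;> linarith
    · rw [sub_zero, abs_of_nonneg h2]
      exact h1
  · intro h3
    by_cases h4 : a ≤ y
    · rw [if_pos h4]
      have h5 : b ≤ y := by
        by_contra h6
        exact h3 ⟨h4, not_le.1 h6⟩
      rw [Finset.filter_true_of_mem fun p hp => (hS p hp).2.trans h5, sub_self]
    · rw [if_neg h4, Finset.filter_false_of_mem fun p hp h5 => h4 ((hS p hp).1.trans h5)]
      simp

/-- The inner sum of one position. -/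
private theorem inner (hC : CL K N t h θ J Z u A B) (h0 : 0 < h) (h1 : h ≤ 1 / 8) (hθ0 : 0 ≤ θ)
    (hθ : 100 * θ * 8 ^ J ≤ h) (hJ : 0 < J) (hZ : 0 < Z) (y : ℝ) {k : ℕ} (hk : k ∈ Icc 1 N) :
    |∑ j ∈ range J, ((((A k j).filter (fun p : ℕ => (p : ℝ) ≤ y)).card : ℝ) -
      (((B k j).filter (fun p : ℕ => (p : ℝ) ≤ y)).card : ℝ)) -
      nk t (K k) J Z * (J * Sp h J (y / (k * Z)))| ≤ nk t (K k) J Z := by
  classical
  set n : ℝ := (nk t (K k) J Z : ℝ) with hn
  have hn0 : 0 ≤ n := Nat.cast_nonneg _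
  have hk1 : (1 : ℝ) ≤ k := by exact_mod_cast (mem_Icc.1 hk).1
  have hZ' : (0 : ℝ) < Z := by exact_mod_cast hZ
  have hkZ : (0 : ℝ) < k * Z := by positivity
  have hJ' : (0 : ℝ) < J := by exact_mod_cast hJ
  have hθ1 : θ ≤ 1 / 8 := by
    have h2 := th_le hθ0 hθ hJ
    have h3 := hj_le h0.le 0
    linarith
  set c : ℕ × Bool → ℝ := fun i =>
    if i.2 then (((A k i.1).filter (fun p : ℕ => (p : ℝ) ≤ y)).card : ℝ) -
        (if k * Z * (1 - hj h i.1) ≤ y then n else 0)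
      else -((((B k i.1).filter (fun p : ℕ => (p : ℝ) ≤ y)).card : ℝ) -
        (if k * Z * (1 + hj h i.1) ≤ y then n else 0)) with hc
  have hsum : ∑ j ∈ range J, ((((A k j).filter (fun p : ℕ => (p : ℝ) ≤ y)).card : ℝ) -
      (((B k j).filter (fun p : ℕ => (p : ℝ) ≤ y)).card : ℝ)) - n * (J * Sp h J (y / (k * Z))) =
      ∑ i ∈ range J ×ˢ (Finset.univ : Finset Bool), c i := by
    have e1 : (J : ℝ) * Sp h J (y / (k * Z)) =
        ∑ j ∈ range J, (if 1 - hj h j ≤ y / (k * Z) ∧ y / (k * Z) < 1 + hj h j then (1 : ℝ) else 0) := by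
      unfold Sp
      rw [mul_div_cancel₀ _ hJ'.ne', Finset.sum_boole]
    rw [e1, Finset.mul_sum, ← Finset.sum_sub_distrib, Finset.sum_product]
    refine Finset.sum_congr rfl fun j _ => ?_
    rw [Fintype.sum_bool]
    simp only [hc, if_true, Bool.false_eq_true, if_false]
    have pj := hj_pos h0 j
    have q1 : (1 - hj h j ≤ y / (k * Z)) ↔ k * Z * (1 - hj h j) ≤ y := by
      rw [le_div_iff₀ hkZ, mul_comm]
    have q2 : (y / (k * Z) < 1 + hj h j) ↔ ¬ (k * Z * (1 + hj h j) ≤ y) := by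
      rw [div_lt_iff₀ hkZ, mul_comm, not_le]
    by_cases r1 : k * Z * (1 - hj h j) ≤ y
    · by_cases r2 : k * Z * (1 + hj h j) ≤ y
      · rw [if_neg (fun h => q2.1 h.2 r2), if_pos r1, if_pos r2]
        ring
      · rw [if_pos ⟨q1.2 r1, q2.2 r2⟩, if_pos r1, if_neg r2]
        ring
    · have r2 : ¬ (k * Z * (1 + hj h j) ≤ y) := by
        intro h
        refine r1 (le_trans ?_ h)
        refine mul_le_mul_of_nonneg_left ?_ hkZ.le
        linarith
      rw [if_neg (fun h => r1 (q1.1 h.1)), if_neg r1, if_neg r2]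
      ring
  rw [hsum]
  have hi : ∀ i ∈ range J ×ˢ (Finset.univ : Finset Bool), |c i| ≤ n ∧
      (¬ (k * Z * pos h i ≤ y ∧ y < k * Z * pos h i * (1 + θ)) → c i = 0) := by
    rintro ⟨j, b⟩ hij
    have hj1 : j < J := by
      rw [Finset.mem_product, Finset.mem_range] at hij
      exact hij.1
    cases b
    · have g1 := cnt (B k j) (y := y) fun p hp => ⟨(hC.mB k hk j hj1 p hp).1, (hC.mB k hk j hj1 p hp).2.1⟩
      rw [hC.cB k hk j hj1] at g1
      simp only [hc, pos, Bool.false_eq_true, if_false]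
      refine ⟨?_, fun h2 => ?_⟩
      · rw [abs_neg]
        exact g1.1
      · rw [neg_eq_zero]
        exact g1.2 h2
    · have g1 := cnt (A k j) (y := y) fun p hp => ⟨(hC.mA k hk j hj1 p hp).1, (hC.mA k hk j hj1 p hp).2.1⟩
      rw [hC.cA k hk j hj1] at g1
      simp only [hc, pos, if_true]
      exact ⟨g1.1, g1.2⟩
  refine one_window n hn0 (fun i => k * Z * pos h i ≤ y ∧ y < k * Z * pos h i * (1 + θ))
    (fun i h2 => (hi i h2).1) (fun i h2 => (hi i h2).2) ?_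
  intro i h2 j h3 h4 h5
  by_contra hne
  rw [Finset.mem_product, Finset.mem_range] at h2 h3
  have h6 := pos_sep h0 hθ0 hθ h2.1 h3.1 hne
  have bd : ∀ i : ℕ × Bool, pos h i ≤ 9 / 8 := by
    rintro ⟨i, b⟩
    have g1 := hj_pos h0 i
    have g2 := hj_le h0.le i
    unfold pos
    cases b
    · simp only [Bool.false_eq_true, if_false]
      linarith
    · simp only [if_true]
      linarith
  have h7 : k * Z * pos h i < k * Z * (pos h j + 9 / 8 * θ) := by
    refine h4.1.trans_lt (h5.2.trans_le ?_)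
    rw [mul_assoc]
    refine mul_le_mul_of_nonneg_left ?_ hkZ.le
    have := mul_le_mul_of_nonneg_right (bd j) hθ0
    linarith
  have h8 : k * Z * pos h j < k * Z * (pos h i + 9 / 8 * θ) := by
    refine h5.1.trans_lt (h4.2.trans_le ?_)
    rw [mul_assoc]
    refine mul_le_mul_of_nonneg_left ?_ hkZ.le
    have := mul_le_mul_of_nonneg_right (bd i) hθ0
    linarith
  have h7' := lt_of_mul_lt_mul_left h7 hkZ.le
  have h8' := lt_of_mul_lt_mul_left h8 hkZ.le
  have h9 : |pos h i - pos h j| < 9 / 8 * θ := by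
    rw [abs_lt]
    constructor <;> linarith
  linarith

private theorem h_small {N : ℕ} (hN : 1 ≤ N) {h : ℝ} (h0 : 0 < h) (h1 : 8 * N * h ≤ 1) : h ≤ 1 / 8 := by
  have hN' : (1 : ℝ) ≤ N := by exact_mod_cast hN
  nlinarith

private theorem sum_u_filter (u : ℕ → ℝ) (S : Finset ℕ) (c : ℝ) (hc : ∀ p ∈ S, u p = c) (y : ℝ) :
    ∑ p ∈ S.filter (fun p : ℕ => (p : ℝ) ≤ y), u p = c * ((S.filter (fun p : ℕ => (p : ℝ) ≤ y)).card : ℝ) := by
  rw [Finset.sum_congr rfl fun p hp => hc p (Finset.mem_filter.1 hp).1, Finset.sum_const, nsmul_eq_mul, mul_comm]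

theorem Wt_approx (hC : CL K N t h θ J Z u A B) (hN : 1 ≤ N) (ht : 0 ≤ t) (h0 : 0 < h) (h1 : 8 * N * h ≤ 1) (hθ0 : 0 ≤ θ)
    (hθ : 100 * θ * 8 ^ J ≤ h) (hJ : 0 < J) (hZ : 0 < Z) (y : ℝ) :
    |Wt u (RR N J A B) y - t * Real.sqrt Z * ∑ k ∈ Icc 1 N, K k * Sp h J (y / (k * Z))| ≤
      t * nrm K N * Real.sqrt Z / J + 2 * N * J := by
  classical
  have hJ' : (0 : ℝ) < J := by exact_mod_cast hJ
  have h18 := h_small hN h0 h1
  have e1 : Wt u (RR N J A B) y = ∑ k ∈ Icc 1 N, 2 * sg (K k) * ∑ j ∈ range J,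
      ((((A k j).filter (fun p : ℕ => (p : ℝ) ≤ y)).card : ℝ) -
      (((B k j).filter (fun p : ℕ => (p : ℝ) ≤ y)).card : ℝ)) := by
    unfold Wt
    rw [Finset.sum_filter, sum_RR hC hN h0 h1 hθ0 hθ hZ]
    refine Finset.sum_congr rfl fun k hk => ?_
    rw [Finset.mul_sum]
    refine Finset.sum_congr rfl fun j hj' => ?_
    have hj1 := Finset.mem_range.1 hj'
    rw [← Finset.sum_filter, ← Finset.sum_filter,
      sum_u_filter u (A k j) (2 * sg (K k)) (fun p hp => (hC.mA k hk j hj1 p hp).2.2),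
      sum_u_filter u (B k j) (-(2 * sg (K k))) (fun p hp => (hC.mB k hk j hj1 p hp).2.2)]
    ring
  rw [e1, Finset.mul_sum, ← Finset.sum_sub_distrib]
  refine (Finset.abs_sum_le_sum_abs _ _).trans ?_
  have e2 : ∀ k ∈ Icc 1 N, |2 * sg (K k) * ∑ j ∈ range J,
      ((((A k j).filter (fun p : ℕ => (p : ℝ) ≤ y)).card : ℝ) -
      (((B k j).filter (fun p : ℕ => (p : ℝ) ≤ y)).card : ℝ)) - t * Real.sqrt Z * (K k * Sp h J (y / (k * Z)))| ≤
      t * |K k| * Real.sqrt Z / J + 2 * J := by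
    intro k hk
    have h2 := inner hC h0 h18 hθ0 hθ hJ hZ y hk
    set I : ℝ := ∑ j ∈ range J, ((((A k j).filter (fun p : ℕ => (p : ℝ) ≤ y)).card : ℝ) -
      (((B k j).filter (fun p : ℕ => (p : ℝ) ≤ y)).card : ℝ)) with hI
    set S : ℝ := Sp h J (y / (k * Z)) with hS
    have hS0 : 0 ≤ S := Sp_nonneg _ _ _
    have hS1 : S ≤ 1 := Sp_le_one _ _ _
    set n : ℝ := (nk t (K k) J Z : ℝ) with hn
    have hn0 : 0 ≤ n := Nat.cast_nonneg _
    have g1 : 2 * (J : ℝ) * n ≤ t * |K k| * Real.sqrt Z := nk_le ht hJ Z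
    have g2 : t * |K k| * Real.sqrt Z ≤ 2 * (J : ℝ) * n + 2 * J := le_nk hJ Z
    have g3 : 2 * n ≤ t * |K k| * Real.sqrt Z / J := by
      rw [le_div_iff₀ hJ']
      linarith
    have e3 : 2 * sg (K k) * I - t * Real.sqrt Z * (K k * S) =
        sg (K k) * (2 * (I - n * (J * S)) + (2 * J * n - t * |K k| * Real.sqrt Z) * S) := by
      have := sg_mul_abs (K k)
      calc 2 * sg (K k) * I - t * Real.sqrt Z * (K k * S)
          = 2 * sg (K k) * I - t * Real.sqrt Z * (sg (K k) * |K k| * S) := by rw [this]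
        _ = _ := by ring
    rw [e3, abs_mul, abs_sg, one_mul]
    refine (abs_add_le _ _).trans ?_
    rw [abs_mul, abs_two, abs_mul, abs_of_nonneg hS0]
    have g4 : |2 * J * n - t * |K k| * Real.sqrt Z| ≤ 2 * J := by
      rw [abs_le]
      constructor <;> linarith
    have g5 : |2 * J * n - t * |K k| * Real.sqrt Z| * S ≤ 2 * J * 1 :=
      mul_le_mul g4 hS1 hS0 (by positivity)
    linarith
  refine (Finset.sum_le_sum e2).trans (le_of_eq ?_)
  rw [Finset.sum_add_distrib, Finset.sum_const, Nat.card_Icc, nsmul_eq_mul]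
  unfold nrm
  rw [← Finset.sum_div, ← Finset.sum_mul, ← Finset.mul_sum]
  rw [Nat.add_sub_cancel]
  ring

private theorem pair_bound (S T : Finset ℕ) (n : ℕ) (hS : S.card = n) (hT : T.card = n) (F : ℕ → ℝ) {d : ℝ}
    (hd : ∀ p ∈ S, ∀ p' ∈ T, |F p - F p'| ≤ d) : |∑ p ∈ S, F p - ∑ p ∈ T, F p| ≤ n * d := by
  rcases Nat.eq_zero_or_pos n with h0 | h0
  · subst h0
    rw [Finset.card_eq_zero.1 hS, Finset.card_eq_zero.1 hT]
    simp
  · have hn : (0 : ℝ) < n := by exact_mod_cast h0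
    have e1 : (n : ℝ) * (∑ p ∈ S, F p - ∑ p ∈ T, F p) = ∑ p ∈ S, ∑ p' ∈ T, (F p - F p') := by
      have e2 : ∀ p ∈ S, ∑ p' ∈ T, (F p - F p') = n * F p - ∑ p' ∈ T, F p' := by
        intro p _
        rw [Finset.sum_sub_distrib, Finset.sum_const, hT, nsmul_eq_mul]
      rw [Finset.sum_congr rfl e2, Finset.sum_sub_distrib, Finset.sum_const, hS, nsmul_eq_mul, ← Finset.mul_sum]
      ring
    have e3 : |(n : ℝ) * (∑ p ∈ S, F p - ∑ p ∈ T, F p)| ≤ n * (n * d) := by
      rw [e1]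
      refine (Finset.abs_sum_le_sum_abs _ _).trans ?_
      refine (Finset.sum_le_card_nsmul _ _ (n * d) fun p hp => ?_).trans (by rw [hS, nsmul_eq_mul])
      refine (Finset.abs_sum_le_sum_abs _ _).trans ?_
      refine (Finset.sum_le_card_nsmul _ _ d fun p' hp' => hd p hp p' hp').trans (by rw [hT, nsmul_eq_mul])
    rw [abs_mul, abs_of_pos hn] at e3
    exact le_of_mul_le_mul_left e3 hn

theorem Sp_sum (hC : CL K N t h θ J Z u A B) (hN : 1 ≤ N) (ht : 0 ≤ t) (h0 : 0 < h) (h1 : 8 * N * h ≤ 1) (hθ0 : 0 ≤ θ)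
    (hθ : 100 * θ * 8 ^ J ≤ h) (hJ : 0 < J) (hZ : 0 < Z) {v : ℝ} (hv : 0 < v) :
    |∑ p ∈ RR N J A B, u p * Sp h J (v / p)| ≤ 2 * t * nrm K N * Real.sqrt Z / J := by
  classical
  have hJ' : (0 : ℝ) < J := by exact_mod_cast hJ
  have h18 := h_small hN h0 h1
  have hZ' : (0 : ℝ) < Z := by exact_mod_cast hZ
  have e1 : ∑ p ∈ RR N J A B, u p * Sp h J (v / p) = ∑ k ∈ Icc 1 N, 2 * sg (K k) * ∑ j ∈ range J,
      (∑ p ∈ A k j, Sp h J (v / p) - ∑ p ∈ B k j, Sp h J (v / p)) := by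
    rw [sum_RR hC hN h0 h1 hθ0 hθ hZ]
    refine Finset.sum_congr rfl fun k hk => ?_
    rw [Finset.mul_sum]
    refine Finset.sum_congr rfl fun j hj' => ?_
    have hj1 := Finset.mem_range.1 hj'
    have g1 : ∑ p ∈ A k j, u p * Sp h J (v / p) = 2 * sg (K k) * ∑ p ∈ A k j, Sp h J (v / p) := by
      rw [Finset.mul_sum]
      exact Finset.sum_congr rfl fun p hp => by rw [(hC.mA k hk j hj1 p hp).2.2]
    have g2 : ∑ p ∈ B k j, u p * Sp h J (v / p) = -(2 * sg (K k)) * ∑ p ∈ B k j, Sp h J (v / p) := by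
      rw [Finset.mul_sum]
      exact Finset.sum_congr rfl fun p hp => by rw [(hC.mB k hk j hj1 p hp).2.2]
    rw [g1, g2]
    ring
  rw [e1]
  refine (Finset.abs_sum_le_sum_abs _ _).trans ?_
  have e2 : ∀ k ∈ Icc 1 N, |2 * sg (K k) * ∑ j ∈ range J,
      (∑ p ∈ A k j, Sp h J (v / p) - ∑ p ∈ B k j, Sp h J (v / p))| ≤ 2 * t * |K k| * Real.sqrt Z / J := by
    intro k hk
    set n : ℕ := nk t (K k) J Z with hn
    have g1 : 2 * (J : ℝ) * n ≤ t * |K k| * Real.sqrt Z := nk_le ht hJ Z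
    have hk1 : (1 : ℝ) ≤ k := by exact_mod_cast (mem_Icc.1 hk).1
    have hkZ : (0 : ℝ) < k * Z := by positivity
    obtain ⟨j₀, hj₀⟩ := lac h0 h18 hθ0 hθ (v := v / (k * Z)) (by positivity)
    have e3 : ∀ j ∈ range J, |∑ p ∈ A k j, Sp h J (v / p) - ∑ p ∈ B k j, Sp h J (v / p)| ≤
        n * (1 / J) + (if j = j₀ then (n : ℝ) else 0) := by
      intro j hj'
      have hj1 := Finset.mem_range.1 hj'
      by_cases hjj : j = j₀
      · rw [if_pos hjj]
        refine (pair_bound (A k j) (B k j) n (hC.cA k hk j hj1) (hC.cB k hk j hj1) (fun p => Sp h J (v / p))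
          (d := 1) fun p _ p' _ => ?_).trans ?_
        · rw [abs_le]
          have a1 := Sp_nonneg h J (v / p)
          have a2 := Sp_le_one h J (v / p)
          have a3 := Sp_nonneg h J (v / p')
          have a4 := Sp_le_one h J (v / p')
          constructor <;> linarith
        · rw [mul_one]
          have : (0 : ℝ) ≤ n * (1 / J) := by positivity
          linarith
      · rw [if_neg hjj, add_zero]
        refine pair_bound (A k j) (B k j) n (hC.cA k hk j hj1) (hC.cB k hk j hj1) (fun p => Sp h J (v / p))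
          fun p hp p' hp' => ?_
        obtain ⟨a1, a2, -⟩ := hC.mA k hk j hj1 p hp
        obtain ⟨b1, b2, -⟩ := hC.mB k hk j hj1 p' hp'
        have g2 := hj₀ j hj1 hjj ((p : ℝ) / (k * Z)) ((p' : ℝ) / (k * Z))
          (by rw [le_div_iff₀ hkZ]; linarith) (by rw [div_le_iff₀ hkZ]; linarith)
          (by rw [le_div_iff₀ hkZ]; linarith) (by rw [div_le_iff₀ hkZ]; linarith)
        have g3 : ∀ c : ℝ, v / (k * Z) / (c / (k * Z)) = v / c := by
          intro c
          rw [div_div_div_cancel_right₀ hkZ.ne']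
        rw [g3, g3] at g2
        exact g2
    have e4 : |∑ j ∈ range J, (∑ p ∈ A k j, Sp h J (v / p) - ∑ p ∈ B k j, Sp h J (v / p))| ≤ 2 * n := by
      refine (Finset.abs_sum_le_sum_abs _ _).trans ((Finset.sum_le_sum e3).trans ?_)
      rw [Finset.sum_add_distrib, Finset.sum_const, Finset.card_range, nsmul_eq_mul, Finset.sum_ite_eq']
      have g4 : (J : ℝ) * (n * (1 / J)) = n := by field_simp
      rw [g4]
      split_ifs
      · linarith
      · have : (0 : ℝ) ≤ n := Nat.cast_nonneg _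
        linarith
    rw [abs_mul, abs_mul, abs_two, abs_sg, mul_one, le_div_iff₀ hJ']
    nlinarith [mul_le_mul_of_nonneg_right e4 hJ'.le]
  refine (Finset.sum_le_sum e2).trans (le_of_eq ?_)
  unfold nrm
  rw [← Finset.sum_div, ← Finset.sum_mul, ← Finset.mul_sum]

end Pool.Agent.Helper96.QC
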